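import Pool.Agent.Lib.MP_092512_nt.Energy

/-!
# Average lower bound for the number of parallelograms in a set
-/

open Finset

namespace Pool.Agent.Lib.MP_092512_nt

/-- The plain window inequality for a set `t`. -/
theorem plain_lower (t : Finset ℕ) (N J : ℕ) (hN : ∀ n ∈ t, n ≤ N) :
    ((J : ℝ) * t.card) ^ 2 ≤ ((N : ℝ) + J) * ((J : ℝ) * t.card +
        2 * ∑ b ∈ Ico 1 J, ((J : ℝ) - b) * rr t b) := by
  refine (window_cs t N J hN).trans (le_of_eq ?_)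
  have := sum_dist t J (fun a => ((J - a : ℕ) : ℝ)) (by
    intro a ha
    have : J - a = 0 := by omega
    simp [this])
  simp only [tri]
  rw [this]
  congr 1
  congr 2
  refine Finset.sum_congr rfl fun a ha => ?_
  have := (Finset.mem_Ico.mp ha).2
  rw [Nat.cast_sub this.le]

theorem card_class_le (W : ℕ) [NeZero W] (k : ℕ) (m : ZMod W) :
    (((Icc 1 k).filter (fun a : ℕ => (a : ZMod W) = m)).card : ℝ) ≤ (k : ℝ) / W + 1 := by
  classical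
  have hW : 0 < W := Nat.pos_of_ne_zero (NeZero.ne W)
  have hWr : (0 : ℝ) < W := by exact_mod_cast hW
  have h1 : ((Icc 1 k).filter (fun a : ℕ => (a : ZMod W) = m)).card ≤ k / W + 1 := by
    have hinj : Set.InjOn (fun a : ℕ => a / W)
        (((Icc 1 k).filter (fun a : ℕ => (a : ZMod W) = m) : Finset ℕ) : Set ℕ) := by
      intro x hx y hy hxy
      have hx := (Finset.mem_filter.mp (Finset.mem_coe.mp hx)).2
      have hy := (Finset.mem_filter.mp (Finset.mem_coe.mp hy)).2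
      have h : (x : ZMod W) = (y : ZMod W) := hx.trans hy.symm
      rw [ZMod.natCast_eq_natCast_iff] at h
      have h2 : x % W = y % W := h
      have hxy : x / W = y / W := hxy
      rw [← Nat.div_add_mod x W, ← Nat.div_add_mod y W, hxy, h2]
    have hmap : ∀ a ∈ (Icc 1 k).filter (fun a : ℕ => (a : ZMod W) = m),
        a / W ∈ range (k / W + 1) := by
      intro a ha
      have := (Finset.mem_Icc.mp (Finset.mem_filter.mp ha).1).2
      rw [mem_range]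
      exact Nat.lt_succ_of_le (Nat.div_le_div_right this)
    have := Finset.card_le_card_of_injOn _ hmap hinj
    rwa [card_range] at this
  calc (((Icc 1 k).filter (fun a : ℕ => (a : ZMod W) = m)).card : ℝ) ≤ ((k / W + 1 : ℕ) : ℝ) := by
        exact_mod_cast h1
    _ ≤ (k : ℝ) / W + 1 := by
        push_cast
        have := @Nat.cast_div_le ℝ _ _ _ k W
        linarith

/-- Sum of a nonnegative periodic function over an initial segment. -/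
theorem sum_periodic_le (W : ℕ) [NeZero W] (g : ZMod W → ℝ) (hg : ∀ m, 0 ≤ g m) (k : ℕ) :
    ∑ a ∈ Icc 1 k, g (a : ZMod W) ≤ ((k : ℝ) / W + 1) * ∑ m : ZMod W, g m := by
  classical
  rw [← Finset.sum_fiberwise (Icc 1 k) (fun a : ℕ => (a : ZMod W)), Finset.mul_sum]
  refine Finset.sum_le_sum fun m _ => ?_
  have : ∑ a ∈ (Icc 1 k).filter (fun a : ℕ => (a : ZMod W) = m), g (a : ZMod W) =
      ∑ a ∈ (Icc 1 k).filter (fun a : ℕ => (a : ZMod W) = m), g m :=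
    Finset.sum_congr rfl fun a ha => by rw [(Finset.mem_filter.mp ha).2]
  rw [this, Finset.sum_const, nsmul_eq_mul]
  exact mul_le_mul_of_nonneg_right (card_class_le W k m) (hg m)

theorem sum_weight (H : ℕ) (g : ℕ → ℝ) :
    ∑ a ∈ Ico 1 H, ((H : ℝ) - a) * g a = ∑ k ∈ range H, ∑ a ∈ Icc 1 k, g a := by
  induction H with
  | zero => simp
  | succ H ih =>
    rw [Finset.sum_range_succ, ← ih]
    rcases Nat.eq_zero_or_pos H with h | h
    · subst h; simp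
    · rw [Finset.sum_Ico_succ_top (by omega)]
      have e : Icc 1 H = Ico 1 (H + 1) := by ext x; simp only [mem_Icc, mem_Ico]; omega
      rw [e, Finset.sum_Ico_succ_top (by omega)]
      have : ∑ a ∈ Ico 1 H, (((H + 1 : ℕ) : ℝ) - a) * g a =
          ∑ a ∈ Ico 1 H, ((H : ℝ) - a) * g a + ∑ a ∈ Ico 1 H, g a := by
        rw [← Finset.sum_add_distrib]
        exact Finset.sum_congr rfl fun a _ => by push_cast; ring
      rw [this]
      push_cast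
      ring

theorem sum_range_real (H : ℕ) : ∑ k ∈ range H, (k : ℝ) ≤ (H : ℝ) ^ 2 / 2 := by
  induction H with
  | zero => simp
  | succ H ih =>
    rw [Finset.sum_range_succ]
    push_cast
    nlinarith

theorem sum_weight_periodic_le (W : ℕ) [NeZero W] (g : ZMod W → ℝ) (hg : ∀ m, 0 ≤ g m) (H : ℕ) :
    ∑ a ∈ Ico 1 H, ((H : ℝ) - a) * g (a : ZMod W) ≤
      ((H : ℝ) ^ 2 / (2 * W) + H) * ∑ m : ZMod W, g m := by
  rw [sum_weight H (fun a => g (a : ZMod W))]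
  have hG : 0 ≤ ∑ m : ZMod W, g m := Finset.sum_nonneg fun m _ => hg m
  have hW : 0 < W := Nat.pos_of_ne_zero (NeZero.ne W)
  have hWr : (0 : ℝ) < W := by exact_mod_cast hW
  calc ∑ k ∈ range H, ∑ a ∈ Icc 1 k, g (a : ZMod W)
      ≤ ∑ k ∈ range H, ((k : ℝ) / W + 1) * ∑ m : ZMod W, g m :=
        Finset.sum_le_sum fun k _ => sum_periodic_le W g hg k
    _ = ((∑ k ∈ range H, (k : ℝ)) / W + H) * ∑ m : ZMod W, g m := by
        rw [← Finset.sum_mul, Finset.sum_add_distrib, Finset.sum_div]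
        simp
    _ ≤ _ := by
        refine mul_le_mul_of_nonneg_right ?_ hG
        have := sum_range_real H
        have h2 : (∑ k ∈ range H, (k : ℝ)) / W ≤ ((H : ℝ) ^ 2 / 2) / W := by gcongr
        have h3 : ((H : ℝ) ^ 2 / 2) / W = (H : ℝ) ^ 2 / (2 * W) := by
          rw [div_div]
        linarith

/-- The parallelogram count: `n, n + a, n + b, n + a + b ∈ s`. -/
def quad (s : Finset ℕ) (a b : ℕ) : ℕ := rr (s.filter (fun n => n + a ∈ s)) b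

/-- The constant `W V₂ / φ(W)^4`. -/
noncomputable def kap (W : ℕ) [NeZero W] : ℝ :=
  (W : ℝ) * (∑ m : ZMod W, (vv W m : ℝ) ^ 2) / (Nat.totient W : ℝ) ^ 4

theorem V2_pos (W : ℕ) [NeZero W] : 0 < ∑ m : ZMod W, (vv W m : ℝ) ^ 2 := by
  have hW : 0 < W := Nat.pos_of_ne_zero (NeZero.ne W)
  have h0 : 0 < (vv W 0 : ℝ) := by
    rw [vv_zero]
    exact_mod_cast Nat.totient_pos.mpr hW
  have := Finset.single_le_sum (f := fun m : ZMod W => (vv W m : ℝ) ^ 2)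
    (fun m _ => sq_nonneg _) (Finset.mem_univ (0 : ZMod W))
  have h1 : 0 < (vv W 0 : ℝ) ^ 2 := by positivity
  linarith

theorem kap_pos (W : ℕ) [NeZero W] : 0 < kap W := by
  have hW : 0 < W := Nat.pos_of_ne_zero (NeZero.ne W)
  have hWr : (0 : ℝ) < W := by exact_mod_cast hW
  have hphi : (0 : ℝ) < Nat.totient W := by exact_mod_cast Nat.totient_pos.mpr hW
  have := V2_pos W
  unfold kap
  positivity

theorem Q_lower (W : ℕ) [NeZero W] (s : Finset ℕ) (N H : ℕ) (hs : ∀ n ∈ s, IsUnit (n : ZMod W))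
    (hN : ∀ n ∈ s, n ≤ N) (δ : ℝ) (hδ : 0 < δ) (hδ1 : δ < 1)
    (hH : (H : ℝ) ≤ δ * N) (hN0 : 0 < N) (hHW : 2 * (W : ℝ) ≤ δ * H)
    (hA : (Nat.totient W : ℝ) ^ 3 * ((1 + δ) * N) ≤
      δ * (H * s.card * ∑ m : ZMod W, (vv W m : ℝ) ^ 2)) :
    (1 - δ) ^ 2 / (1 + δ) ^ 3 * ((H : ℝ) ^ 2 / 2 * kap W * (s.card : ℝ) ^ 4 / (N : ℝ) ^ 2) ≤
      ∑ a ∈ Ico 1 H, ((H : ℝ) - a) * (rr s a : ℝ) ^ 2 := by
  classical
  have hW : 0 < W := Nat.pos_of_ne_zero (NeZero.ne W)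
  have hWr : (0 : ℝ) < W := by exact_mod_cast hW
  have hphi : (0 : ℝ) < Nat.totient W := by exact_mod_cast Nat.totient_pos.mpr hW
  have hNr : (0 : ℝ) < N := by exact_mod_cast hN0
  have hH0 : (0 : ℝ) < H := by
    by_contra h
    push Not at h
    nlinarith
  set V := ∑ m : ZMod W, (vv W m : ℝ) ^ 2 with hV
  have hVpos : 0 < V := V2_pos W
  set φ : ℝ := (Nat.totient W : ℝ) with hφ
  set n : ℝ := (s.card : ℝ) with hn
  have hn0 : 0 ≤ n := Nat.cast_nonneg _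
  set S := ∑ a ∈ Ico 1 H, ((H : ℝ) - a) * vv W (a : ZMod W) * rr s a with hS
  set Q := ∑ a ∈ Ico 1 H, ((H : ℝ) - a) * (rr s a : ℝ) ^ 2 with hQ
  set M := ∑ a ∈ Ico 1 H, ((H : ℝ) - a) * (vv W (a : ZMod W) : ℝ) ^ 2 with hM
  have hpair := pair_lower W s N H hs hN
  rw [← hV, ← hφ, ← hn, ← hS] at hpair
  have hQ0 : 0 ≤ Q := Finset.sum_nonneg fun a ha => by
    have : (a : ℝ) ≤ H := by exact_mod_cast (Finset.mem_Ico.mp ha).2.le
    exact mul_nonneg (by linarith) (sq_nonneg _)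
  have hCS : S ^ 2 ≤ Q * M := by
    rw [mul_comm]
    refine Finset.sum_sq_le_sum_mul_sum_of_sq_le_mul _ ?_ ?_ ?_
    · intro a ha
      have : (a : ℝ) ≤ H := by exact_mod_cast (Finset.mem_Ico.mp ha).2.le
      exact mul_nonneg (by linarith) (sq_nonneg _)
    · intro a ha
      have : (a : ℝ) ≤ H := by exact_mod_cast (Finset.mem_Ico.mp ha).2.le
      exact mul_nonneg (by linarith) (sq_nonneg _)
    · intro a _
      exact le_of_eq (by ring)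
  have hMle : M ≤ ((H : ℝ) ^ 2 / (2 * W) + H) * V :=
    sum_weight_periodic_le W (fun m => (vv W m : ℝ) ^ 2) (fun m => sq_nonneg _) H
  have hMle2 : M ≤ (1 + δ) * ((H : ℝ) ^ 2 / (2 * W)) * V := by
    refine hMle.trans (mul_le_mul_of_nonneg_right ?_ hVpos.le)
    have : (H : ℝ) ≤ δ * ((H : ℝ) ^ 2 / (2 * W)) := by
      rw [← mul_div_assoc, le_div_iff₀ (by positivity)]
      nlinarith
    linarith
  -- lower bound for S
  have hD : 0 < φ ^ 2 * ((1 + δ) * N) := by positivity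
  have hSlow : (1 - δ) * ((H : ℝ) ^ 2 * n ^ 2 * V) ≤ 2 * (φ ^ 2 * ((1 + δ) * N)) * S := by
    have hS0 : 0 ≤ (H : ℝ) * φ * n + 2 * S := by
      by_contra h
      push Not at h
      have : φ ^ 2 * (((N : ℝ) + H) * ((H : ℝ) * φ * n + 2 * S)) < 0 := by
        apply mul_neg_of_pos_of_neg (by positivity)
        exact mul_neg_of_pos_of_neg (by positivity) h
      have h2 : 0 ≤ ((H : ℝ) * n) ^ 2 * V := by positivity
      linarith
    have h1 : ((H : ℝ) * n) ^ 2 * V ≤ φ ^ 2 * (((1 + δ) * N) * ((H : ℝ) * φ * n + 2 * S)) := by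
      refine hpair.trans ?_
      refine mul_le_mul_of_nonneg_left ?_ (by positivity)
      exact mul_le_mul_of_nonneg_right (by linarith) hS0
    have h2 : φ ^ 2 * ((1 + δ) * N) * ((H : ℝ) * φ * n) ≤ δ * ((H : ℝ) ^ 2 * n ^ 2 * V) := by
      have := mul_le_mul_of_nonneg_left hA (show 0 ≤ (H : ℝ) * n by positivity)
      calc φ ^ 2 * ((1 + δ) * N) * ((H : ℝ) * φ * n)
          = (H : ℝ) * n * (φ ^ 3 * ((1 + δ) * N)) := by ring
        _ ≤ (H : ℝ) * n * (δ * (H * n * V)) := this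
        _ = _ := by ring
    nlinarith
  have hSnn : 0 ≤ S := by
    by_contra h
    push Not at h
    have h1 : 2 * (φ ^ 2 * ((1 + δ) * N)) * S < 0 := mul_neg_of_pos_of_neg (by positivity) h
    have h2 : 0 ≤ (1 - δ) * ((H : ℝ) ^ 2 * n ^ 2 * V) :=
      mul_nonneg (by linarith) (by positivity)
    linarith
  -- combine
  have h3 : ((1 - δ) * ((H : ℝ) ^ 2 * n ^ 2 * V)) ^ 2 ≤
      (2 * (φ ^ 2 * ((1 + δ) * N))) ^ 2 * (Q * ((1 + δ) * ((H : ℝ) ^ 2 / (2 * W)) * V)) := by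
    calc ((1 - δ) * ((H : ℝ) ^ 2 * n ^ 2 * V)) ^ 2 ≤ (2 * (φ ^ 2 * ((1 + δ) * N)) * S) ^ 2 := by
          apply pow_le_pow_left₀ _ hSlow
          exact mul_nonneg (by linarith) (by positivity)
      _ = (2 * (φ ^ 2 * ((1 + δ) * N))) ^ 2 * S ^ 2 := by ring
      _ ≤ (2 * (φ ^ 2 * ((1 + δ) * N))) ^ 2 * (Q * M) := by gcongr
      _ ≤ _ := by gcongr
  have h4 : (1 - δ) ^ 2 / (1 + δ) ^ 3 * ((H : ℝ) ^ 2 / 2 * kap W * n ^ 4 / (N : ℝ) ^ 2) =
      ((1 - δ) * ((H : ℝ) ^ 2 * n ^ 2 * V)) ^ 2 /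
        ((2 * (φ ^ 2 * ((1 + δ) * N))) ^ 2 * ((1 + δ) * ((H : ℝ) ^ 2 / (2 * W)) * V)) := by
    unfold kap
    rw [← hV, ← hφ]
    field_simp
  rw [h4, div_le_iff₀ (by positivity)]
  calc _ ≤ _ := h3
    _ = _ := by ring

theorem alg1 (δ κ n N H J : ℝ) (hδ : 0 < δ) (hN : 0 < N)
    (h3 : (1 + δ) * N ^ 4 ≤ 4 * δ ^ 2 * κ * (J ^ 2 * n ^ 4)) :
    (1 + δ) * N / (4 * δ) * (H ^ 2 / 2) ≤
      2 * δ * (H ^ 2 / 2 * (J ^ 2 / 2) * κ * n ^ 4 / N ^ 3) := by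
  have e1 : 2 * δ * (H ^ 2 / 2 * (J ^ 2 / 2) * κ * n ^ 4 / N ^ 3) =
      (H ^ 2 / 2) * (4 * δ ^ 2 * κ * (J ^ 2 * n ^ 4)) / (4 * δ * N ^ 3) := by
    field_simp
  have e2 : (1 + δ) * N / (4 * δ) * (H ^ 2 / 2) =
      (H ^ 2 / 2) * ((1 + δ) * N ^ 4) / (4 * δ * N ^ 3) := by
    field_simp
  rw [e1, e2]
  gcongr

theorem alg2 (δ κ n N H J : ℝ) (hδ : 0 < δ) (hN : 0 < N) :
    2 * ((1 - δ) ^ 3 / (1 + δ) ^ 4) * (H ^ 2 / 2 * (J ^ 2 / 2) * κ * n ^ 4 / N ^ 3) =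
      (1 - δ) * (J ^ 2 / ((1 + δ) * N)) *
        ((1 - δ) ^ 2 / (1 + δ) ^ 3 * (H ^ 2 / 2 * κ * n ^ 4 / N ^ 2)) := by
  field_simp

theorem quad_lower (s : Finset ℕ) (N J a : ℕ) (hN : ∀ n ∈ s, n ≤ N) (hN0 : 0 < N)
    (δ : ℝ) (hδ : 0 < δ) (hJ : (J : ℝ) ≤ δ * N) :
    (1 - δ) * ((J : ℝ) ^ 2 / ((1 + δ) * N)) * (rr s a : ℝ) ^ 2 - (1 + δ) * N / (4 * δ) ≤
      2 * ∑ b ∈ Ico 1 J, ((J : ℝ) - b) * quad s a b := by
  have hNr : (0 : ℝ) < N := by exact_mod_cast hN0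
  have h := plain_lower (s.filter (fun n => n + a ∈ s)) N J
    (fun n hn => hN n (Finset.mem_filter.mp hn).1)
  have e : (((s.filter (fun n => n + a ∈ s)).card : ℕ) : ℝ) = (rr s a : ℝ) := rfl
  rw [e] at h
  set r : ℝ := (rr s a : ℝ) with hr
  have hr0 : 0 ≤ r := Nat.cast_nonneg _
  have hJ0 : (0 : ℝ) ≤ J := Nat.cast_nonneg _
  set E := ∑ b ∈ Ico 1 J, ((J : ℝ) - b) * quad s a b with hE
  have hEeq : ∑ b ∈ Ico 1 J, ((J : ℝ) - b) * rr (s.filter (fun n => n + a ∈ s)) b = E := rfl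
  rw [hEeq] at h
  have hE0 : 0 ≤ E := Finset.sum_nonneg fun b hb => by
    have : (b : ℝ) ≤ J := by exact_mod_cast (Finset.mem_Ico.mp hb).2.le
    exact mul_nonneg (by linarith) (Nat.cast_nonneg _)
  have hD : (0 : ℝ) < (1 + δ) * N := by positivity
  have h1 : ((J : ℝ) * r) ^ 2 ≤ ((1 + δ) * N) * ((J : ℝ) * r + 2 * E) :=
    h.trans (mul_le_mul_of_nonneg_right (by linarith) (by positivity))
  have h2 : (J : ℝ) * r ≤ δ * ((J : ℝ) ^ 2 / ((1 + δ) * N)) * r ^ 2 + (1 + δ) * N / (4 * δ) := by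
    have h3 : 0 ≤ (2 * δ * ((J : ℝ) * r) - (1 + δ) * N) ^ 2 := sq_nonneg _
    rw [← sub_nonneg]
    have h4 : δ * ((J : ℝ) ^ 2 / ((1 + δ) * N)) * r ^ 2 + (1 + δ) * N / (4 * δ) - (J : ℝ) * r =
        (2 * δ * ((J : ℝ) * r) - (1 + δ) * N) ^ 2 / (4 * δ * ((1 + δ) * N)) := by
      field_simp
      ring
    rw [h4]
    positivity
  have h5 : (J : ℝ) ^ 2 / ((1 + δ) * N) * r ^ 2 ≤ (J : ℝ) * r + 2 * E := by
    rw [div_mul_eq_mul_div, div_le_iff₀ hD]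
    linarith
  have h6 : (1 - δ) * ((J : ℝ) ^ 2 / ((1 + δ) * N)) * r ^ 2 =
      (J : ℝ) ^ 2 / ((1 + δ) * N) * r ^ 2 - δ * ((J : ℝ) ^ 2 / ((1 + δ) * N)) * r ^ 2 := by ring
  rw [h6]
  linarith

/-- Average lower bound for parallelograms. -/
theorem avg_lower (W : ℕ) [NeZero W] (ε : ℝ) (hε : 0 < ε) :
    ∃ A δ : ℝ, 0 < A ∧ 0 < δ ∧ ∀ (s : Finset ℕ) (N H J : ℕ), (∀ n ∈ s, IsUnit (n : ZMod W)) →
      (∀ n ∈ s, n ≤ N) → 0 < N → (H : ℝ) ≤ δ * N → (J : ℝ) ≤ δ * N →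
      A * N ≤ H * s.card → A * N ^ 2 ≤ J * s.card ^ 2 → s.card ≤ N →
      (1 - ε) * ((H : ℝ) ^ 2 / 2 * ((J : ℝ) ^ 2 / 2) * kap W * (s.card : ℝ) ^ 4 / (N : ℝ) ^ 3) ≤
        ∑ a ∈ Ico 1 H, ∑ b ∈ Ico 1 J, ((H : ℝ) - a) * ((J : ℝ) - b) * quad s a b := by
  set δ : ℝ := min ε 1 / 16 with hδdef
  have hmin : 0 < min ε 1 := lt_min hε one_pos
  have hδ : 0 < δ := by positivity
  have hδ1 : δ ≤ 1 / 16 := by
    have := min_le_right ε 1
    rw [hδdef]; linarith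
  have hδε : 16 * δ ≤ ε := by
    have := min_le_left ε 1
    rw [hδdef]; linarith
  have hW : 0 < W := Nat.pos_of_ne_zero (NeZero.ne W)
  have hWr : (0 : ℝ) < W := by exact_mod_cast hW
  have hphi : (0 : ℝ) < Nat.totient W := by exact_mod_cast Nat.totient_pos.mpr hW
  set V := ∑ m : ZMod W, (vv W m : ℝ) ^ 2 with hV
  have hVpos : 0 < V := V2_pos W
  have hκ := kap_pos W
  set κ := kap W with hκdef
  set φ : ℝ := (Nat.totient W : ℝ) with hφ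
  set A1 : ℝ := φ ^ 3 * (1 + δ) / (δ * V) with hA1
  set A2 : ℝ := 2 * W / δ with hA2
  set A3 : ℝ := (1 + δ) / (4 * δ ^ 2 * κ) with hA3
  have hA1p : 0 < A1 := by positivity
  have hA2p : 0 < A2 := by positivity
  have hA3p : 0 < A3 := by positivity
  refine ⟨A1 + A2 + A3 + 1, δ, by positivity, hδ, ?_⟩
  intro s N H J hs hN hN0 hH hJ hAH hAJ hsN
  have hNr : (0 : ℝ) < N := by exact_mod_cast hN0
  set n : ℝ := (s.card : ℝ) with hn
  have hn0 : 0 ≤ n := Nat.cast_nonneg _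
  have hnN : n ≤ N := by rw [hn]; exact_mod_cast hsN
  have hH0 : (0 : ℝ) ≤ H := Nat.cast_nonneg _
  have hJ0 : (0 : ℝ) ≤ J := Nat.cast_nonneg _
  have hAleH : A1 + A2 + A3 + 1 ≤ H := by
    have : (A1 + A2 + A3 + 1) * N ≤ H * N := hAH.trans (by gcongr)
    exact le_of_mul_le_mul_right this hNr
  have hHW : 2 * (W : ℝ) ≤ δ * H := by
    have h1 : A2 ≤ H := by linarith
    rw [hA2, div_le_iff₀ hδ] at h1
    linarith
  have hA : φ ^ 3 * ((1 + δ) * N) ≤ δ * (H * n * V) := by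
    have h1 : A1 * N ≤ H * n := le_trans (by nlinarith) hAH
    have h2 : φ ^ 3 * ((1 + δ) * N) = (δ * V) * (A1 * N) := by
      rw [hA1]; field_simp
    rw [h2]
    calc (δ * V) * (A1 * N) ≤ (δ * V) * (H * n) := by gcongr
      _ = _ := by ring
  have h3 : (1 + δ) * (N : ℝ) ^ 4 ≤ 4 * δ ^ 2 * κ * ((J : ℝ) ^ 2 * n ^ 4) := by
    have h1 : (A3 + 1) * (N : ℝ) ^ 2 ≤ J * n ^ 2 := by
      refine le_trans ?_ hAJ
      have : (0 : ℝ) < (N : ℝ) ^ 2 := by positivity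
      nlinarith
    have h2 : ((A3 + 1) * (N : ℝ) ^ 2) ^ 2 ≤ (J * n ^ 2) ^ 2 :=
      pow_le_pow_left₀ (by positivity) h1 2
    have h4 : A3 ≤ (A3 + 1) ^ 2 := by nlinarith
    have h5 : (1 + δ) = 4 * δ ^ 2 * κ * A3 := by rw [hA3]; field_simp
    calc (1 + δ) * (N : ℝ) ^ 4 = 4 * δ ^ 2 * κ * (A3 * (N : ℝ) ^ 4) := by rw [h5]; ring
      _ ≤ 4 * δ ^ 2 * κ * ((A3 + 1) ^ 2 * (N : ℝ) ^ 4) := by gcongr
      _ = 4 * δ ^ 2 * κ * ((A3 + 1) * (N : ℝ) ^ 2) ^ 2 := by ring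
      _ ≤ 4 * δ ^ 2 * κ * (J * n ^ 2) ^ 2 := by gcongr
      _ = _ := by ring
  have hQ := Q_lower W s N H hs hN δ hδ (by linarith) hH hN0 hHW hA
  rw [← hκdef, ← hn] at hQ
  set Q := ∑ a ∈ Ico 1 H, ((H : ℝ) - a) * (rr s a : ℝ) ^ 2 with hQdef
  set X := ∑ a ∈ Ico 1 H, ∑ b ∈ Ico 1 J, ((H : ℝ) - a) * ((J : ℝ) - b) * quad s a b with hX
  have hX2 : 2 * X = ∑ a ∈ Ico 1 H, ((H : ℝ) - a) *
      (2 * ∑ b ∈ Ico 1 J, ((J : ℝ) - b) * quad s a b) := by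
    rw [hX, Finset.mul_sum]
    refine Finset.sum_congr rfl fun a _ => ?_
    rw [Finset.mul_sum, Finset.mul_sum, Finset.mul_sum]
    refine Finset.sum_congr rfl fun b _ => by ring
  have hsumw : ∑ a ∈ Ico 1 H, ((H : ℝ) - a) ≤ (H : ℝ) ^ 2 / 2 := by
    have := sum_weight H (fun _ => (1 : ℝ))
    simp only [mul_one] at this
    rw [this]
    refine le_trans (le_of_eq ?_) (sum_range_real H)
    refine Finset.sum_congr rfl fun k _ => ?_
    rw [Finset.sum_const, Nat.card_Icc, nsmul_eq_mul, mul_one]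
    simp
  have hXlow : (1 - δ) * ((J : ℝ) ^ 2 / ((1 + δ) * N)) * Q -
      (1 + δ) * N / (4 * δ) * ((H : ℝ) ^ 2 / 2) ≤ 2 * X := by
    have h1 : ∑ a ∈ Ico 1 H, ((H : ℝ) - a) *
        ((1 - δ) * ((J : ℝ) ^ 2 / ((1 + δ) * N)) * (rr s a : ℝ) ^ 2 - (1 + δ) * N / (4 * δ)) ≤
        2 * X := by
      rw [hX2]
      refine Finset.sum_le_sum fun a ha => ?_
      have : (a : ℝ) ≤ H := by exact_mod_cast (Finset.mem_Ico.mp ha).2.le
      exact mul_le_mul_of_nonneg_left (quad_lower s N J a hN hN0 δ hδ hJ)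
        (by linarith)
    refine le_trans ?_ h1
    have h2 : ∑ a ∈ Ico 1 H, ((H : ℝ) - a) *
        ((1 - δ) * ((J : ℝ) ^ 2 / ((1 + δ) * N)) * (rr s a : ℝ) ^ 2 - (1 + δ) * N / (4 * δ)) =
        (1 - δ) * ((J : ℝ) ^ 2 / ((1 + δ) * N)) * Q -
          (1 + δ) * N / (4 * δ) * ∑ a ∈ Ico 1 H, ((H : ℝ) - a) := by
      rw [hQdef, Finset.mul_sum, Finset.mul_sum, ← Finset.sum_sub_distrib]
      exact Finset.sum_congr rfl fun a _ => by ring
    rw [h2]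
    have h3 : 0 ≤ (1 + δ) * N / (4 * δ) := by positivity
    have := mul_le_mul_of_nonneg_left hsumw h3
    linarith
  set Z : ℝ := (H : ℝ) ^ 2 / 2 * ((J : ℝ) ^ 2 / 2) * κ * n ^ 4 / (N : ℝ) ^ 3 with hZ
  have hZ0 : 0 ≤ Z := by positivity
  have h6 : (1 + δ) * N / (4 * δ) * ((H : ℝ) ^ 2 / 2) ≤ 2 * δ * Z :=
    alg1 δ κ n N H J hδ hNr h3
  have h7 : 2 * ((1 - δ) ^ 3 / (1 + δ) ^ 4) * Z ≤
      (1 - δ) * ((J : ℝ) ^ 2 / ((1 + δ) * N)) * Q := by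
    rw [hZ, alg2 δ κ n N H J hδ hNr]
    refine mul_le_mul_of_nonneg_left hQ ?_
    exact mul_nonneg (by linarith) (by positivity)
  have h8 : 1 - ε ≤ (1 - δ) ^ 3 / (1 + δ) ^ 4 - δ := by
    have h9 : 1 - 8 * δ ≤ (1 - δ) ^ 3 / (1 + δ) ^ 4 := by
      rw [le_div_iff₀ (by positivity)]
      nlinarith [mul_pos hδ hδ, pow_pos hδ 3, pow_pos hδ 4, pow_pos hδ 5]
    linarith
  calc (1 - ε) * Z ≤ ((1 - δ) ^ 3 / (1 + δ) ^ 4 - δ) * Z := by gcongr
    _ ≤ X := by linarith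

end Pool.Agent.Lib.MP_092512_nt
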