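import Mathlib

/-!
# The singular series of the quadruple `{0, a, b, a + b}`
-/

namespace Pool.Agent.Lib.MP_092512_nt

/-- The number of residue classes modulo `p` occupied by `0, a, b, a + b`. -/
def nuq (a b p : ℕ) : ℕ := (({0, a, b, a + b} : Finset ℕ).image (fun h => h % p)).card

/-- Partial products (over the primes below `z`) of the singular series of `{0, a, b, a + b}`. -/
noncomputable def Spart (a b z : ℕ) : ℝ :=
  ∏ p ∈ Nat.primesBelow z, (1 - (nuq a b p : ℝ) / p) / (1 - 1 / (p : ℝ)) ^ 4

end Pool.Agent.Lib.MP_092512_nt
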