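import Pool.Agent.Lib.MP_092512_nt.Window

/-!
# Energy of a set of integers coprime to `W`, without equidistribution modulo `W`
-/

open Finset

namespace Pool.Agent.Lib.MP_092512_nt

open Classical in
/-- Number of residues `m` modulo `W` with `m` and `m + a` both invertible. -/
noncomputable def vv (W : ℕ) [NeZero W] (a : ZMod W) : ℕ :=
  (univ.filter (fun m : ZMod W => IsUnit m ∧ IsUnit (m + a))).card

variable (W : ℕ) [NeZero W]

open Classical in
theorem vv_zero : vv W 0 = Nat.totient W := by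
  unfold vv
  simp only [add_zero, and_self]
  have : univ.filter (fun m : ZMod W => IsUnit m) =
      (univ : Finset (ZMod W)ˣ).map ⟨Units.val, Units.val_injective⟩ := by
    ext m
    simp only [mem_filter, mem_univ, true_and, mem_map, Function.Embedding.coeFn_mk]
    rfl
  rw [this, Finset.card_map, Finset.card_univ, ZMod.card_units_eq_totient]

open Classical in
theorem card_shift_eq_aux (n n' : ℕ) (h : n ≤ n') :
    (univ.filter (fun m : ZMod W => IsUnit ((n : ZMod W) + m) ∧ IsUnit ((n' : ZMod W) + m))).card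
      = vv W ((n' - n : ℕ) : ZMod W) := by
  unfold vv
  refine Finset.card_bij' (fun m _ => (n : ZMod W) + m) (fun u _ => u - n) ?_ ?_ ?_ ?_
  · intro m hm
    simp only [mem_filter, mem_univ, true_and] at hm ⊢
    refine ⟨hm.1, ?_⟩
    have : (n : ZMod W) + m + ((n' - n : ℕ) : ZMod W) = (n' : ZMod W) + m := by
      push_cast [Nat.cast_sub h]; ring
    rw [this]; exact hm.2
  · intro u hu
    simp only [mem_filter, mem_univ, true_and] at hu ⊢
    have e1 : (n : ZMod W) + (u - n) = u := by ring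
    have e2 : (n' : ZMod W) + (u - n) = u + ((n' - n : ℕ) : ZMod W) := by
      push_cast [Nat.cast_sub h]; ring
    rw [e1, e2]; exact hu
  · intro m _; ring
  · intro u _; ring

open Classical in
theorem card_shift_eq (n n' : ℕ) :
    (univ.filter (fun m : ZMod W => IsUnit ((n : ZMod W) + m) ∧ IsUnit ((n' : ZMod W) + m))).card
      = vv W ((max n n' - min n n' : ℕ) : ZMod W) := by
  rcases le_total n n' with h | h
  · rw [max_eq_right h, min_eq_left h]; exact card_shift_eq_aux W n n' h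
  · rw [max_eq_left h, min_eq_right h, ← card_shift_eq_aux W n' n h]
    congr 1
    ext m
    simp only [mem_filter, mem_univ, true_and, and_comm]

open Classical in
/-- The elements of `s` whose shift by `m` is coprime to `W`. -/
noncomputable def sm (s : Finset ℕ) (m : ZMod W) : Finset ℕ :=
  s.filter (fun n => IsUnit ((n : ZMod W) + m))

open Classical in
theorem sum_units_sm (s : Finset ℕ) (hs : ∀ n ∈ s, IsUnit (n : ZMod W)) (m : ZMod W) :
    ∑ u : (ZMod W)ˣ, ((sm W s (u * m)).card : ℝ) = s.card * vv W m := by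
  have h1 : ∀ u : (ZMod W)ˣ, ((sm W s (u * m)).card : ℝ) =
      ∑ n ∈ s, if IsUnit ((n : ZMod W) + u * m) then (1 : ℝ) else 0 := by
    intro u
    rw [Finset.sum_boole]
    rfl
  simp only [h1]
  rw [Finset.sum_comm]
  have h2 : ∀ n ∈ s, ∑ u : (ZMod W)ˣ, (if IsUnit ((n : ZMod W) + u * m) then (1 : ℝ) else 0)
      = vv W m := by
    intro n hn
    obtain ⟨w, hw⟩ := hs n hn
    rw [Finset.sum_boole]
    congr 1
    unfold vv
    refine Finset.card_bij' (fun u _ => ((u⁻¹ * w : (ZMod W)ˣ) : ZMod W))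
      (fun x _ => if hx : IsUnit x then (w * hx.unit⁻¹ : (ZMod W)ˣ) else 1) ?_ ?_ ?_ ?_
    · intro u hu
      simp only [mem_filter, mem_univ, true_and] at hu ⊢
      refine ⟨Units.isUnit _, ?_⟩
      have : ((u⁻¹ * w : (ZMod W)ˣ) : ZMod W) + m = ((u⁻¹ : (ZMod W)ˣ) : ZMod W) *
          ((n : ZMod W) + u * m) := by
        rw [← hw, mul_add, ← mul_assoc, Units.inv_mul, one_mul]
        push_cast; ring
      rw [this]
      exact (Units.isUnit _).mul hu
    · intro x hx
      simp only [mem_filter, mem_univ, true_and] at hx ⊢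
      rw [dif_pos hx.1]
      have : (n : ZMod W) + ((w * hx.1.unit⁻¹ : (ZMod W)ˣ) : ZMod W) * m =
          ((w * hx.1.unit⁻¹ : (ZMod W)ˣ) : ZMod W) * (x + m) := by
        rw [mul_add, Units.val_mul, mul_assoc (w : ZMod W) _ x, IsUnit.val_inv_mul, mul_one, hw]
      rw [this]
      exact (Units.isUnit _).mul hx.2
    · intro u hu
      simp only [Units.isUnit, dif_pos]
      have : (Units.isUnit (u⁻¹ * w)).unit = u⁻¹ * w := IsUnit.unit_of_val_units _
      rw [this]
      group
    · intro x hx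
      simp only [mem_filter, mem_univ, true_and] at hx
      simp only [dif_pos hx.1]
      have : ((w * hx.1.unit⁻¹)⁻¹ * w : (ZMod W)ˣ) = hx.1.unit := by group
      rw [this]
      rfl
  rw [Finset.sum_congr rfl h2, Finset.sum_const, nsmul_eq_mul]

open Classical in
/-- The energy inequality: uniform distribution on the reduced residues is the worst case. -/
theorem energy_ge (s : Finset ℕ) (hs : ∀ n ∈ s, IsUnit (n : ZMod W)) :
    ((s.card : ℝ)) ^ 2 * ∑ m : ZMod W, (vv W m : ℝ) ^ 2 ≤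
      (Nat.totient W : ℝ) ^ 2 * ∑ m : ZMod W, ((sm W s m).card : ℝ) ^ 2 := by
  have h1 : ∀ m : ZMod W, ((s.card : ℝ) * vv W m) ^ 2 ≤
      (Nat.totient W : ℝ) * ∑ u : (ZMod W)ˣ, ((sm W s (u * m)).card : ℝ) ^ 2 := by
    intro m
    rw [← sum_units_sm W s hs m]
    have := sq_sum_le_card_mul_sum_sq (s := (univ : Finset (ZMod W)ˣ))
      (f := fun u => ((sm W s (u * m)).card : ℝ))
    rw [Finset.card_univ, ZMod.card_units_eq_totient] at this
    exact this
  have h2 : ∀ u : (ZMod W)ˣ, ∑ m : ZMod W, ((sm W s (u * m)).card : ℝ) ^ 2 =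
      ∑ m : ZMod W, ((sm W s m).card : ℝ) ^ 2 := by
    intro u
    exact Fintype.sum_equiv (Units.mulLeft u) _ _ (fun m => rfl)
  calc ((s.card : ℝ)) ^ 2 * ∑ m : ZMod W, (vv W m : ℝ) ^ 2
      = ∑ m : ZMod W, ((s.card : ℝ) * vv W m) ^ 2 := by
        rw [Finset.mul_sum]
        exact Finset.sum_congr rfl fun m _ => by ring
    _ ≤ ∑ m : ZMod W, (Nat.totient W : ℝ) * ∑ u : (ZMod W)ˣ, ((sm W s (u * m)).card : ℝ) ^ 2 :=
        Finset.sum_le_sum fun m _ => h1 m
    _ = (Nat.totient W : ℝ) * ∑ u : (ZMod W)ˣ, ∑ m : ZMod W, ((sm W s (u * m)).card : ℝ) ^ 2 := by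
        rw [← Finset.mul_sum, Finset.sum_comm]
    _ = _ := by
        simp only [h2]
        rw [Finset.sum_const, Finset.card_univ, ZMod.card_units_eq_totient, nsmul_eq_mul]
        ring

open Classical in
/-- Lower bound for the weighted number of pairs in `s`, twisted by `vv`. -/
theorem pair_lower (s : Finset ℕ) (N H : ℕ) (hs : ∀ n ∈ s, IsUnit (n : ZMod W))
    (hN : ∀ n ∈ s, n ≤ N) :
    ((H : ℝ) * s.card) ^ 2 * ∑ m : ZMod W, (vv W m : ℝ) ^ 2 ≤
      (Nat.totient W : ℝ) ^ 2 * (((N : ℝ) + H) * ((H : ℝ) * Nat.totient W * s.card +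
        2 * ∑ a ∈ Ico 1 H, ((H : ℝ) - a) * vv W (a : ZMod W) * rr s a)) := by
  have h1 : ∀ m : ZMod W, ((H : ℝ) * (sm W s m).card) ^ 2 ≤
      ((N : ℝ) + H) * ∑ n ∈ sm W s m, ∑ n' ∈ sm W s m, (tri H n n' : ℝ) := by
    intro m
    exact window_cs _ N H (fun n hn => hN n (Finset.mem_filter.mp hn).1)
  have h2 : ∑ m : ZMod W, ∑ n ∈ sm W s m, ∑ n' ∈ sm W s m, (tri H n n' : ℝ) =
      ∑ n ∈ s, ∑ n' ∈ s, (tri H n n' : ℝ) * vv W ((max n n' - min n n' : ℕ) : ZMod W) := by
    have e1 : ∀ m : ZMod W, ∑ n ∈ sm W s m, ∑ n' ∈ sm W s m, (tri H n n' : ℝ) =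
        ∑ n ∈ s, ∑ n' ∈ s, if IsUnit ((n : ZMod W) + m) ∧ IsUnit ((n' : ZMod W) + m) then
          (tri H n n' : ℝ) else 0 := by
      intro m
      unfold sm
      rw [Finset.sum_filter]
      refine Finset.sum_congr rfl fun n _ => ?_
      rw [Finset.sum_filter]
      split_ifs with h
      · refine Finset.sum_congr rfl fun n' _ => ?_
        simp [h]
      · simp [h]
    simp only [e1]
    rw [Finset.sum_comm]
    refine Finset.sum_congr rfl fun n _ => ?_
    rw [Finset.sum_comm]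
    refine Finset.sum_congr rfl fun n' _ => ?_
    rw [← Finset.sum_filter, Finset.sum_const, nsmul_eq_mul, card_shift_eq W n n']
    ring
  have h3 : ∑ n ∈ s, ∑ n' ∈ s, (tri H n n' : ℝ) * vv W ((max n n' - min n n' : ℕ) : ZMod W) =
      (H : ℝ) * Nat.totient W * s.card +
        2 * ∑ a ∈ Ico 1 H, ((H : ℝ) - a) * vv W (a : ZMod W) * rr s a := by
    have := sum_dist s H (fun a => ((H - a : ℕ) : ℝ) * vv W (a : ZMod W)) (by
      intro a ha
      have : H - a = 0 := by omega
      simp [this])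
    simp only [tri]
    rw [this]
    congr 1
    · simp [vv_zero]
    · congr 1
      refine Finset.sum_congr rfl fun a ha => ?_
      have := (Finset.mem_Ico.mp ha).2
      rw [Nat.cast_sub this.le]
  calc ((H : ℝ) * s.card) ^ 2 * ∑ m : ZMod W, (vv W m : ℝ) ^ 2
      = (H : ℝ) ^ 2 * (((s.card : ℝ)) ^ 2 * ∑ m : ZMod W, (vv W m : ℝ) ^ 2) := by ring
    _ ≤ (H : ℝ) ^ 2 * ((Nat.totient W : ℝ) ^ 2 * ∑ m : ZMod W, ((sm W s m).card : ℝ) ^ 2) :=
        mul_le_mul_of_nonneg_left (energy_ge W s hs) (by positivity)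
    _ = (Nat.totient W : ℝ) ^ 2 * ∑ m : ZMod W, ((H : ℝ) * (sm W s m).card) ^ 2 := by
        rw [Finset.mul_sum, Finset.mul_sum, Finset.mul_sum]
        exact Finset.sum_congr rfl fun m _ => by ring
    _ ≤ (Nat.totient W : ℝ) ^ 2 * ∑ m : ZMod W,
          ((N : ℝ) + H) * ∑ n ∈ sm W s m, ∑ n' ∈ sm W s m, (tri H n n' : ℝ) := by
        gcongr with m _
        exact h1 m
    _ = _ := by rw [← Finset.mul_sum, h2, h3]

end Pool.Agent.Lib.MP_092512_nt
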