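import Pool.Agent.Lib.MP_092512_nt.MultAvg

/-!
# Sums over a box of functions of `a`, `b`, `a + b`, `|a - b|`
-/

open Finset

namespace Pool.Agent.Lib.MP_092512_nt

/-- If `F ≥ 0` has average at most `E`, then the sum over the box `a < H`, `b < J`, `b ≠ a` of
`F a + F b + F (a + b) + F |a - b|` is at most `6 H J E`. -/
theorem sum_box_le (F : ℕ → ℝ) (hF : ∀ n, 0 ≤ F n) (E : ℝ) (hE : 0 ≤ E)
    (hFE : ∀ X : ℕ, ∑ n ∈ Icc 1 X, F n ≤ X * E) (H J : ℕ) (hHJ : H ≤ J) :
    ∑ a ∈ Ico 1 H, ∑ b ∈ (Ico 1 J).filter (fun b => b ≠ a),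
      (F a + F b + F (a + b) + F (max a b - min a b)) ≤ 6 * (H * J * E) := by
  classical
  have hH0 : (0 : ℝ) ≤ H := Nat.cast_nonneg _
  have hJ0 : (0 : ℝ) ≤ J := Nat.cast_nonneg _
  have hHJr : (H : ℝ) ≤ J := by exact_mod_cast hHJ
  have hIco : ∀ X : ℕ, ∑ n ∈ Ico 1 X, F n ≤ X * E := by
    intro X
    refine le_trans ?_ (hFE X)
    apply Finset.sum_le_sum_of_subset_of_nonneg
    · intro n hn
      rw [mem_Ico] at hn; rw [mem_Icc]; omega
    · intro n _ _; exact hF n
  have hcard : ∀ X : ℕ, (((Ico 1 X).card : ℕ) : ℝ) ≤ X := by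
    intro X; rw [Nat.card_Ico]; exact_mod_cast Nat.sub_le _ _
  -- the four sums
  have hb : ∀ a ∈ Ico 1 H, ∑ b ∈ (Ico 1 J).filter (fun b => b ≠ a),
      (F a + F b + F (a + b) + F (max a b - min a b)) ≤ J * F a + 5 * (J * E) := by
    intro a ha
    have ha := Finset.mem_Ico.mp ha
    rw [Finset.sum_add_distrib, Finset.sum_add_distrib, Finset.sum_add_distrib]
    have h1 : ∑ b ∈ (Ico 1 J).filter (fun b => b ≠ a), F a ≤ J * F a := by
      rw [Finset.sum_const, nsmul_eq_mul]
      refine mul_le_mul_of_nonneg_right ?_ (hF a)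
      refine le_trans ?_ (hcard J)
      exact_mod_cast Finset.card_filter_le _ _
    have h2 : ∑ b ∈ (Ico 1 J).filter (fun b => b ≠ a), F b ≤ J * E := by
      refine le_trans ?_ (hIco J)
      apply Finset.sum_le_sum_of_subset_of_nonneg (Finset.filter_subset _ _)
      intro n _ _; exact hF n
    have h3 : ∑ b ∈ (Ico 1 J).filter (fun b => b ≠ a), F (a + b) ≤ 2 * (J * E) := by
      calc ∑ b ∈ (Ico 1 J).filter (fun b => b ≠ a), F (a + b)
          ≤ ∑ b ∈ Ico 1 J, F (a + b) := by
            apply Finset.sum_le_sum_of_subset_of_nonneg (Finset.filter_subset _ _)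
            intro n _ _; exact hF _
        _ = ∑ s ∈ (Ico 1 J).image (fun b => a + b), F s := by
            rw [Finset.sum_image]
            intro x _ y _ hxy
            exact Nat.add_left_cancel hxy
        _ ≤ ∑ s ∈ Icc 1 (J + J), F s := by
            apply Finset.sum_le_sum_of_subset_of_nonneg
            · intro s hs
              obtain ⟨b, hb, rfl⟩ := Finset.mem_image.mp hs
              rw [mem_Ico] at hb; rw [mem_Icc]; omega
            · intro n _ _; exact hF n
        _ ≤ ((J + J : ℕ) : ℝ) * E := hFE _
        _ = _ := by push_cast; ring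
    have h4 : ∑ b ∈ (Ico 1 J).filter (fun b => b ≠ a), F (max a b - min a b) ≤
        2 * (J * E) := by
      have hsplit : ∑ b ∈ (Ico 1 J).filter (fun b => b ≠ a), F (max a b - min a b) =
          ∑ b ∈ (Ico 1 J).filter (fun b => b < a), F (a - b) +
          ∑ b ∈ (Ico 1 J).filter (fun b => a < b), F (b - a) := by
        rw [Finset.sum_filter, Finset.sum_filter, Finset.sum_filter, ← Finset.sum_add_distrib]
        refine Finset.sum_congr rfl fun b _ => ?_
        rcases lt_trichotomy a b with h | h | h
        · rw [if_pos (by omega), if_neg (by omega), if_pos h, max_eq_right h.le,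
            min_eq_left h.le, zero_add]
        · subst h; simp
        · rw [if_pos (by omega), if_pos h, if_neg (by omega), max_eq_left h.le,
            min_eq_right h.le, add_zero]
      rw [hsplit]
      have e1 : ∑ b ∈ (Ico 1 J).filter (fun b => b < a), F (a - b) ≤ J * E := by
        calc ∑ b ∈ (Ico 1 J).filter (fun b => b < a), F (a - b)
            = ∑ s ∈ ((Ico 1 J).filter (fun b => b < a)).image (fun b => a - b), F s := by
              rw [Finset.sum_image]
              intro x hx y hy hxy
              have hx := (Finset.mem_filter.mp (Finset.mem_coe.mp hx)).2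
              have hy := (Finset.mem_filter.mp (Finset.mem_coe.mp hy)).2
              have hxy : a - x = a - y := hxy
              omega
          _ ≤ ∑ s ∈ Icc 1 J, F s := by
              apply Finset.sum_le_sum_of_subset_of_nonneg
              · intro s hs
                obtain ⟨b, hb, rfl⟩ := Finset.mem_image.mp hs
                rw [mem_filter, mem_Ico] at hb; rw [mem_Icc]; omega
              · intro n _ _; exact hF n
          _ ≤ _ := hFE _
      have e2 : ∑ b ∈ (Ico 1 J).filter (fun b => a < b), F (b - a) ≤ J * E := by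
        calc ∑ b ∈ (Ico 1 J).filter (fun b => a < b), F (b - a)
            = ∑ s ∈ ((Ico 1 J).filter (fun b => a < b)).image (fun b => b - a), F s := by
              rw [Finset.sum_image]
              intro x hx y hy hxy
              have hx := (Finset.mem_filter.mp (Finset.mem_coe.mp hx)).2
              have hy := (Finset.mem_filter.mp (Finset.mem_coe.mp hy)).2
              have hxy : x - a = y - a := hxy
              omega
          _ ≤ ∑ s ∈ Icc 1 J, F s := by
              apply Finset.sum_le_sum_of_subset_of_nonneg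
              · intro s hs
                obtain ⟨b, hb, rfl⟩ := Finset.mem_image.mp hs
                rw [mem_filter, mem_Ico] at hb; rw [mem_Icc]; omega
              · intro n _ _; exact hF n
          _ ≤ _ := hFE _
      linarith
    linarith
  calc _ ≤ ∑ a ∈ Ico 1 H, (J * F a + 5 * (J * E)) := Finset.sum_le_sum hb
    _ = J * ∑ a ∈ Ico 1 H, F a + ((Ico 1 H).card : ℝ) * (5 * (J * E)) := by
        rw [Finset.sum_add_distrib, ← Finset.mul_sum, Finset.sum_const, nsmul_eq_mul]
    _ ≤ J * (H * E) + H * (5 * (J * E)) := by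
        have := hIco H
        have := hcard H
        gcongr
    _ = _ := by ring

end Pool.Agent.Lib.MP_092512_nt
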