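import Pool.Agent.Lib.Sieve.TupleSieve
import Pool.Agent.Lib.Sieve.SingularAverage
import Pool.Agent.Lib.MP_092512_nt.PairSums

/-!
# Upper bound for the second moment of the number of prime parallelograms
-/

open Finset

namespace Pool.Agent.Lib.MP_092512_nt

/-- The number of primes `p ≤ x` with `p + a`, `p + b`, `p + a + b` prime. -/
def NN (x a b : ℕ) : ℕ :=
  ((Icc 1 x).filter (fun p => p.Prime ∧ (p + a).Prime ∧ (p + b).Prime ∧ (p + a + b).Prime)).card

/-- `n / φ(n)` -/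
noncomputable def gg (n : ℕ) : ℝ := (n : ℝ) / (Nat.totient n : ℝ)

theorem gg_nonneg (n : ℕ) : 0 ≤ gg n := by unfold gg; positivity

theorem gg_mul_le (m n : ℕ) (hm : 0 < m) (hn : 0 < n) : gg (m * n) ≤ gg m * gg n := by
  unfold gg
  have h1 : (0 : ℝ) < Nat.totient m := by exact_mod_cast Nat.totient_pos.mpr hm
  have h2 : (0 : ℝ) < Nat.totient n := by exact_mod_cast Nat.totient_pos.mpr hn
  have h3 : ((Nat.totient m * Nat.totient n : ℕ) : ℝ) ≤ Nat.totient (m * n) := by
    exact_mod_cast Nat.totient_super_multiplicative m n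
  push_cast at h3
  rw [div_mul_div_comm]
  push_cast
  gcongr

/-- `∏ (L/φ(L))` over the differences -/
noncomputable def GQ (a b : ℕ) : ℝ := gg a * gg b * gg (a + b) * gg (max a b - min a b)

theorem GQ_nonneg (a b : ℕ) : 0 ≤ GQ a b := by
  unfold GQ
  have := gg_nonneg a
  have := gg_nonneg b
  have := gg_nonneg (a + b)
  have := gg_nonneg (max a b - min a b)
  positivity

theorem quad_bound : ∃ C : ℝ, 0 < C ∧ ∀ x a b : ℕ, 2 ≤ x → 0 < a → 0 < b → a ≠ b →
    (NN x a b : ℝ) ≤ C * (GQ a b) ^ 4 * x / (Real.log x) ^ 4 := by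
  obtain ⟨C, hC, h⟩ := Pool.Agent.Lib.Sieve.tuple_sieve 4 (by norm_num)
  refine ⟨C * 3 ^ 4, by positivity, ?_⟩
  intro x a b hx ha hb hab
  set D := max a b - min a b with hD
  have hD0 : 0 < D := by
    rcases lt_or_gt_of_ne hab with h1 | h1
    · rw [hD, max_eq_right h1.le, min_eq_left h1.le]; omega
    · rw [hD, max_eq_left h1.le, min_eq_right h1.le]; omega
  set M := 24 * (a * b * (a + b) * D) with hM
  have hM0 : M ≠ 0 := by positivity
  have h1 := h x ![0, a, b, a + b] M hx hM0 ?_ ?_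
  · have e1 : (Icc 1 x).filter (fun n => ∀ i : Fin 4, (n + (![0, a, b, a + b] : Fin 4 → ℕ) i).Prime)
        = (Icc 1 x).filter
          (fun p => p.Prime ∧ (p + a).Prime ∧ (p + b).Prime ∧ (p + a + b).Prime) := by
      ext n
      simp only [mem_filter, Fin.forall_fin_succ, Fin.isValue, Matrix.cons_val_zero, add_zero,
        Matrix.cons_val_succ, IsEmpty.forall_iff, and_true, ← add_assoc]
    rw [e1] at h1
    refine h1.trans ?_
    have h2 : (M : ℝ) / (Nat.totient M : ℝ) ≤ 3 * GQ a b := by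
      have g1 : gg M ≤ gg 24 * gg (a * b * (a + b) * D) :=
        gg_mul_le _ _ (by norm_num) (by positivity)
      have g2 : gg (a * b * (a + b) * D) ≤ gg (a * b * (a + b)) * gg D :=
        gg_mul_le _ _ (by positivity) hD0
      have g3 : gg (a * b * (a + b)) ≤ gg (a * b) * gg (a + b) :=
        gg_mul_le _ _ (by positivity) (by positivity)
      have g4 : gg (a * b) ≤ gg a * gg b := gg_mul_le _ _ ha hb
      have g5 : gg 24 = 3 := by
        unfold gg
        have : Nat.totient 24 = 8 := by decide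
        rw [this]; norm_num
      have n1 := gg_nonneg D
      have n2 := gg_nonneg (a + b)
      calc (M : ℝ) / (Nat.totient M : ℝ) = gg M := rfl
        _ ≤ gg 24 * gg (a * b * (a + b) * D) := g1
        _ ≤ 3 * (gg (a * b * (a + b)) * gg D) := by rw [g5]; gcongr
        _ ≤ 3 * (gg (a * b) * gg (a + b) * gg D) := by gcongr
        _ ≤ 3 * (gg a * gg b * gg (a + b) * gg D) := by gcongr
        _ = _ := rfl
    have h0 : 0 ≤ (M : ℝ) / (Nat.totient M : ℝ) := by positivity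
    have hx2 : (2 : ℝ) ≤ x := by exact_mod_cast hx
    have hlog : 0 < Real.log x := Real.log_pos (by linarith)
    calc C * ((M : ℝ) / (Nat.totient M : ℝ)) ^ 4 * x / (Real.log x) ^ 4
        ≤ C * (3 * GQ a b) ^ 4 * x / (Real.log x) ^ 4 := by gcongr
      _ = _ := by ring
  · intro p hp hp4
    apply Dvd.dvd.mul_right
    interval_cases p
    · exact absurd hp (by norm_num)
    · exact absurd hp (by norm_num)
    · norm_num
    · norm_num
    · exact absurd hp (by norm_num)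
  · have key : ∀ i j : Fin 4, i < j → ∀ p, p.Prime →
        (((![0, a, b, a + b] : Fin 4 → ℕ) i : ℕ) : ZMod p) =
          (((![0, a, b, a + b] : Fin 4 → ℕ) j : ℕ) : ZMod p) → p ∣ M := by
      intro i j hij p hp heq
      have d1 : p ∣ a → p ∣ M := fun hd =>
        Dvd.dvd.mul_left (Dvd.dvd.mul_right (Dvd.dvd.mul_right (Dvd.dvd.mul_right hd _) _) _) _
      have d2 : p ∣ b → p ∣ M := fun hd =>
        Dvd.dvd.mul_left (Dvd.dvd.mul_right (Dvd.dvd.mul_right (Dvd.dvd.mul_left hd _) _) _) _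
      have d3 : p ∣ a + b → p ∣ M := fun hd =>
        Dvd.dvd.mul_left (Dvd.dvd.mul_right (Dvd.dvd.mul_left hd _) _) _
      have d4 : (a : ZMod p) = (b : ZMod p) → p ∣ M := by
        intro hc
        have : p ∣ D := by
          rw [hD]
          rcases le_total a b with h1 | h1
          · rw [max_eq_right h1, min_eq_left h1]
            exact (Nat.modEq_iff_dvd' h1).mp ((ZMod.natCast_eq_natCast_iff _ _ _).mp hc)
          · rw [max_eq_left h1, min_eq_right h1]
            exact (Nat.modEq_iff_dvd' h1).mp ((ZMod.natCast_eq_natCast_iff _ _ _).mp hc.symm)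
        exact Dvd.dvd.mul_left (Dvd.dvd.mul_left this _) _
      have z : ∀ c : ℕ, (c : ZMod p) = 0 → p ∣ c := fun c hc => (ZMod.natCast_eq_zero_iff _ _).mp hc
      fin_cases i <;> fin_cases j <;>
        simp only [Fin.mk_zero, Fin.mk_one, Fin.reduceFinMk, Fin.isValue, lt_self_iff_false,
          Fin.reduceLT] at hij
      · exact d1 (z a (by simpa using heq.symm))
      · exact d2 (z b (by simpa using heq.symm))
      · exact d3 (z (a + b) (by
          have := heq.symm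
          simpa using this))
      · exact d4 (by simpa using heq)
      · exact d2 (z b (by simpa using heq))
      · exact d1 (z a (by simpa using heq))
    intro i j hij p hp heq
    rcases lt_or_gt_of_ne hij with h1 | h1
    · exact key i j h1 p hp heq
    · exact key j i h1 p hp heq.symm

theorem gg_eq_prod (n : ℕ) (hn : n ≠ 0) :
    gg n = ∏ p ∈ n.primeFactors with 0 < p, yf p := by
  unfold gg
  rw [Pool.Agent.Lib.Sieve.div_totient_eq_prod_inv n hn]
  have : n.primeFactors.filter (fun p => 0 < p) = n.primeFactors := by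
    apply Finset.filter_true_of_mem
    intro p hp
    exact (Nat.prime_of_mem_primeFactors hp).pos
  rw [this]
  rfl

/-- moments of `n/φ(n)` -/
theorem sum_gg_pow_le (k X : ℕ) :
    ∑ n ∈ Icc 1 X, (gg n) ^ k ≤ X * Real.exp (4 * 2 ^ k) := by
  have h := sum_yf_pow_le k 0 X
  simp only [Nat.cast_zero, zero_add, div_one] at h
  refine le_trans (le_of_eq ?_) h
  refine Finset.sum_congr rfl fun n hn => ?_
  have : n ≠ 0 := by
    have := (Finset.mem_Icc.mp hn).1
    omega
  rw [gg_eq_prod n this]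

theorem four_amgm (w x y z : ℝ) :
    w * x * y * z ≤ w ^ 4 + x ^ 4 + y ^ 4 + z ^ 4 := by
  nlinarith [sq_nonneg (w ^ 2 - x ^ 2), sq_nonneg (y ^ 2 - z ^ 2), sq_nonneg (w * x - y * z)]

/-- The second moment bound. -/
theorem second_moment : ∃ C : ℝ, 0 < C ∧ ∀ x H J : ℕ, 2 ≤ x → H ≤ J →
    ∑ a ∈ Ico 1 H, ∑ b ∈ (Ico 1 J).filter (fun b => b ≠ a), (NN x a b : ℝ) ^ 2 ≤
      C * (H * J) * ((x : ℝ) / (Real.log x) ^ 4) ^ 2 := by
  obtain ⟨C, hC, h⟩ := quad_bound
  refine ⟨C ^ 2 * 6 * Real.exp (4 * 2 ^ 32), by positivity, ?_⟩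
  intro x H J hx hHJ
  have hx2 : (2 : ℝ) ≤ x := by exact_mod_cast hx
  have hlog : 0 < Real.log x := Real.log_pos (by linarith)
  have hbox := sum_box_le (fun n => (gg n) ^ 32) (fun n => by have := gg_nonneg n; positivity)
    (Real.exp (4 * 2 ^ 32)) (Real.exp_pos _).le (fun X => sum_gg_pow_le 32 X) H J hHJ
  have hterm : ∀ a ∈ Ico 1 H, ∀ b ∈ (Ico 1 J).filter (fun b => b ≠ a), (NN x a b : ℝ) ^ 2 ≤
      C ^ 2 * ((x : ℝ) / (Real.log x) ^ 4) ^ 2 * ((gg a) ^ 32 + (gg b) ^ 32 + (gg (a + b)) ^ 32 +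
        (gg (max a b - min a b)) ^ 32) := by
    intro a ha b hb
    have ha1 := (Finset.mem_Ico.mp ha).1
    have hb1 := (Finset.mem_Ico.mp (Finset.mem_filter.mp hb).1).1
    have hne := (Finset.mem_filter.mp hb).2
    have hh := h x a b hx ha1 hb1 (Ne.symm hne)
    have hG := GQ_nonneg a b
    calc (NN x a b : ℝ) ^ 2 ≤ (C * (GQ a b) ^ 4 * x / (Real.log x) ^ 4) ^ 2 :=
          pow_le_pow_left₀ (Nat.cast_nonneg _) hh 2
      _ = C ^ 2 * ((x : ℝ) / (Real.log x) ^ 4) ^ 2 * (GQ a b) ^ 8 := by ring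
      _ = C ^ 2 * ((x : ℝ) / (Real.log x) ^ 4) ^ 2 * ((gg a) ^ 8 * (gg b) ^ 8 *
          (gg (a + b)) ^ 8 * (gg (max a b - min a b)) ^ 8) := by
          unfold GQ; ring
      _ ≤ C ^ 2 * ((x : ℝ) / (Real.log x) ^ 4) ^ 2 * (((gg a) ^ 8) ^ 4 + ((gg b) ^ 8) ^ 4 +
          ((gg (a + b)) ^ 8) ^ 4 + ((gg (max a b - min a b)) ^ 8) ^ 4) := by
          refine mul_le_mul_of_nonneg_left ?_ (by positivity)
          exact four_amgm _ _ _ _
      _ = _ := by ring
  calc ∑ a ∈ Ico 1 H, ∑ b ∈ (Ico 1 J).filter (fun b => b ≠ a), (NN x a b : ℝ) ^ 2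
      ≤ ∑ a ∈ Ico 1 H, ∑ b ∈ (Ico 1 J).filter (fun b => b ≠ a),
        C ^ 2 * ((x : ℝ) / (Real.log x) ^ 4) ^ 2 * ((gg a) ^ 32 + (gg b) ^ 32 + (gg (a + b)) ^ 32 +
        (gg (max a b - min a b)) ^ 32) :=
        Finset.sum_le_sum fun a ha => Finset.sum_le_sum fun b hb => hterm a ha b hb
    _ = C ^ 2 * ((x : ℝ) / (Real.log x) ^ 4) ^ 2 * ∑ a ∈ Ico 1 H,
        ∑ b ∈ (Ico 1 J).filter (fun b => b ≠ a), ((gg a) ^ 32 + (gg b) ^ 32 + (gg (a + b)) ^ 32 +
        (gg (max a b - min a b)) ^ 32) := by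
        rw [Finset.mul_sum]
        refine Finset.sum_congr rfl fun a _ => ?_
        rw [Finset.mul_sum]
    _ ≤ C ^ 2 * ((x : ℝ) / (Real.log x) ^ 4) ^ 2 * (6 * (H * J * Real.exp (4 * 2 ^ 32))) := by
        gcongr
    _ = _ := by ring

/-- The degenerate terms `b = a`. -/
theorem diag_bound : ∃ C : ℝ, 0 < C ∧ ∀ x H : ℕ, 2 ≤ x →
    ∑ a ∈ Ico 1 H, (NN x a a : ℝ) ≤ C * H * ((x : ℝ) / (Real.log x) ^ 2) := by
  obtain ⟨C, hC, h⟩ := Pool.Agent.Lib.Sieve.pair_sieve
  refine ⟨C * Real.exp (4 * 2 ^ 1), by positivity, ?_⟩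
  intro x H hx
  have hx2 : (2 : ℝ) ≤ x := by exact_mod_cast hx
  have hlog : 0 < Real.log x := Real.log_pos (by linarith)
  have hterm : ∀ a ∈ Ico 1 H, (NN x a a : ℝ) ≤ C * ((x : ℝ) / (Real.log x) ^ 2) * (gg a) ^ 1 := by
    intro a ha
    have ha1 := (Finset.mem_Ico.mp ha).1
    have h1 := h x a hx ha1
    have h2 : NN x a a ≤ ((Icc 1 x).filter (fun p => p.Prime ∧ (p + a).Prime)).card := by
      unfold NN
      apply Finset.card_le_card
      intro p hp
      have hp' := Finset.mem_filter.mp hp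
      exact Finset.mem_filter.mpr ⟨hp'.1, hp'.2.1, hp'.2.2.1⟩
    calc (NN x a a : ℝ) ≤ (((Icc 1 x).filter (fun p => p.Prime ∧ (p + a).Prime)).card : ℝ) := by
          exact_mod_cast h2
      _ ≤ _ := h1
      _ = _ := by unfold gg; ring
  calc ∑ a ∈ Ico 1 H, (NN x a a : ℝ) ≤ ∑ a ∈ Ico 1 H, C * ((x : ℝ) / (Real.log x) ^ 2) * (gg a) ^ 1 :=
        Finset.sum_le_sum hterm
    _ = C * ((x : ℝ) / (Real.log x) ^ 2) * ∑ a ∈ Ico 1 H, (gg a) ^ 1 := by rw [Finset.mul_sum]
    _ ≤ C * ((x : ℝ) / (Real.log x) ^ 2) * ∑ a ∈ Icc 1 H, (gg a) ^ 1 := by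
        refine mul_le_mul_of_nonneg_left ?_ (by positivity)
        apply Finset.sum_le_sum_of_subset_of_nonneg
        · intro n hn
          rw [mem_Ico] at hn; rw [mem_Icc]; omega
        · intro n _ _; exact pow_nonneg (gg_nonneg n) 1
    _ ≤ C * ((x : ℝ) / (Real.log x) ^ 2) * (H * Real.exp (4 * 2 ^ 1)) := by
        gcongr
        exact sum_gg_pow_le 1 H
    _ = _ := by ring

end Pool.Agent.Lib.MP_092512_nt
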