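import Pool.Agent.Lib.MP_092512_nt.Defs
import Pool.Agent.Lib.MP_092512_nt.AvgLower
import Pool.Agent.Lib.MP_092512_nt.Second
import Pool.Agent.Lib.MP_5d7b92_nt.Count

/-!
# Assembly of the main theorem on prime parallelograms
-/

open Finset Filter Topology

namespace Pool.Agent.Lib.MP_092512_nt

/-- The average of the singular series over a box (piece II). -/
def SingularAverage : Prop := ∀ e : ℝ, 0 < e → ∃ W : ℕ, ∃ _ : NeZero W, ∃ H0 : ℕ,
  ∀ S : ℕ → ℕ → ℝ,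
    (∀ a b : ℕ, 0 < a → 0 < b → a ≠ b → Tendsto (Spart a b) atTop (𝓝 (S a b))) →
    ∀ H J : ℕ, H0 ≤ H → H ≤ J →
      ∑ a ∈ Ico 1 H, ∑ b ∈ (Ico 1 J).filter (fun b => b ≠ a),
        ((H : ℝ) - a) * ((J : ℝ) - b) * S a b ≤
        (1 + e) * (kap W * ((H : ℝ) ^ 2 / 2) * ((J : ℝ) ^ 2 / 2))

theorem quad_le_NN (s : Finset ℕ) (x a b : ℕ) (hs : ∀ n ∈ s, n.Prime ∧ n ≤ x) :
    quad s a b ≤ NN x a b := by
  unfold quad rr NN
  apply Finset.card_le_card
  intro n hn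
  simp only [Finset.mem_filter] at hn ⊢
  obtain ⟨⟨h1, h2⟩, h3, h4⟩ := hn
  refine ⟨?_, (hs n h1).1, (hs _ h2).1, (hs _ h3).1, ?_⟩
  · rw [Finset.mem_Icc]
    exact ⟨(hs n h1).1.one_lt.le, (hs n h1).2⟩
  · have := (hs _ h4).1
    have e : n + a + b = n + b + a := by ring
    rw [e]; exact this

/-- Splitting off the diagonal. -/
theorem split_diag (H J : ℕ) (hHJ : H ≤ J) (F : ℕ → ℕ → ℝ) (hF : ∀ a b, 0 ≤ F a b) :
    ∑ a ∈ Ico 1 H, ∑ b ∈ Ico 1 J, ((H : ℝ) - a) * ((J : ℝ) - b) * F a b ≤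
      ∑ a ∈ Ico 1 H, ∑ b ∈ (Ico 1 J).filter (fun b => b ≠ a),
        ((H : ℝ) - a) * ((J : ℝ) - b) * F a b + (H * J) * ∑ a ∈ Ico 1 H, F a a := by
  rw [Finset.mul_sum, ← Finset.sum_add_distrib]
  refine Finset.sum_le_sum fun a ha => ?_
  have ha' := Finset.mem_Ico.mp ha
  have haJ : a ∈ Ico 1 J := Finset.mem_Ico.mpr ⟨ha'.1, lt_of_lt_of_le ha'.2 hHJ⟩
  rw [← Finset.sum_filter_add_sum_filter_not (Ico 1 J) (fun b => b ≠ a)]
  have e : (Ico 1 J).filter (fun b => ¬ b ≠ a) = {a} := by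
    ext b
    simp only [ne_eq, not_not, Finset.mem_filter, Finset.mem_singleton]
    constructor
    · rintro ⟨_, h⟩; exact h
    · rintro rfl; exact ⟨haJ, rfl⟩
  rw [e, Finset.sum_singleton]
  have h1 : ((H : ℝ) - a) * ((J : ℝ) - a) * F a a ≤ H * J * F a a := by
    have haH : (a : ℝ) ≤ H := by exact_mod_cast ha'.2.le
    have haJ' : (a : ℝ) ≤ J := by exact_mod_cast (ha'.2.le.trans hHJ)
    have ha0 : (0 : ℝ) ≤ a := Nat.cast_nonneg _
    have h2 : ((H : ℝ) - a) * ((J : ℝ) - a) ≤ H * J := by nlinarith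
    exact mul_le_mul_of_nonneg_right h2 (hF a a)
  linarith

/-- From a large weighted sum and a second moment bound to many good pairs. -/
theorem many_good (H J : ℕ) (Nf : ℕ → ℕ → ℝ) (T : ℕ → ℕ → ℝ)
    (hN : ∀ a b, 0 ≤ Nf a b)
    (hT : ∀ a ∈ Ico 1 H, ∀ b ∈ (Ico 1 J).filter (fun b => b ≠ a), 0 ≤ T a b)
    (D M2 : ℝ) (hD : 0 ≤ D)
    (h1 : D + ∑ a ∈ Ico 1 H, ∑ b ∈ (Ico 1 J).filter (fun b => b ≠ a),
        ((H : ℝ) - a) * ((J : ℝ) - b) * T a b ≤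
      ∑ a ∈ Ico 1 H, ∑ b ∈ (Ico 1 J).filter (fun b => b ≠ a),
        ((H : ℝ) - a) * ((J : ℝ) - b) * Nf a b)
    (h2 : ∑ a ∈ Ico 1 H, ∑ b ∈ (Ico 1 J).filter (fun b => b ≠ a), (Nf a b) ^ 2 ≤ M2) :
    D ^ 2 ≤ ((H : ℝ) * J) ^ 2 * ((((Ico 1 H ×ˢ Ico 1 J).filter
      (fun q => q.1 ≠ q.2 ∧ T q.1 q.2 ≤ Nf q.1 q.2)).card : ℝ) * M2) := by
  classical
  set U : Finset (ℕ × ℕ) := (Ico 1 H ×ˢ Ico 1 J).filter (fun q => q.1 ≠ q.2) with hU
  set G : Finset (ℕ × ℕ) := (Ico 1 H ×ˢ Ico 1 J).filter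
      (fun q => q.1 ≠ q.2 ∧ T q.1 q.2 ≤ Nf q.1 q.2) with hG
  have hsum : ∀ F : ℕ → ℕ → ℝ, ∑ a ∈ Ico 1 H, ∑ b ∈ (Ico 1 J).filter (fun b => b ≠ a), F a b =
      ∑ q ∈ U, F q.1 q.2 := by
    intro F
    rw [hU, Finset.sum_filter, Finset.sum_product]
    refine Finset.sum_congr rfl fun a _ => ?_
    rw [Finset.sum_filter]
    refine Finset.sum_congr rfl fun b _ => ?_
    by_cases h : b = a
    · subst h; simp
    · rw [if_pos h, if_pos (Ne.symm h)]
  rw [hsum, hsum] at h1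
  rw [hsum] at h2
  have hGU : G ⊆ U := by
    intro q hq
    have := Finset.mem_filter.mp hq
    exact Finset.mem_filter.mpr ⟨this.1, this.2.1⟩
  have hUb : ∀ q ∈ U, 0 ≤ ((H : ℝ) - q.1) * ((J : ℝ) - q.2) ∧
      ((H : ℝ) - q.1) * ((J : ℝ) - q.2) ≤ H * J := by
    intro q hq
    have hq' := Finset.mem_product.mp (Finset.mem_filter.mp hq).1
    have e1 := Finset.mem_Ico.mp hq'.1
    have e2 := Finset.mem_Ico.mp hq'.2
    have f1 : (q.1 : ℝ) ≤ H := by exact_mod_cast e1.2.le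
    have f2 : (q.2 : ℝ) ≤ J := by exact_mod_cast e2.2.le
    have f3 : (0 : ℝ) ≤ q.1 := Nat.cast_nonneg _
    have f4 : (0 : ℝ) ≤ q.2 := Nat.cast_nonneg _
    constructor
    · exact mul_nonneg (by linarith) (by linarith)
    · nlinarith
  have hDle : D ≤ ((H : ℝ) * J) * ∑ q ∈ G, Nf q.1 q.2 := by
    have e1 : D ≤ ∑ q ∈ U, ((H : ℝ) - q.1) * ((J : ℝ) - q.2) * (Nf q.1 q.2 - T q.1 q.2) := by
      have : ∑ q ∈ U, ((H : ℝ) - q.1) * ((J : ℝ) - q.2) * (Nf q.1 q.2 - T q.1 q.2) =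
          ∑ q ∈ U, ((H : ℝ) - q.1) * ((J : ℝ) - q.2) * Nf q.1 q.2 -
          ∑ q ∈ U, ((H : ℝ) - q.1) * ((J : ℝ) - q.2) * T q.1 q.2 := by
        rw [← Finset.sum_sub_distrib]
        exact Finset.sum_congr rfl fun q _ => by ring
      rw [this]
      linarith
    refine e1.trans ?_
    rw [← Finset.sum_filter_add_sum_filter_not U (fun q => T q.1 q.2 ≤ Nf q.1 q.2)]
    have e2 : U.filter (fun q => T q.1 q.2 ≤ Nf q.1 q.2) = G := by
      rw [hU, hG, Finset.filter_filter]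
    rw [e2]
    have e3 : ∑ q ∈ U.filter (fun q => ¬ T q.1 q.2 ≤ Nf q.1 q.2),
        ((H : ℝ) - q.1) * ((J : ℝ) - q.2) * (Nf q.1 q.2 - T q.1 q.2) ≤ 0 := by
      apply Finset.sum_nonpos
      intro q hq
      have hq' := Finset.mem_filter.mp hq
      have := (hUb q hq'.1).1
      have h3 := not_le.mp hq'.2
      exact mul_nonpos_of_nonneg_of_nonpos this (by linarith)
    have e4 : ∑ q ∈ G, ((H : ℝ) - q.1) * ((J : ℝ) - q.2) * (Nf q.1 q.2 - T q.1 q.2) ≤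
        ((H : ℝ) * J) * ∑ q ∈ G, Nf q.1 q.2 := by
      rw [Finset.mul_sum]
      refine Finset.sum_le_sum fun q hq => ?_
      have hqU := hGU hq
      have hq' := Finset.mem_filter.mp hqU
      have hqp := Finset.mem_product.mp hq'.1
      have hT0 : 0 ≤ T q.1 q.2 := hT q.1 hqp.1 q.2
        (Finset.mem_filter.mpr ⟨hqp.2, Ne.symm hq'.2⟩)
      have hb := hUb q hqU
      calc ((H : ℝ) - q.1) * ((J : ℝ) - q.2) * (Nf q.1 q.2 - T q.1 q.2)
          ≤ ((H : ℝ) - q.1) * ((J : ℝ) - q.2) * Nf q.1 q.2 :=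
            mul_le_mul_of_nonneg_left (by linarith) hb.1
        _ ≤ (H * J) * Nf q.1 q.2 := mul_le_mul_of_nonneg_right hb.2 (hN _ _)
    linarith
  calc D ^ 2 ≤ (((H : ℝ) * J) * ∑ q ∈ G, Nf q.1 q.2) ^ 2 := pow_le_pow_left₀ hD hDle 2
    _ = ((H : ℝ) * J) ^ 2 * (∑ q ∈ G, Nf q.1 q.2) ^ 2 := by ring
    _ ≤ ((H : ℝ) * J) ^ 2 * ((G.card : ℝ) * ∑ q ∈ G, (Nf q.1 q.2) ^ 2) := by
        gcongr
        exact sq_sum_le_card_mul_sum_sq
    _ ≤ ((H : ℝ) * J) ^ 2 * ((G.card : ℝ) * M2) := by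
        gcongr
        refine le_trans ?_ h2
        apply Finset.sum_le_sum_of_subset_of_nonneg hGU
        intro q _ _
        positivity

/-- The primes in `(W, x]`. -/
def ps (W x : ℕ) : Finset ℕ := (Icc 1 x).filter (fun p => p.Prime ∧ W < p)

theorem ps_card_ge (W x : ℕ) : (Nat.primeCounting x : ℝ) - W ≤ (ps W x).card := by
  have h1 : Nat.primeCounting x = ((Icc 1 x).filter Nat.Prime).card := by
    rw [← Nat.primesLE_card_eq_primeCounting]
    congr 1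
    ext p
    rw [Nat.mem_primesLE, Finset.mem_filter, Finset.mem_Icc]
    constructor
    · rintro ⟨h1, h2⟩; exact ⟨⟨h2.one_lt.le, h1⟩, h2⟩
    · rintro ⟨h1, h2⟩; exact ⟨h1.2, h2⟩
  have h2 : (Icc 1 x).filter Nat.Prime ⊆ ps W x ∪ Icc 1 W := by
    intro p hp
    have hp' := Finset.mem_filter.mp hp
    rw [Finset.mem_union]
    by_cases h : W < p
    · left; exact Finset.mem_filter.mpr ⟨hp'.1, hp'.2, h⟩
    · right; exact Finset.mem_Icc.mpr ⟨(Finset.mem_Icc.mp hp'.1).1, not_lt.mp h⟩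
  have h3 := (Finset.card_le_card h2).trans (Finset.card_union_le _ _)
  rw [← h1, Nat.card_Icc, Nat.add_sub_cancel] at h3
  have h4 : (Nat.primeCounting x : ℝ) ≤ (ps W x).card + W := by exact_mod_cast h3
  linarith

theorem ps_card_le (W x : ℕ) : ((ps W x).card : ℝ) ≤ Nat.primeCounting x := by
  have h1 : Nat.primeCounting x = ((Icc 1 x).filter Nat.Prime).card := by
    rw [← Nat.primesLE_card_eq_primeCounting]
    congr 1
    ext p
    rw [Nat.mem_primesLE, Finset.mem_filter, Finset.mem_Icc]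
    constructor
    · rintro ⟨h1, h2⟩; exact ⟨⟨h2.one_lt.le, h1⟩, h2⟩
    · rintro ⟨h1, h2⟩; exact ⟨h1.2, h2⟩
  rw [h1]
  have : ps W x ⊆ (Icc 1 x).filter Nat.Prime := by
    intro p hp
    have hp' := Finset.mem_filter.mp hp
    exact Finset.mem_filter.mpr ⟨hp'.1, hp'.2.1⟩
  exact_mod_cast Finset.card_le_card this

theorem ps_unit (W x : ℕ) [NeZero W] : ∀ n ∈ ps W x, IsUnit (n : ZMod W) := by
  intro n hn
  have hn' := (Finset.mem_filter.mp hn).2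
  rw [ZMod.isUnit_iff_coprime]
  rw [Nat.Prime.coprime_iff_not_dvd hn'.1]
  intro hd
  have := Nat.le_of_dvd (Nat.pos_of_ne_zero (NeZero.ne W)) hd
  omega

/-- The constant in front of the prediction. -/
noncomputable def P4 (x : ℕ) : ℝ := (Nat.primeCounting x : ℝ) ^ 4 / (x : ℝ) ^ 3

theorem P4_nonneg (x : ℕ) : 0 ≤ P4 x := by unfold P4; positivity

theorem P4_ge (x : ℕ) (hx : 2 ≤ x) : (1 / 10 : ℝ) ^ 4 * (x / (Real.log x) ^ 4) ≤ P4 x := by
  have h := Pool.Agent.Lib.MP_5d7b92_nt.primeCounting_ge x hx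
  have hx2 : (2 : ℝ) ≤ x := by exact_mod_cast hx
  have hlog : 0 < Real.log x := Real.log_pos (by linarith)
  unfold P4
  have h0 : (0 : ℝ) < x := by linarith
  calc (1 / 10 : ℝ) ^ 4 * (x / (Real.log x) ^ 4)
      = ((1 / 10 : ℝ) * x / Real.log x) ^ 4 / (x : ℝ) ^ 3 := by
        field_simp
    _ ≤ _ := by gcongr

theorem alg_a1 (e : ℝ) (he : 0 < e) (he1 : e ≤ 1 / 32) :
    1 - 6 * e ≤ (1 - e) * (1 - e) ^ 4 - e := by
  nlinarith [mul_pos he he, pow_pos he 3, pow_pos he 4, pow_pos he 5]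

theorem alg_a2 (e p n : ℝ) (he1 : e ≤ 1 / 32) (hp : 0 < p) (h : (1 - e) * p ≤ n) :
    p / 2 ≤ n := by nlinarith

theorem alg_a3 (e T Z : ℝ) (he : 0 < e) (he1 : e ≤ 1 / 32) (hZ : 0 < Z)
    (h : T ≤ (1 + e) * Z) : (1 - 32 * e) * T ≤ (1 - 31 * e) * Z := by
  have h1 : (1 - 32 * e) * T ≤ (1 - 32 * e) * ((1 + e) * Z) :=
    mul_le_mul_of_nonneg_left h (by linarith)
  nlinarith [mul_pos he hZ, mul_pos (mul_pos he he) hZ]

theorem alg_a4 (e Z : ℝ) (he : 0 < e) (hZ : 0 < Z) : (1 - 31 * e) * Z ≤ (1 - 6 * e) * Z := by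
  nlinarith [mul_pos he hZ]

theorem alg_a5 (e Z : ℝ) (he : 0 < e) (hZ : 0 < Z) :
    e * Z + ((1 - 31 * e) * Z + e * Z) ≤ (1 - 6 * e) * Z := by
  nlinarith [mul_pos he hZ]

theorem main_of (hSA : SingularAverage) (S : ℕ → ℕ → ℝ)
    (hS : ∀ a b : ℕ, 0 < a → 0 < b → a ≠ b → Tendsto (Spart a b) atTop (𝓝 (S a b)))
    (hS0 : ∀ a b : ℕ, 0 < a → 0 < b → a ≠ b → 0 ≤ S a b) (ε : ℝ) (hε : 0 < ε) :
    ∃ A c : ℝ, 0 < A ∧ 0 < c ∧ ∃ x0 : ℕ, ∀ x : ℕ, x0 ≤ x → ∀ H J : ℕ,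
      A * Real.log x ≤ H → A * (Real.log x) ^ 2 ≤ J → H ≤ J → (J : ℝ) ≤ c * x →
      ((1 - ε) * P4 x * ∑ a ∈ Ico 1 H, ∑ b ∈ (Ico 1 J).filter (fun b => b ≠ a),
          ((H : ℝ) - a) * ((J : ℝ) - b) * S a b ≤
        ∑ a ∈ Ico 1 H, ∑ b ∈ (Ico 1 J).filter (fun b => b ≠ a),
          ((H : ℝ) - a) * ((J : ℝ) - b) * NN x a b) ∧
      (c * (H * J) ≤ (((Ico 1 H ×ˢ Ico 1 J).filter (fun q => q.1 ≠ q.2 ∧
        ((1 - ε) * S q.1 q.2 + c) * P4 x ≤ NN x q.1 q.2)).card : ℝ)) := by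
  set e : ℝ := min ε 1 / 32 with hedef
  have hmin : 0 < min ε 1 := lt_min hε one_pos
  have he : 0 < e := by positivity
  have he1 : e ≤ 1 / 32 := by
    have := min_le_right ε 1
    rw [hedef]; linarith
  have heε : 32 * e ≤ ε := by
    have := min_le_left ε 1
    rw [hedef]; linarith
  obtain ⟨W, hWne, H0, hav⟩ := hSA e he
  have hav := hav S hS
  obtain ⟨A1, δ, hA1, hδ, hlow⟩ := avg_lower W e he
  obtain ⟨C2, hC2, hdiag⟩ := diag_bound
  obtain ⟨C3, hC3, hsec⟩ := second_moment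
  have hκ := kap_pos W
  set κ := kap W with hκdef
  set c1 : ℝ := (e * κ / (4 * 10 ^ 4)) ^ 2 / C3 with hc1
  have hc1p : 0 < c1 := by positivity
  set c : ℝ := min (min δ c1) (e * κ / 4) with hc
  have hcp : 0 < c := lt_min (lt_min hδ hc1p) (by positivity)
  have hcδ : c ≤ δ := (min_le_left _ _).trans (min_le_left _ _)
  have hcc1 : c ≤ c1 := (min_le_left _ _).trans (min_le_right _ _)
  have hcκ : c ≤ e * κ / 4 := min_le_right _ _
  set A : ℝ := 400 * A1 + 4 * 10 ^ 4 * C2 / (e * κ) + H0 + 1 with hA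
  have hAp : 0 < A := by positivity
  refine ⟨A, c, hAp, hcp, ?_⟩
  -- x0 such that π(x) ≥ W / e, log x ≥ 1
  have htend : Tendsto (fun x : ℕ => (Nat.primeCounting x : ℝ)) atTop atTop :=
    tendsto_natCast_atTop_atTop.comp Nat.tendsto_primeCounting
  obtain ⟨x1, hx1⟩ := (htend.eventually_ge_atTop (W / e + 1)).exists_forall_of_atTop
  refine ⟨max x1 3, ?_⟩
  intro x hx H J hH hJ hHJ hJx
  have hxx1 : x1 ≤ x := (le_max_left _ _).trans hx
  have hx3 : 3 ≤ x := (le_max_right _ _).trans hx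
  have hx2 : 2 ≤ x := by omega
  have hxr : (3 : ℝ) ≤ x := by exact_mod_cast hx3
  have hx0 : (0 : ℝ) < x := by linarith
  have hlog1 : 1 ≤ Real.log x := by
    rw [Real.le_log_iff_exp_le hx0]
    have := Real.exp_one_lt_d9
    linarith
  have hlog : 0 < Real.log x := by linarith
  set L := Real.log x with hL
  have hπ := hx1 x hxx1
  set π : ℝ := (Nat.primeCounting x : ℝ) with hπdef
  have hπpos : 0 < π := by
    have : (0 : ℝ) ≤ W / e := by positivity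
    linarith
  have hπge := Pool.Agent.Lib.MP_5d7b92_nt.primeCounting_ge x hx2
  rw [← hπdef, ← hL] at hπge
  set s := ps W x with hs
  set n : ℝ := (s.card : ℝ) with hn
  have hWπ : (W : ℝ) ≤ e * π := by
    have : W / e ≤ π := by linarith
    rw [div_le_iff₀ he] at this
    linarith
  have hn_ge : (1 - e) * π ≤ n := by
    have := ps_card_ge W x
    rw [← hs, ← hn, ← hπdef] at this
    linarith
  have hn_half : π / 2 ≤ n := alg_a2 e π n he1 hπpos hn_ge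
  have hn20 : (1 / 20 : ℝ) * x / L ≤ n := by
    have : (1 / 20 : ℝ) * x / L = ((1 / 10 : ℝ) * x / L) / 2 := by ring
    rw [this]; linarith
  have hH0 : (H0 : ℝ) ≤ H := by
    have h1 : A ≤ A * L := le_mul_of_one_le_right hAp.le hlog1
    have h2 : (H0 : ℝ) ≤ A := by
      have : 0 ≤ 400 * A1 + 4 * 10 ^ 4 * C2 / (e * κ) + 1 := by positivity
      rw [hA]; linarith
    linarith
  have hH0' : H0 ≤ H := by exact_mod_cast hH0
  have hHr : (0 : ℝ) < H := by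
    have : 0 < A * L := by positivity
    linarith
  have hHJr : (H : ℝ) ≤ J := by exact_mod_cast hHJ
  have hJr : (0 : ℝ) < J := by linarith
  have hJδ : (J : ℝ) ≤ δ * x := hJx.trans (by gcongr)
  have hAH : A1 * x ≤ H * n := by
    have h1 : 20 * A1 ≤ A := by
      have : 0 ≤ 380 * A1 + 4 * 10 ^ 4 * C2 / (e * κ) + H0 + 1 := by positivity
      rw [hA]; linarith
    have h2 : 20 * A1 * L ≤ H := by
      have : 20 * A1 * L ≤ A * L := by gcongr
      linarith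
    calc A1 * x = (20 * A1 * L) * ((1 / 20 : ℝ) * x / L) := by field_simp
      _ ≤ H * n := by gcongr
  have hAJ : A1 * (x : ℝ) ^ 2 ≤ J * n ^ 2 := by
    have h1 : 400 * A1 ≤ A := by
      have : 0 ≤ 4 * 10 ^ 4 * C2 / (e * κ) + H0 + 1 := by positivity
      rw [hA]; linarith
    have h2 : 400 * A1 * L ^ 2 ≤ J := by
      have : 400 * A1 * L ^ 2 ≤ A * L ^ 2 := by gcongr
      linarith
    calc A1 * (x : ℝ) ^ 2 = (400 * A1 * L ^ 2) * ((1 / 20 : ℝ) * x / L) ^ 2 := by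
          field_simp; norm_num
      _ ≤ J * n ^ 2 := by gcongr
  have hsx : s.card ≤ x := by
    have h1 := Finset.card_le_card (Finset.filter_subset (fun p => p.Prime ∧ W < p) (Icc 1 x))
    rw [Nat.card_Icc, Nat.add_sub_cancel] at h1
    exact h1
  have hlow' := hlow s x H J (ps_unit W x)
    (fun m hm => (Finset.mem_Icc.mp (Finset.mem_filter.mp hm).1).2) (by omega)
    (hHJr.trans hJδ) hJδ hAH hAJ hsx
  rw [← hn] at hlow'
  set T1 := ∑ a ∈ Ico 1 H, ∑ b ∈ (Ico 1 J).filter (fun b => b ≠ a),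
          ((H : ℝ) - a) * ((J : ℝ) - b) * (NN x a b : ℝ) with hT1
  set TS := ∑ a ∈ Ico 1 H, ∑ b ∈ (Ico 1 J).filter (fun b => b ≠ a),
          ((H : ℝ) - a) * ((J : ℝ) - b) * S a b with hTS
  have hP4ge := P4_ge x hx2
  rw [← hL] at hP4ge
  have hP4eq : P4 x = π ^ 4 / (x : ℝ) ^ 3 := rfl
  set P := P4 x with hPdef
  have hPpos : 0 < P := by rw [hP4eq]; positivity
  -- Π
  set Z : ℝ := (H : ℝ) ^ 2 / 2 * ((J : ℝ) ^ 2 / 2) * κ * P with hZ
  have hZ0 : 0 < Z := by positivity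
  have hbox0 : ∀ a ∈ Ico 1 H, ∀ b ∈ Ico 1 J, 0 ≤ ((H : ℝ) - a) * ((J : ℝ) - b) := by
    intro a ha b hb
    have h1 : (a : ℝ) ≤ H := by exact_mod_cast (Finset.mem_Ico.mp ha).2.le
    have h2 : (b : ℝ) ≤ J := by exact_mod_cast (Finset.mem_Ico.mp hb).2.le
    exact mul_nonneg (by linarith) (by linarith)
  have hX : (1 - e) * ((1 - e) ^ 4 * Z) ≤
      ∑ a ∈ Ico 1 H, ∑ b ∈ Ico 1 J, ((H : ℝ) - a) * ((J : ℝ) - b) * (NN x a b : ℝ) := by
    have h1 : (1 - e) ^ 4 * Z ≤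
        (H : ℝ) ^ 2 / 2 * ((J : ℝ) ^ 2 / 2) * κ * n ^ 4 / (x : ℝ) ^ 3 := by
      have h2 : ((1 - e) * π) ^ 4 ≤ n ^ 4 :=
        pow_le_pow_left₀ (mul_nonneg (by linarith) hπpos.le) hn_ge 4
      calc (1 - e) ^ 4 * Z = (H : ℝ) ^ 2 / 2 * ((J : ℝ) ^ 2 / 2) * κ * ((1 - e) * π) ^ 4 /
            (x : ℝ) ^ 3 := by
            rw [hZ, hP4eq]; ring
        _ ≤ _ := by gcongr
    have h3 : (1 - e) * ((1 - e) ^ 4 * Z) ≤ (1 - e) *
        ((H : ℝ) ^ 2 / 2 * ((J : ℝ) ^ 2 / 2) * κ * n ^ 4 / (x : ℝ) ^ 3) :=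
      mul_le_mul_of_nonneg_left h1 (by linarith)
    refine h3.trans (hlow'.trans ?_)
    refine Finset.sum_le_sum fun a ha => Finset.sum_le_sum fun b hb => ?_
    refine mul_le_mul_of_nonneg_left ?_ (hbox0 a ha b hb)
    have := quad_le_NN s x a b (fun m hm => by
      have hm' := Finset.mem_filter.mp hm
      exact ⟨hm'.2.1, (Finset.mem_Icc.mp hm'.1).2⟩)
    exact_mod_cast this
  have hsd := split_diag H J hHJ (fun a b => (NN x a b : ℝ)) (fun a b => Nat.cast_nonneg _)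
  have hdg := hdiag x H hx2
  rw [← hL] at hdg
  have hdg2 : ((H : ℝ) * J) * ∑ a ∈ Ico 1 H, (NN x a a : ℝ) ≤ e * Z := by
    have h1 : 4 * 10 ^ 4 * C2 / (e * κ) * L ^ 2 ≤ J := by
      have : 4 * 10 ^ 4 * C2 / (e * κ) ≤ A := by
        have : 0 ≤ 400 * A1 + H0 + 1 := by positivity
        rw [hA]; linarith
      have : 4 * 10 ^ 4 * C2 / (e * κ) * L ^ 2 ≤ A * L ^ 2 := by gcongr
      linarith
    have h2 : C2 * (x / L ^ 2) ≤ e * κ * J / 4 * P := by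
      calc C2 * (x / L ^ 2) = e * κ / 4 * (4 * 10 ^ 4 * C2 / (e * κ) * L ^ 2) *
            ((1 / 10 : ℝ) ^ 4 * (x / L ^ 4)) := by
            field_simp
        _ ≤ e * κ / 4 * J * P := by gcongr
        _ = _ := by ring
    calc ((H : ℝ) * J) * ∑ a ∈ Ico 1 H, (NN x a a : ℝ)
        ≤ ((H : ℝ) * J) * (C2 * H * (x / L ^ 2)) := by gcongr
      _ = ((H : ℝ) ^ 2 * J) * (C2 * (x / L ^ 2)) := by ring
      _ ≤ ((H : ℝ) ^ 2 * J) * (e * κ * J / 4 * P) := by gcongr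
      _ = _ := by rw [hZ]; ring
  have hT1low : (1 - 6 * e) * Z ≤ T1 := by
    have h1 : 1 - 6 * e ≤ (1 - e) * (1 - e) ^ 4 - e := alg_a1 e he he1
    have h2 : (1 - e) * ((1 - e) ^ 4 * Z) ≤ T1 + e * Z := by
      refine hX.trans (hsd.trans ?_)
      linarith
    have h3 : (1 - 6 * e) * Z ≤ ((1 - e) * (1 - e) ^ 4 - e) * Z := by gcongr
    linarith
  have hTS0 : 0 ≤ TS := by
    refine Finset.sum_nonneg fun a ha => Finset.sum_nonneg fun b hb => ?_
    have hb' := Finset.mem_filter.mp hb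
    refine mul_nonneg (hbox0 a ha b hb'.1) (hS0 a b (Finset.mem_Ico.mp ha).1
      (Finset.mem_Ico.mp hb'.1).1 (Ne.symm hb'.2))
  have hTSle : P * TS ≤ (1 + e) * Z := by
    have := hav H J hH0' hHJ
    rw [← hTS] at this
    calc P * TS ≤ P * ((1 + e) * (κ * ((H : ℝ) ^ 2 / 2) * ((J : ℝ) ^ 2 / 2))) := by gcongr
      _ = _ := by rw [hZ]; ring
  have hPTS0 : 0 ≤ P * TS := by positivity
  have h32 : (1 - 32 * e) * (P * TS) ≤ (1 - 31 * e) * Z := alg_a3 e _ Z he he1 hZ0 hTSle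
  constructor
  · have h1 : (1 - ε) * P * TS ≤ (1 - 32 * e) * (P * TS) := by
      rw [mul_assoc]
      exact mul_le_mul_of_nonneg_right (by linarith) hPTS0
    have h2 : (1 - 31 * e) * Z ≤ (1 - 6 * e) * Z := alg_a4 e Z he hZ0
    linarith
  · -- many good pairs
    have hmg := many_good H J (fun a b => (NN x a b : ℝ))
      (fun a b => ((1 - 32 * e) * S a b + c) * P) (fun a b => Nat.cast_nonneg _) ?_
      (e * Z) (C3 * (H * J) * ((x : ℝ) / L ^ 4) ^ 2) (by positivity) ?_ (hsec x H J hx2 hHJ)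
    · -- conclude
      set G' := (Ico 1 H ×ˢ Ico 1 J).filter (fun q => q.1 ≠ q.2 ∧
        ((1 - 32 * e) * S q.1 q.2 + c) * P ≤ (NN x q.1 q.2 : ℝ)) with hG'
      have hsub : G' ⊆ (Ico 1 H ×ˢ Ico 1 J).filter (fun q => q.1 ≠ q.2 ∧
          ((1 - ε) * S q.1 q.2 + c) * P ≤ (NN x q.1 q.2 : ℝ)) := by
        intro q hq
        have hq' := Finset.mem_filter.mp hq
        have hqp := Finset.mem_product.mp hq'.1
        refine Finset.mem_filter.mpr ⟨hq'.1, hq'.2.1, le_trans ?_ hq'.2.2⟩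
        have hSq := hS0 q.1 q.2 (Finset.mem_Ico.mp hqp.1).1 (Finset.mem_Ico.mp hqp.2).1 hq'.2.1
        have : (1 - ε) * S q.1 q.2 ≤ (1 - 32 * e) * S q.1 q.2 :=
          mul_le_mul_of_nonneg_right (by linarith) hSq
        exact mul_le_mul_of_nonneg_right (by linarith) hPpos.le
      have hcard : ((G'.card : ℕ) : ℝ) ≤ (((Ico 1 H ×ˢ Ico 1 J).filter (fun q => q.1 ≠ q.2 ∧
          ((1 - ε) * S q.1 q.2 + c) * P ≤ (NN x q.1 q.2 : ℝ))).card : ℝ) := by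
        exact_mod_cast Finset.card_le_card hsub
      refine le_trans ?_ hcard
      have hHJpos : (0 : ℝ) < (H : ℝ) * J := by positivity
      have hxL : (0 : ℝ) < (x : ℝ) / L ^ 4 := by positivity
      have h1 : (e * κ / (4 * 10 ^ 4)) * ((H : ℝ) * J) ^ 2 * ((x : ℝ) / L ^ 4) ≤ e * Z := by
        calc (e * κ / (4 * 10 ^ 4)) * ((H : ℝ) * J) ^ 2 * ((x : ℝ) / L ^ 4)
            = e * ((H : ℝ) ^ 2 / 2 * ((J : ℝ) ^ 2 / 2) * κ *
              ((1 / 10 : ℝ) ^ 4 * ((x : ℝ) / L ^ 4))) := by ring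
          _ ≤ e * Z := by rw [hZ]; gcongr
      have h2 : ((e * κ / (4 * 10 ^ 4)) * ((H : ℝ) * J) ^ 2 * ((x : ℝ) / L ^ 4)) ^ 2 ≤
          ((H : ℝ) * J) ^ 2 * ((G'.card : ℝ) * (C3 * (H * J) * ((x : ℝ) / L ^ 4) ^ 2)) :=
        (pow_le_pow_left₀ (by positivity) h1 2).trans hmg
      have h3 : c1 * ((H : ℝ) * J) ≤ G'.card := by
        have hK : 0 < ((H : ℝ) * J) ^ 3 * C3 * ((x : ℝ) / L ^ 4) ^ 2 := by positivity
        refine le_of_mul_le_mul_right ?_ hK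
        calc c1 * ((H : ℝ) * J) * (((H : ℝ) * J) ^ 3 * C3 * ((x : ℝ) / L ^ 4) ^ 2)
            = ((e * κ / (4 * 10 ^ 4)) * ((H : ℝ) * J) ^ 2 * ((x : ℝ) / L ^ 4)) ^ 2 := by
              rw [hc1]; field_simp
          _ ≤ _ := h2
          _ = _ := by ring
      calc c * ((H : ℝ) * J) ≤ c1 * ((H : ℝ) * J) := by gcongr
        _ ≤ _ := h3
    · intro a ha b hb
      have hb' := Finset.mem_filter.mp hb
      have hSq := hS0 a b (Finset.mem_Ico.mp ha).1 (Finset.mem_Ico.mp hb'.1).1 (Ne.symm hb'.2)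
      have : 0 ≤ (1 - 32 * e) * S a b := mul_nonneg (by linarith) hSq
      exact mul_nonneg (by linarith) hPpos.le
    · -- the weighted sum inequality
      have hsumT : ∑ a ∈ Ico 1 H, ∑ b ∈ (Ico 1 J).filter (fun b => b ≠ a),
          ((H : ℝ) - a) * ((J : ℝ) - b) * (((1 - 32 * e) * S a b + c) * P) ≤
          (1 - 32 * e) * (P * TS) + c * P * ((H : ℝ) ^ 2 * (J : ℝ) ^ 2) := by
        have e1 : ∑ a ∈ Ico 1 H, ∑ b ∈ (Ico 1 J).filter (fun b => b ≠ a),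
            ((H : ℝ) - a) * ((J : ℝ) - b) * (((1 - 32 * e) * S a b + c) * P) =
            (1 - 32 * e) * (P * TS) + c * P * ∑ a ∈ Ico 1 H,
              ∑ b ∈ (Ico 1 J).filter (fun b => b ≠ a), ((H : ℝ) - a) * ((J : ℝ) - b) := by
          rw [hTS, Finset.mul_sum, Finset.mul_sum, Finset.mul_sum, ← Finset.sum_add_distrib]
          refine Finset.sum_congr rfl fun a _ => ?_
          rw [Finset.mul_sum, Finset.mul_sum, Finset.mul_sum, ← Finset.sum_add_distrib]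
          refine Finset.sum_congr rfl fun b _ => by ring
        rw [e1]
        have e2 : ∑ a ∈ Ico 1 H, ∑ b ∈ (Ico 1 J).filter (fun b => b ≠ a),
            ((H : ℝ) - a) * ((J : ℝ) - b) ≤ (H : ℝ) ^ 2 * (J : ℝ) ^ 2 := by
          have hb : ∀ a ∈ Ico 1 H, ∑ b ∈ (Ico 1 J).filter (fun b => b ≠ a),
              ((H : ℝ) - a) * ((J : ℝ) - b) ≤ J * ((H : ℝ) * J) := by
            intro a ha
            have h1 : ∀ b ∈ (Ico 1 J).filter (fun b => b ≠ a),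
                ((H : ℝ) - a) * ((J : ℝ) - b) ≤ (H : ℝ) * J := by
              intro b hb
              have hb' := Finset.mem_Ico.mp (Finset.mem_filter.mp hb).1
              have f1 : (a : ℝ) ≤ H := by exact_mod_cast (Finset.mem_Ico.mp ha).2.le
              have f2 : (b : ℝ) ≤ J := by exact_mod_cast hb'.2.le
              have f3 : (0 : ℝ) ≤ a := Nat.cast_nonneg _
              have f4 : (0 : ℝ) ≤ b := Nat.cast_nonneg _
              exact mul_le_mul (by linarith) (by linarith) (by linarith) hHr.le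
            have h2 := Finset.sum_le_card_nsmul _ _ _ h1
            rw [nsmul_eq_mul] at h2
            refine h2.trans ?_
            have h3 : ((((Ico 1 J).filter (fun b => b ≠ a)).card : ℕ) : ℝ) ≤ J := by
              have := (Finset.card_filter_le (Ico 1 J) (fun b => b ≠ a))
              rw [Nat.card_Ico] at this
              exact_mod_cast this.trans (Nat.sub_le _ _)
            gcongr
          have h2 := Finset.sum_le_card_nsmul _ _ _ hb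
          rw [nsmul_eq_mul] at h2
          refine h2.trans ?_
          have h3 : (((Ico 1 H).card : ℕ) : ℝ) ≤ H := by
            rw [Nat.card_Ico]; exact_mod_cast Nat.sub_le _ _
          calc (((Ico 1 H).card : ℕ) : ℝ) * (J * ((H : ℝ) * J)) ≤ H * (J * ((H : ℝ) * J)) := by
                gcongr
            _ = _ := by ring
        have : 0 ≤ c * P := by positivity
        gcongr
      have hcZ : c * P * ((H : ℝ) ^ 2 * (J : ℝ) ^ 2) ≤ e * Z := by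
        calc c * P * ((H : ℝ) ^ 2 * (J : ℝ) ^ 2)
            ≤ (e * κ / 4) * P * ((H : ℝ) ^ 2 * (J : ℝ) ^ 2) := by gcongr
          _ = _ := by rw [hZ]; ring
      have : e * Z + ((1 - 31 * e) * Z + e * Z) ≤ (1 - 6 * e) * Z := alg_a5 e Z he hZ0
      linarith

end Pool.Agent.Lib.MP_092512_nt
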