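import Pool.Agent.Lib.MP_092512_nt.KSets
import Pool.Agent.Lib.MP_092512_nt.Second
import Pool.Agent.Lib.MP_5d7b92_nt.Count

/-!
# Prime `k`-tuples with shape in a window of logarithmic length: lower bound for a positive
proportion of the shapes
-/

open Finset Filter Topology

namespace Pool.Agent.Lib.MP_092512_nt.KSets

open Pool.Agent.Lib.MP_092512_nt

/-- number of `n ≤ x` with all `n + d` prime -/
def NK (x : ℕ) (D : Finset ℕ) : ℕ := ((Icc 1 x).filter (fun n => ∀ d ∈ D, (n + d).Prime)).card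

lemma gg_eq_G (n : ℕ) (hn : n ≠ 0) : gg n = G 0 n := gg_eq_prod n hn

lemma gg_prod_le {ι : Type*} (s : Finset ι) (f : ι → ℕ) (h : ∀ i ∈ s, 0 < f i) :
    gg (∏ i ∈ s, f i) ≤ ∏ i ∈ s, gg (f i) := by
  classical
  induction s using Finset.induction_on with
  | empty => simp [gg]
  | insert a s ha ih =>
    rw [prod_insert ha, prod_insert ha]
    have h1 := h a (mem_insert_self _ _)
    have h2 : ∀ i ∈ s, 0 < f i := fun i hi => h i (mem_insert_of_mem hi)
    have h3 : 0 < ∏ i ∈ s, f i := prod_pos h2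
    refine (gg_mul_le _ _ h1 h3).trans ?_
    exact mul_le_mul_of_nonneg_left (ih h2) (gg_nonneg _)

/-- Sieve upper bound for a single shape. -/
theorem NK_le (k : ℕ) (hk : 1 ≤ k) : ∃ C : ℝ, 0 < C ∧ ∀ x : ℕ, 2 ≤ x → ∀ D : Finset ℕ,
    D.card = k → (NK x D : ℝ) ≤ C * T 0 D * x / (Real.log x) ^ k := by
  obtain ⟨C, hC, h⟩ := Pool.Agent.Lib.Sieve.tuple_sieve k hk
  have hfac : 0 < gg k.factorial := by
    unfold gg
    have h1 : (0:ℝ) < k.factorial := by exact_mod_cast Nat.factorial_pos k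
    have h2 : (0:ℝ) < Nat.totient k.factorial := by
      exact_mod_cast Nat.totient_pos.mpr (Nat.factorial_pos k)
    positivity
  refine ⟨C * (gg k.factorial) ^ k, by positivity, ?_⟩
  intro x hx D hD
  set e := D.orderEmbOfFin hD with he
  set M := k.factorial * ∏ q ∈ pairs D, (q.2 - q.1) with hM
  have hpos : ∀ q ∈ pairs D, 0 < q.2 - q.1 := by
    intro q hq
    have := (mem_filter.mp hq).2
    omega
  have hM0 : M ≠ 0 := by
    apply mul_ne_zero (Nat.factorial_ne_zero k)
    exact prod_ne_zero_iff.mpr (fun q hq => (hpos q hq).ne')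
  have hmain := h x (fun i => e i) M hx hM0 ?_ ?_
  · have e1 : (Icc 1 x).filter (fun n => ∀ i : Fin k, (n + e i).Prime) =
        (Icc 1 x).filter (fun n => ∀ d ∈ D, (n + d).Prime) := by
      apply filter_congr
      intro n _
      constructor
      · intro h1 d hd
        have : d ∈ Set.range e := by
          rw [he, D.range_orderEmbOfFin hD]; exact hd
        obtain ⟨i, rfl⟩ := this
        exact h1 i
      · intro h1 i
        exact h1 _ (D.orderEmbOfFin_mem hD i)
    rw [e1] at hmain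
    have hx2 : (2 : ℝ) ≤ x := by exact_mod_cast hx
    have hlog : 0 < Real.log x := Real.log_pos (by linarith)
    have hg : (M : ℝ) / (Nat.totient M : ℝ) ≤
        gg k.factorial * ∏ q ∈ pairs D, G 0 (q.2 - q.1) := by
      calc (M : ℝ) / (Nat.totient M : ℝ) = gg M := rfl
        _ ≤ gg k.factorial * gg (∏ q ∈ pairs D, (q.2 - q.1)) :=
            gg_mul_le _ _ (Nat.factorial_pos k) (prod_pos hpos)
        _ ≤ gg k.factorial * ∏ q ∈ pairs D, gg (q.2 - q.1) := by
            apply mul_le_mul_of_nonneg_left _ (gg_nonneg _)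
            exact gg_prod_le _ _ hpos
        _ = _ := by
            congr 1
            apply prod_congr rfl
            intro q hq
            exact gg_eq_G _ (hpos q hq).ne'
    have h0 : 0 ≤ (M : ℝ) / (Nat.totient M : ℝ) := by positivity
    have hT : (∏ q ∈ pairs D, G 0 (q.2 - q.1)) ^ k = T 0 D := by
      unfold T
      rw [← prod_pow, hD]
    calc (NK x D : ℝ) ≤ C * ((M : ℝ) / (Nat.totient M : ℝ)) ^ k * x / (Real.log x) ^ k := hmain
      _ ≤ C * (gg k.factorial * ∏ q ∈ pairs D, G 0 (q.2 - q.1)) ^ k * x / (Real.log x) ^ k := by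
          gcongr
      _ = _ := by rw [mul_pow, hT]; ring
  · intro p hp hpk
    exact Dvd.dvd.mul_right (Nat.dvd_factorial hp.pos hpk) _
  · have key : ∀ i j : Fin k, i < j → ∀ p : ℕ, p.Prime →
        ((e i : ℕ) : ZMod p) = ((e j : ℕ) : ZMod p) → p ∣ M := by
      intro i j hij p hp heq
      have hlt : e i < e j := e.lt_iff_lt.mpr hij
      have hq : (e i, e j) ∈ pairs D := mem_filter.mpr
        ⟨mem_product.mpr ⟨D.orderEmbOfFin_mem hD i, D.orderEmbOfFin_mem hD j⟩, hlt⟩
      have h1 : p ∣ e j - e i :=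
        (Nat.modEq_iff_dvd' hlt.le).mp ((ZMod.natCast_eq_natCast_iff _ _ _).mp heq)
      have h2 : (e j - e i) ∣ ∏ q ∈ pairs D, (q.2 - q.1) :=
        dvd_prod_of_mem (fun q : ℕ × ℕ => q.2 - q.1) hq
      exact Dvd.dvd.mul_left (h1.trans h2) _
    intro i j hij p hp heq
    rcases lt_or_gt_of_ne hij with h1 | h1
    · exact key i j h1 p hp heq
    · exact key j i h1 p hp heq.symm

/-- Second moment over the shapes. -/
theorem sum_NK_sq_le (k : ℕ) (hk : 1 ≤ k) : ∃ C : ℝ, 0 < C ∧ ∀ x : ℕ, 2 ≤ x → ∀ H : ℕ,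
    ∑ D ∈ powersetCard k (Icc 1 H), (NK x D : ℝ) ^ 2 ≤
      C * (H : ℝ) ^ k * ((x : ℝ) / (Real.log x) ^ k) ^ 2 := by
  obtain ⟨C, hC, h⟩ := NK_le k hk
  have he := eta_nonneg k 2 0
  refine ⟨C ^ 2 * (1 + eta k 2 0), by positivity, ?_⟩
  intro x hx H
  have hx2 : (2 : ℝ) ≤ x := by exact_mod_cast hx
  have hlog : 0 < Real.log x := Real.log_pos (by linarith)
  calc ∑ D ∈ powersetCard k (Icc 1 H), (NK x D : ℝ) ^ 2
      ≤ ∑ D ∈ powersetCard k (Icc 1 H), C ^ 2 * ((x : ℝ) / (Real.log x) ^ k) ^ 2 * (T 0 D) ^ 2 := by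
        apply sum_le_sum
        intro D hD
        have h1 := h x hx D (mem_powersetCard.mp hD).2
        calc (NK x D : ℝ) ^ 2 ≤ (C * T 0 D * x / (Real.log x) ^ k) ^ 2 :=
              pow_le_pow_left₀ (Nat.cast_nonneg _) h1 2
          _ = _ := by ring
    _ = C ^ 2 * ((x : ℝ) / (Real.log x) ^ k) ^ 2 * ∑ D ∈ powersetCard k (Icc 1 H), (T 0 D) ^ 2 := by
        rw [mul_sum]
    _ ≤ C ^ 2 * ((x : ℝ) / (Real.log x) ^ k) ^ 2 * ((1 + eta k 2 0) * (H : ℝ) ^ k) := by
        have := sum_T_pow_le k 2 0 H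
        gcongr
    _ = _ := by ring

/-! ### The lower bound from windows -/

/-- the primes up to `x` -/
def pr (x : ℕ) : Finset ℕ := (Icc 1 x).filter Nat.Prime

/-- number of `1 ≤ n ≤ x` with all `n + d` primes `≤ x` -/
def NW (x : ℕ) (D : Finset ℕ) : ℕ := ((Icc 1 x).filter (fun n => ∀ d ∈ D, n + d ∈ pr x)).card

lemma NW_le_NK (x : ℕ) (D : Finset ℕ) : NW x D ≤ NK x D := by
  unfold NW NK
  apply card_le_card
  intro n hn
  rw [mem_filter] at hn ⊢
  exact ⟨hn.1, fun d hd => (mem_filter.mp (hn.2 d hd)).2⟩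

/-- number of elements of `s` in the window `(n, n + H]` -/
def win (s : Finset ℕ) (H n : ℕ) : ℕ := ((Icc 1 H).filter (fun d => n + d ∈ s)).card

lemma sum_NW_eq (k x H : ℕ) :
    ∑ D ∈ powersetCard k (Icc 1 H), NW x D = ∑ n ∈ Icc 1 x, (win (pr x) H n).choose k := by
  classical
  have h1 : ∀ D ∈ powersetCard k (Icc 1 H), NW x D =
      ∑ n ∈ Icc 1 x, if ∀ d ∈ D, n + d ∈ pr x then 1 else 0 := by
    intro D _
    unfold NW
    rw [card_filter]
  rw [sum_congr rfl h1, sum_comm]
  apply sum_congr rfl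
  intro n _
  rw [← card_filter]
  unfold win
  rw [← card_powersetCard]
  congr 1
  ext D
  rw [mem_filter, mem_powersetCard, mem_powersetCard]
  constructor
  · rintro ⟨⟨h1, h2⟩, h3⟩
    exact ⟨fun d hd => mem_filter.mpr ⟨h1 hd, h3 d hd⟩, h2⟩
  · rintro ⟨h1, h2⟩
    exact ⟨⟨fun d hd => (mem_filter.mp (h1 hd)).1, h2⟩, fun d hd => (mem_filter.mp (h1 hd)).2⟩

lemma pr_card (x : ℕ) : (pr x).card = Nat.primeCounting x := by
  rw [← Nat.primesLE_card_eq_primeCounting]
  congr 1
  ext p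
  unfold pr
  rw [Nat.mem_primesLE, Finset.mem_filter, Finset.mem_Icc]
  constructor
  · rintro ⟨h1, h2⟩; exact ⟨h1.2, h2⟩
  · rintro ⟨h1, h2⟩; exact ⟨⟨h2.one_lt.le, h1⟩, h2⟩

lemma sum_win_ge (x H : ℕ) :
    H * (Nat.primeCounting x - Nat.primeCounting H) ≤ ∑ n ∈ Icc 1 x, win (pr x) H n := by
  classical
  have h1 : ∑ n ∈ Icc 1 x, win (pr x) H n =
      ∑ d ∈ Icc 1 H, ((Icc 1 x).filter (fun n => n + d ∈ pr x)).card := by
    unfold win
    simp_rw [card_filter]
    rw [sum_comm]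
  rw [h1]
  have h2 : ∀ d ∈ Icc 1 H, Nat.primeCounting x - Nat.primeCounting H ≤
      ((Icc 1 x).filter (fun n => n + d ∈ pr x)).card := by
    intro d hd
    rw [mem_Icc] at hd
    have h3 : ((pr x) \ (pr H)).card ≤ ((Icc 1 x).filter (fun n => n + d ∈ pr x)).card := by
      apply card_le_card_of_injOn (fun p => p - d)
      · intro p hp
        rw [mem_coe, Finset.mem_sdiff] at hp
        have hp1 := mem_filter.mp hp.1
        have hp2 := mem_Icc.mp hp1.1
        have hpH : H < p := by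
          by_contra hcon
          exact hp.2 (mem_filter.mpr ⟨mem_Icc.mpr ⟨hp2.1, by omega⟩, hp1.2⟩)
        rw [mem_coe, mem_filter, mem_Icc]
        change (1 ≤ p - d ∧ p - d ≤ x) ∧ p - d + d ∈ pr x
        refine ⟨⟨by omega, by omega⟩, ?_⟩
        have : p - d + d = p := by omega
        rw [this]
        exact hp.1
      · intro p hp q hq hpq
        rw [mem_coe, Finset.mem_sdiff] at hp hq
        have hpH : H < p := by
          have hp1 := mem_filter.mp hp.1
          have hp2 := mem_Icc.mp hp1.1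
          by_contra hcon
          exact hp.2 (mem_filter.mpr ⟨mem_Icc.mpr ⟨hp2.1, by omega⟩, hp1.2⟩)
        have hqH : H < q := by
          have hp1 := mem_filter.mp hq.1
          have hp2 := mem_Icc.mp hp1.1
          by_contra hcon
          exact hq.2 (mem_filter.mpr ⟨mem_Icc.mpr ⟨hp2.1, by omega⟩, hp1.2⟩)
        simp only at hpq
        omega
    have h4 := le_card_sdiff (pr H) (pr x)
    rw [pr_card, pr_card] at h4
    exact h4.trans h3
  calc H * (Nat.primeCounting x - Nat.primeCounting H)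
      = ∑ d ∈ Icc 1 H, (Nat.primeCounting x - Nat.primeCounting H) := by
        rw [sum_const, Nat.card_Icc, Nat.add_sub_cancel, smul_eq_mul]
    _ ≤ _ := sum_le_sum h2

/-- `n ^ k ≤ (1 + η) (n)_k + W` for all `n`. -/
lemma pow_le_descFactorial (k : ℕ) (η : ℝ) (hη : 0 < η) : ∃ W : ℝ, 0 ≤ W ∧ ∀ n : ℕ,
    (n : ℝ) ^ k ≤ (1 + η) * (n.descFactorial k : ℝ) + W := by
  have h1 : Tendsto (fun n : ℕ => (((n : ℝ) + k) / (n + 1)) ^ k) atTop (𝓝 1) := by
    have h2 : Tendsto (fun n : ℕ => 1 + ((k : ℝ) - 1) / ((n:ℝ) + 1)) atTop (𝓝 (1 + 0)) := by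
      apply Tendsto.const_add
      exact Tendsto.div_atTop tendsto_const_nhds
        (tendsto_atTop_add_const_right _ _ tendsto_natCast_atTop_atTop)
    have h3 := h2.pow k
    rw [add_zero, one_pow] at h3
    refine h3.congr (fun n => ?_)
    congr 1
    have : (0:ℝ) < (n:ℝ) + 1 := by positivity
    field_simp
    ring
  obtain ⟨N, hN⟩ := (h1.eventually_lt_const (show (1:ℝ) < 1 + η by linarith)).exists_forall_of_atTop
  refine ⟨((N + k : ℕ) : ℝ) ^ k, by positivity, fun n => ?_⟩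
  by_cases h : N + k ≤ n
  · obtain ⟨m, rfl⟩ := Nat.exists_eq_add_of_le' (show k ≤ n by omega)
    have hm : N ≤ m := by omega
    have h2 := hN m hm
    have h3 : ((m:ℝ) + 1) ^ k ≤ ((m + k).descFactorial k : ℝ) := by
      have := Nat.pow_sub_le_descFactorial (m + k) k
      have e : m + k + 1 - k = m + 1 := by omega
      rw [e] at this
      exact_mod_cast this
    have h4 : (((m + k : ℕ) : ℝ)) ^ k ≤ (1 + η) * ((m + k).descFactorial k : ℝ) := by
      rw [div_pow, div_lt_iff₀ (by positivity)] at h2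
      push_cast
      have : (1 + η) * ((m:ℝ) + 1) ^ k ≤ (1 + η) * ((m + k).descFactorial k : ℝ) := by gcongr
      linarith
    have : (0:ℝ) ≤ ((N + k : ℕ) : ℝ) ^ k := by positivity
    linarith
  · have h2 : (n : ℝ) ^ k ≤ ((N + k : ℕ) : ℝ) ^ k := by
      gcongr
      omega
    have h3 : 0 ≤ (1 + η) * (n.descFactorial k : ℝ) := by positivity
    linarith

/-- The lower bound for the sum over all shapes, general form. -/
theorem sum_NW_ge (k : ℕ) (hk : 1 ≤ k) (η : ℝ) (hη : 0 < η) : ∃ W : ℝ, 0 ≤ W ∧ ∀ x H : ℕ,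
    1 ≤ x → Nat.primeCounting H ≤ Nat.primeCounting x →
    ((H : ℝ) * (Nat.primeCounting x - Nat.primeCounting H)) ^ k / (x : ℝ) ^ (k - 1) ≤
      (1 + η) * (k.factorial * ∑ D ∈ powersetCard k (Icc 1 H), (NW x D : ℝ)) + W * x := by
  obtain ⟨W, hW, h⟩ := pow_le_descFactorial k η hη
  refine ⟨W, hW, fun x H hx hH => ?_⟩
  have h1 := sum_win_ge x H
  have h1' : (H : ℝ) * (Nat.primeCounting x - Nat.primeCounting H) ≤
      ∑ n ∈ Icc 1 x, (win (pr x) H n : ℝ) := by
    have : ((H * (Nat.primeCounting x - Nat.primeCounting H) : ℕ) : ℝ) ≤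
        ((∑ n ∈ Icc 1 x, win (pr x) H n : ℕ) : ℝ) := by exact_mod_cast h1
    rw [Nat.cast_mul, Nat.cast_sub hH] at this
    push_cast at this
    exact this
  have h0 : 0 ≤ (H : ℝ) * (Nat.primeCounting x - Nat.primeCounting H) := by
    apply mul_nonneg (Nat.cast_nonneg _)
    rw [sub_nonneg]
    exact_mod_cast hH
  obtain ⟨j, rfl⟩ := Nat.exists_eq_add_of_le' hk
  have h2 := pow_sum_div_card_le_sum_pow (s := Icc 1 x) (f := fun n => (win (pr x) H n : ℝ))
    (fun n _ => Nat.cast_nonneg _) j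
  rw [Nat.card_Icc, Nat.add_sub_cancel] at h2
  rw [Nat.add_sub_cancel]
  calc ((H : ℝ) * (Nat.primeCounting x - Nat.primeCounting H)) ^ (j + 1) / (x : ℝ) ^ j
      ≤ (∑ n ∈ Icc 1 x, (win (pr x) H n : ℝ)) ^ (j + 1) / (x : ℝ) ^ j := by gcongr
    _ ≤ ∑ n ∈ Icc 1 x, (win (pr x) H n : ℝ) ^ (j + 1) := h2
    _ ≤ ∑ n ∈ Icc 1 x, ((1 + η) * ((win (pr x) H n).descFactorial (j + 1) : ℝ) + W) :=
        sum_le_sum fun n _ => h _
    _ = (1 + η) * ((j + 1).factorial * ∑ D ∈ powersetCard (j + 1) (Icc 1 H), (NW x D : ℝ)) +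
        W * x := by
        rw [sum_add_distrib, sum_const, Nat.card_Icc, Nat.add_sub_cancel, nsmul_eq_mul,
          ← mul_sum]
        have e : ∑ n ∈ Icc 1 x, ((win (pr x) H n).descFactorial (j + 1) : ℝ) =
            (j + 1).factorial * ∑ D ∈ powersetCard (j + 1) (Icc 1 H), (NW x D : ℝ) := by
          have h3 := sum_NW_eq (j + 1) x H
          have h4 : ((∑ D ∈ powersetCard (j + 1) (Icc 1 H), NW x D : ℕ) : ℝ) =
              ((∑ n ∈ Icc 1 x, (win (pr x) H n).choose (j + 1) : ℕ) : ℝ) := by rw [h3]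
          push_cast at h4
          rw [h4, mul_sum]
          apply sum_congr rfl
          intro n _
          rw [Nat.descFactorial_eq_factorial_mul_choose]
          push_cast
          ring
        rw [e]
        ring

/-- `π(H)` is small compared with `π(x)` when `H` is small compared with `x`. -/
lemma pi_small (e : ℝ) (he : 0 < e) : ∃ c : ℝ, 0 < c ∧ ∃ x1 : ℕ, ∀ x : ℕ, x1 ≤ x → ∀ H : ℕ,
    (H : ℝ) ≤ c * x → (Nat.primeCounting H : ℝ) ≤ e * Nat.primeCounting x := by
  have h1 := (isLittleO_log_rpow_atTop (show (0:ℝ) < 1 / 2 by norm_num)).def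
    (show (0:ℝ) < e / 10 by positivity)
  have h2 := tendsto_natCast_atTop_atTop (R := ℝ) |>.eventually h1
  obtain ⟨x1, hx1⟩ := (h2.and (eventually_ge_atTop 4)).exists_forall_of_atTop
  refine ⟨e / 100, by positivity, x1, fun x hx H hH => ?_⟩
  obtain ⟨h3, h4⟩ := hx1 x hx
  have hx4 : (4:ℝ) ≤ x := by exact_mod_cast h4
  have hx0 : (0:ℝ) < x := by linarith
  have hlog : 0 < Real.log x := Real.log_pos (by linarith)
  have hge := Pool.Agent.Lib.MP_5d7b92_nt.primeCounting_ge x (by omega)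
  have h5 : e * ((1 / 10 : ℝ) * x / Real.log x) ≤ e * Nat.primeCounting x :=
    mul_le_mul_of_nonneg_left hge he.le
  refine le_trans ?_ h5
  rw [← Real.sqrt_eq_rpow, Real.norm_of_nonneg hlog.le, Real.norm_of_nonneg (Real.sqrt_nonneg _)]
    at h3
  by_cases hc : H * H ≤ x
  · -- H ≤ √x
    have h6 : (H:ℝ) ≤ √(x:ℝ) := by
      apply Real.le_sqrt_of_sq_le
      have : ((H * H : ℕ) : ℝ) ≤ x := by exact_mod_cast hc
      push_cast at this
      nlinarith
    have h7 : (Nat.primeCounting H : ℝ) ≤ H := by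
      rw [← pr_card]
      have := card_filter_le (Icc 1 H) Nat.Prime
      rw [Nat.card_Icc, Nat.add_sub_cancel] at this
      exact_mod_cast this
    refine h7.trans (h6.trans ?_)
    have h8 : √(x:ℝ) * √(x:ℝ) = x := Real.mul_self_sqrt hx0.le
    have h9 : 0 < √(x:ℝ) := Real.sqrt_pos.mpr hx0
    have e1 : e * ((1 / 10 : ℝ) * x / Real.log x) = (e / 10 * √(x:ℝ)) * √(x:ℝ) / Real.log x := by
      rw [mul_assoc, h8]; ring
    rw [e1, le_div_iff₀ hlog]
    nlinarith
  · push Not at hc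
    have hH2 : 2 ≤ H := by
      by_contra hcon
      have : H ≤ 1 := by omega
      have : H * H ≤ 1 := by nlinarith
      omega
    have hH2r : (2:ℝ) ≤ H := by exact_mod_cast hH2
    have hle := Pool.Agent.Lib.MP_5d7b92_nt.primeCounting_le H hH2
    have hlogH : Real.log x ≤ 2 * Real.log H := by
      have h6 : (x:ℝ) ≤ (H:ℝ) ^ 2 := by
        have : (x:ℝ) ≤ ((H * H : ℕ) : ℝ) := by exact_mod_cast hc.le
        push_cast at this
        nlinarith
      have h7 := Real.log_le_log hx0 h6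
      rw [Real.log_pow] at h7
      exact_mod_cast h7
    have hlH : 0 < Real.log H := Real.log_pos (by linarith)
    refine hle.trans ?_
    have h8 : 5 * (H:ℝ) / Real.log H ≤ 10 * H / Real.log x := by
      rw [div_le_div_iff₀ hlH hlog]
      nlinarith
    refine h8.trans ?_
    have h9 : e * ((1 / 10 : ℝ) * x / Real.log x) = 10 * (e / 100 * x) / Real.log x := by ring
    rw [h9]
    gcongr

/-- The prediction constant. -/
noncomputable def PK (k x : ℕ) : ℝ := (Nat.primeCounting x : ℝ) ^ k / (x : ℝ) ^ (k - 1)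

lemma PK_nonneg (k x : ℕ) : 0 ≤ PK k x := by unfold PK; positivity

lemma PK_ge (k : ℕ) (hk : 1 ≤ k) (x : ℕ) (hx : 2 ≤ x) :
    (1 / 10 : ℝ) ^ k * (x / (Real.log x) ^ k) ≤ PK k x := by
  have h := Pool.Agent.Lib.MP_5d7b92_nt.primeCounting_ge x hx
  have hx2 : (2 : ℝ) ≤ x := by exact_mod_cast hx
  have hlog : 0 < Real.log x := Real.log_pos (by linarith)
  unfold PK
  obtain ⟨j, rfl⟩ := Nat.exists_eq_add_of_le' hk
  rw [Nat.add_sub_cancel]
  have h0 : (0 : ℝ) < x := by linarith
  calc (1 / 10 : ℝ) ^ (j + 1) * (x / (Real.log x) ^ (j + 1))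
      = ((1 / 10 : ℝ) * x / Real.log x) ^ (j + 1) / (x : ℝ) ^ j := by
        have e1 : ((1 / 10 : ℝ) * x / Real.log x) ^ (j + 1) =
            (1 / 10 : ℝ) ^ (j + 1) * (x : ℝ) ^ (j + 1) / (Real.log x) ^ (j + 1) := by
          rw [div_pow ((1 / 10 : ℝ) * x), mul_pow]
        rw [e1, pow_succ (x:ℝ) j]
        field_simp
    _ ≤ _ := by gcongr

lemma alg1 (k e T Z : ℝ) (hk : 0 ≤ k) (he : 0 < e) (hT : 0 ≤ Z)
    (h : (1 - k * e) * Z ≤ (1 + e) * T + e * Z) : (1 - (k + 2) * e) * Z ≤ T := by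
  have h1 : (1 - (k + 2) * e) * Z * (1 + e) ≤ (1 - k * e - e) * Z := by
    have : (1 - k * e - e) * Z - (1 - (k + 2) * e) * Z * (1 + e) = (k + 2) * e ^ 2 * Z := by ring
    have h2 : 0 ≤ (k + 2) * e ^ 2 * Z := by positivity
    linarith
  have h3 : (1 - (k + 2) * e) * Z * (1 + e) ≤ T * (1 + e) := by linarith
  exact le_of_mul_le_mul_right h3 (by linarith)

/-- Main theorem for subsets of `[1, H]`. -/
theorem main_subsets (S : Finset ℕ → ℝ) (hS : ∀ D, Tendsto (Sp D) atTop (𝓝 (S D))) (k : ℕ)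
    (hk : 1 ≤ k) (ε : ℝ) (hε : 0 < ε) :
    ∃ A c : ℝ, 0 < A ∧ 0 < c ∧ ∃ x0 : ℕ, ∀ x : ℕ, x0 ≤ x → ∀ H : ℕ,
      A * Real.log x ≤ H → (H : ℝ) ≤ c * x →
      ((1 - ε) * PK k x * ∑ D ∈ powersetCard k (Icc 1 H), S D ≤
        ∑ D ∈ powersetCard k (Icc 1 H), (NW x D : ℝ)) ∧
      (c * (H : ℝ) ^ k ≤ (((powersetCard k (Icc 1 H)).filter
        (fun D => ((1 - ε) * S D + c) * PK k x ≤ NW x D)).card : ℝ)) := by
  classical
  have hS0 : ∀ D, 0 ≤ S D := fun D => lim_nonneg (hS D)
  have hk0 : (0:ℝ) < (k.factorial : ℝ) := by exact_mod_cast Nat.factorial_pos k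
  have hkr : (1:ℝ) ≤ k := by exact_mod_cast hk
  set E : ℝ := min ε 1 with hE
  have hEp : 0 < E := lt_min hε one_pos
  have hE1 : E ≤ 1 := min_le_right _ _
  have hEε : E ≤ ε := min_le_left _ _
  set e : ℝ := E / (4 * (k + 2)) with he
  have hep : 0 < e := by positivity
  have he4 : (k + 2) * e = E / 4 := by rw [he]; field_simp
  have he1 : e ≤ 1 := by
    have : e ≤ (k + 2) * e := by nlinarith
    linarith
  obtain ⟨H0, hav⟩ := sum_S_le S hS k (E / 4) (by positivity)
  obtain ⟨c2, hc2, x1, hpi⟩ := pi_small e hep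
  obtain ⟨W, hW, hlow⟩ := sum_NW_ge k hk e hep
  obtain ⟨C3, hC3, hsec⟩ := sum_NK_sq_le k hk
  set c1 : ℝ := (E / (4 * k.factorial * 10 ^ k)) ^ 2 / C3 with hc1
  have hc1p : 0 < c1 := by positivity
  set c : ℝ := min (min c2 c1) (E / 4) with hc
  have hcp : 0 < c := lt_min (lt_min hc2 hc1p) (by positivity)
  have hcc2 : c ≤ c2 := (min_le_left _ _).trans (min_le_left _ _)
  have hcc1 : c ≤ c1 := (min_le_left _ _).trans (min_le_right _ _)
  have hcE : c ≤ E / 4 := min_le_right _ _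
  set A : ℝ := 10 * (W / e + 1) + H0 with hA
  have hAp : 0 < A := by positivity
  refine ⟨A, c, hAp, hcp, max x1 3, ?_⟩
  intro x hx H hH hHx
  have hxx1 : x1 ≤ x := (le_max_left _ _).trans hx
  have hx3 : 3 ≤ x := (le_max_right _ _).trans hx
  have hx2 : 2 ≤ x := by omega
  have hxr : (3 : ℝ) ≤ x := by exact_mod_cast hx3
  have hx0 : (0 : ℝ) < x := by linarith
  have hlog1 : 1 ≤ Real.log x := by
    rw [Real.le_log_iff_exp_le hx0]
    have := Real.exp_one_lt_d9
    linarith
  have hlog : 0 < Real.log x := by linarith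
  set L := Real.log x with hL
  set π : ℝ := (Nat.primeCounting x : ℝ) with hπdef
  have hπge := Pool.Agent.Lib.MP_5d7b92_nt.primeCounting_ge x hx2
  rw [← hπdef, ← hL] at hπge
  have hπpos : 0 < π := lt_of_lt_of_le (by positivity) hπge
  have hAL : A ≤ H := by
    have : A ≤ A * L := le_mul_of_one_le_right hAp.le hlog1
    linarith
  have hHr : (0 : ℝ) < H := by linarith
  have hH0 : H0 ≤ H := by
    have h1 : (H0 : ℝ) ≤ A := by
      have : 0 ≤ 10 * (W / e + 1) := by positivity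
      rw [hA]; linarith
    have : (H0 : ℝ) ≤ H := h1.trans hAL
    exact_mod_cast this
  have hpiH : (Nat.primeCounting H : ℝ) ≤ e * π :=
    hpi x hxx1 H (hHx.trans (by gcongr))
  have hpile : Nat.primeCounting H ≤ Nat.primeCounting x := by
    have : (Nat.primeCounting H : ℝ) ≤ Nat.primeCounting x := by
      have : e * π ≤ 1 * π := by gcongr
      rw [← hπdef]; linarith
    exact_mod_cast this
  have hlow' := hlow x H (by omega) hpile
  set T1 := ∑ D ∈ powersetCard k (Icc 1 H), (NW x D : ℝ) with hT1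
  set TS := ∑ D ∈ powersetCard k (Icc 1 H), S D with hTS
  set P := PK k x with hP
  have hPge := PK_ge k hk x hx2
  rw [← hP, ← hL] at hPge
  have hPpos : 0 < P := lt_of_lt_of_le (by positivity) hPge
  have hPeq : P = π ^ k / (x : ℝ) ^ (k - 1) := rfl
  set Z : ℝ := (H : ℝ) ^ k / k.factorial * P with hZ
  have hZpos : 0 < Z := by positivity
  -- lower bound for T1
  have hT1low : (1 - E / 4) * Z ≤ T1 := by
    have a1 : (1 - k * e) * ((H : ℝ) ^ k * P) ≤
        ((H : ℝ) * (Nat.primeCounting x - Nat.primeCounting H)) ^ k / (x : ℝ) ^ (k - 1) := by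
      have b1 : (H : ℝ) * ((1 - e) * π) ≤ (H : ℝ) * (Nat.primeCounting x - Nat.primeCounting H) := by
        apply mul_le_mul_of_nonneg_left _ hHr.le
        rw [← hπdef]; linarith
      have b2 : (0:ℝ) ≤ 1 - e := by linarith
      have b3 : 1 - k * e ≤ (1 - e) ^ k := by
        have := one_add_mul_le_pow (show (-2:ℝ) ≤ -e by linarith) k
        calc 1 - k * e = 1 + (k:ℝ) * (-e) := by ring
          _ ≤ (1 + -e) ^ k := this
          _ = _ := by ring
      calc (1 - k * e) * ((H : ℝ) ^ k * P) ≤ (1 - e) ^ k * ((H : ℝ) ^ k * P) := by gcongr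
        _ = ((H : ℝ) * ((1 - e) * π)) ^ k / (x : ℝ) ^ (k - 1) := by
            rw [hPeq, mul_pow, mul_pow]; ring
        _ ≤ _ := by gcongr
    have a2 : W * x ≤ e * ((H : ℝ) ^ k * P) := by
      have b1 : W / e + 1 ≤ H * π / x := by
        rw [le_div_iff₀ hx0]
        calc (W / e + 1) * x = (10 * (W / e + 1) * L) * ((1 / 10 : ℝ) * x / L) := by
              field_simp
          _ ≤ (H : ℝ) * π := by
              apply mul_le_mul _ hπge (by positivity) hHr.le
              have : 10 * (W / e + 1) ≤ A := by rw [hA]; linarith [(Nat.cast_nonneg H0 : (0:ℝ) ≤ H0)]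
              calc 10 * (W / e + 1) * L ≤ A * L := by gcongr
                _ ≤ H := hH
      have b2 : (1:ℝ) ≤ H * π / x := by
        have : 0 ≤ W / e := by positivity
        linarith
      have b3 : H * π / x ≤ (H * π / x) ^ k := le_self_pow₀ b2 (by omega)
      have b4 : (H : ℝ) ^ k * P = (H * π / x) ^ k * x := by
        rw [hPeq]
        obtain ⟨j, rfl⟩ := Nat.exists_eq_add_of_le' hk
        rw [Nat.add_sub_cancel, div_pow, mul_pow, pow_succ (x:ℝ) j]
        field_simp
      have b5 : W / e ≤ (H * π / x) ^ k := by linarith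
      rw [b4]
      calc W * x = e * ((W / e) * x) := by field_simp
        _ ≤ _ := by gcongr
    have a3 : (1 - k * e) * Z ≤ (1 + e) * T1 + e * Z := by
      have b1 : (1 - k * e) * ((H : ℝ) ^ k * P) ≤
          (1 + e) * (k.factorial * T1) + e * ((H : ℝ) ^ k * P) := by linarith
      have b2 : (H : ℝ) ^ k * P = k.factorial * Z := by rw [hZ]; field_simp
      rw [b2] at b1
      have b3 : k.factorial * ((1 - k * e) * Z) ≤ k.factorial * ((1 + e) * T1 + e * Z) := by
        linarith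
      exact le_of_mul_le_mul_left b3 hk0
    have a4 := alg1 k e T1 Z (by positivity) hep hZpos.le a3
    rw [he4] at a4
    exact a4
  have hTS0 : 0 ≤ TS := sum_nonneg fun D _ => hS0 D
  have hTSle : P * TS ≤ (1 + E / 4) * Z := by
    have := hav H hH0
    rw [← hTS] at this
    calc P * TS ≤ P * ((1 + E / 4) * ((H : ℝ) ^ k / k.factorial)) := by gcongr
      _ = _ := by rw [hZ]; ring
  have hPTS0 : 0 ≤ P * TS := by positivity
  have hmid : (1 - E) * (P * TS) ≤ (1 - 3 * E / 4) * Z := by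
    have h1 : (1 - E) * (P * TS) ≤ (1 - E) * ((1 + E / 4) * Z) :=
      mul_le_mul_of_nonneg_left hTSle (by linarith)
    have h2 : (1 - 3 * E / 4) * Z - (1 - E) * ((1 + E / 4) * Z) = E ^ 2 / 4 * Z := by ring
    have h3 : 0 ≤ E ^ 2 / 4 * Z := by positivity
    linarith
  constructor
  · have h1 : (1 - ε) * P * TS ≤ (1 - E) * (P * TS) := by
      rw [mul_assoc]
      exact mul_le_mul_of_nonneg_right (by linarith) hPTS0
    have h2 : (1 - 3 * E / 4) * Z ≤ (1 - E / 4) * Z := by
      apply mul_le_mul_of_nonneg_right _ hZpos.le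
      linarith
    linarith
  · set U := powersetCard k (Icc 1 H) with hU
    set Tf : Finset ℕ → ℝ := fun D => ((1 - E) * S D + c) * P with hTf
    have hTf0 : ∀ D, 0 ≤ Tf D := by
      intro D
      have h1 := hS0 D
      have : 0 ≤ (1 - E) * S D := mul_nonneg (by linarith) h1
      exact mul_nonneg (by linarith) hPpos.le
    set Gd := U.filter (fun D => Tf D ≤ NW x D) with hGd
    have hcardU : (U.card : ℝ) ≤ (H : ℝ) ^ k / k.factorial := by
      rw [hU, card_powersetCard, Nat.card_Icc, Nat.add_sub_cancel]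
      exact Nat.choose_le_pow_div k H
    have hsumT : ∑ D ∈ U, Tf D ≤ (1 - E / 2) * Z := by
      have e1 : ∑ D ∈ U, Tf D = (1 - E) * (P * TS) + c * P * U.card := by
        rw [hTf, ← sum_mul, sum_add_distrib, ← mul_sum, sum_const, nsmul_eq_mul, ← hTS]
        ring
      have e2 : c * P * U.card ≤ E / 4 * Z := by
        calc c * P * U.card ≤ (E / 4) * P * ((H : ℝ) ^ k / k.factorial) := by gcongr
          _ = _ := by rw [hZ]; ring
      rw [e1]
      linarith
    have hG : E / 4 * Z ≤ ∑ D ∈ Gd, (NW x D : ℝ) := by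
      have e1 : E / 4 * Z ≤ ∑ D ∈ U, ((NW x D : ℝ) - Tf D) := by
        rw [sum_sub_distrib, ← hT1]
        linarith
      refine e1.trans ?_
      rw [← sum_filter_add_sum_filter_not U (fun D => Tf D ≤ NW x D)]
      have e3 : ∑ D ∈ U.filter (fun D => ¬ Tf D ≤ NW x D), ((NW x D : ℝ) - Tf D) ≤ 0 := by
        apply sum_nonpos
        intro D hD
        have := not_le.mp (mem_filter.mp hD).2
        linarith
      have e4 : ∑ D ∈ Gd, ((NW x D : ℝ) - Tf D) ≤ ∑ D ∈ Gd, (NW x D : ℝ) := by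
        apply sum_le_sum
        intro D _
        have := hTf0 D
        linarith
      linarith
    have hxL : (0 : ℝ) < (x : ℝ) / L ^ k := by positivity
    have hsq : (E / 4 * Z) ^ 2 ≤ (Gd.card : ℝ) * (C3 * (H : ℝ) ^ k * ((x : ℝ) / L ^ k) ^ 2) := by
      calc (E / 4 * Z) ^ 2 ≤ (∑ D ∈ Gd, (NW x D : ℝ)) ^ 2 :=
            pow_le_pow_left₀ (by positivity) hG 2
        _ ≤ (Gd.card : ℝ) * ∑ D ∈ Gd, (NW x D : ℝ) ^ 2 := sq_sum_le_card_mul_sum_sq
        _ ≤ (Gd.card : ℝ) * ∑ D ∈ U, (NK x D : ℝ) ^ 2 := by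
            apply mul_le_mul_of_nonneg_left _ (Nat.cast_nonneg _)
            calc ∑ D ∈ Gd, (NW x D : ℝ) ^ 2 ≤ ∑ D ∈ Gd, (NK x D : ℝ) ^ 2 := by
                  apply sum_le_sum
                  intro D _
                  apply pow_le_pow_left₀ (Nat.cast_nonneg _)
                  exact_mod_cast NW_le_NK x D
              _ ≤ _ := by
                  apply sum_le_sum_of_subset_of_nonneg (filter_subset _ _)
                  intro D _ _
                  positivity
        _ ≤ _ := by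
            apply mul_le_mul_of_nonneg_left _ (Nat.cast_nonneg _)
            exact hsec x hx2 H
    have hZge : (H : ℝ) ^ k * ((x : ℝ) / L ^ k) / (k.factorial * 10 ^ k) ≤ Z := by
      calc (H : ℝ) ^ k * ((x : ℝ) / L ^ k) / (k.factorial * 10 ^ k)
          = (H : ℝ) ^ k / k.factorial * ((1 / 10 : ℝ) ^ k * (x / L ^ k)) := by
            rw [one_div, inv_pow]
            field_simp
        _ ≤ _ := by rw [hZ]; gcongr
    have h1 : E / (4 * k.factorial * 10 ^ k) * ((H : ℝ) ^ k * ((x : ℝ) / L ^ k)) ≤ E / 4 * Z := by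
      calc E / (4 * k.factorial * 10 ^ k) * ((H : ℝ) ^ k * ((x : ℝ) / L ^ k))
          = E / 4 * ((H : ℝ) ^ k * ((x : ℝ) / L ^ k) / (k.factorial * 10 ^ k)) := by
            field_simp
        _ ≤ _ := by gcongr
    have h2 : (E / (4 * k.factorial * 10 ^ k) * ((H : ℝ) ^ k * ((x : ℝ) / L ^ k))) ^ 2 ≤
        (Gd.card : ℝ) * (C3 * (H : ℝ) ^ k * ((x : ℝ) / L ^ k) ^ 2) :=
      (pow_le_pow_left₀ (by positivity) h1 2).trans hsq
    have h3 : c1 * (H : ℝ) ^ k ≤ Gd.card := by
      have hK : 0 < (H : ℝ) ^ k * C3 * ((x : ℝ) / L ^ k) ^ 2 := by positivity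
      refine le_of_mul_le_mul_right ?_ hK
      calc c1 * (H : ℝ) ^ k * ((H : ℝ) ^ k * C3 * ((x : ℝ) / L ^ k) ^ 2)
          = (E / (4 * k.factorial * 10 ^ k) * ((H : ℝ) ^ k * ((x : ℝ) / L ^ k))) ^ 2 := by
            rw [hc1]; field_simp
        _ ≤ _ := h2
        _ = _ := by ring
    have h4 : c * (H : ℝ) ^ k ≤ Gd.card := by
      refine le_trans ?_ h3
      gcongr
    refine h4.trans ?_
    have hsub : Gd ⊆ U.filter (fun D => ((1 - ε) * S D + c) * P ≤ NW x D) := by
      intro D hD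
      rw [hGd, mem_filter] at hD
      rw [mem_filter]
      refine ⟨hD.1, le_trans ?_ hD.2⟩
      have h5 := hS0 D
      have h6 : (1 - ε) * S D ≤ (1 - E) * S D := mul_le_mul_of_nonneg_right (by linarith) h5
      exact mul_le_mul_of_nonneg_right (by linarith) hPpos.le
    exact_mod_cast card_le_card hsub

/-! ### shapes -/

/-- smallest element -/
noncomputable def tmin (D : Finset ℕ) : ℕ := sInf (D : Set ℕ)

lemma tmin_mem {D : Finset ℕ} (h : D.Nonempty) : tmin D ∈ D := Nat.sInf_mem (s := (D : Set ℕ)) h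

lemma tmin_le {D : Finset ℕ} {d : ℕ} (h : d ∈ D) : tmin D ≤ d := Nat.sInf_le (s := (D : Set ℕ)) h

/-- the shape of a set -/
noncomputable def shape (D : Finset ℕ) : Finset ℕ := D.image (fun d => d - tmin D)

lemma shape_translate (D : Finset ℕ) : (shape D).image (fun d => d + tmin D) = D := by
  unfold shape
  rw [image_image]
  ext d
  rw [mem_image]
  constructor
  · rintro ⟨d', hd', rfl⟩
    have := tmin_le hd'
    simp only [Function.comp_apply]
    rw [Nat.sub_add_cancel this]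
    exact hd'
  · intro hd
    exact ⟨d, hd, Nat.sub_add_cancel (tmin_le hd)⟩

lemma shape_card (D : Finset ℕ) : (shape D).card = D.card := by
  conv_rhs => rw [← shape_translate D]
  rw [card_translate]

lemma zero_mem_shape {D : Finset ℕ} (h : D.Nonempty) : 0 ∈ shape D :=
  mem_image.mpr ⟨tmin D, tmin_mem h, Nat.sub_self _⟩

lemma NW_le_NK_shape (x : ℕ) {D : Finset ℕ} (h : D.Nonempty) : NW x D ≤ NK x (shape D) := by
  unfold NW NK
  apply card_le_card_of_injOn (fun n => n + tmin D)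
  · intro n hn
    rw [mem_coe, mem_filter] at hn
    rw [mem_coe, mem_filter]
    have h1 := mem_filter.mp (hn.2 _ (tmin_mem h))
    refine ⟨h1.1, fun d hd => ?_⟩
    unfold shape at hd
    rw [mem_image] at hd
    obtain ⟨d', hd', rfl⟩ := hd
    have h2 := (mem_filter.mp (hn.2 _ hd')).2
    have h3 := tmin_le hd'
    have e : n + tmin D + (d' - tmin D) = n + d' := by omega
    rw [e]
    exact h2
  · intro a _ b _ hab
    simpa using hab

/-- Main theorem in terms of shapes: `k`-element sets `D` containing `0` and contained in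
`{0, ..., H - 1}`. -/
theorem main_shapes (S : Finset ℕ → ℝ) (hS : ∀ D, Tendsto (Sp D) atTop (𝓝 (S D))) (k : ℕ)
    (hk : 1 ≤ k) (ε : ℝ) (hε : 0 < ε) :
    ∃ A c : ℝ, 0 < A ∧ 0 < c ∧ ∃ x0 : ℕ, ∀ x : ℕ, x0 ≤ x → ∀ H : ℕ,
      A * Real.log x ≤ H → (H : ℝ) ≤ c * x →
      c * (H : ℝ) ^ (k - 1) ≤ (((powersetCard k (range H)).filter
        (fun D => 0 ∈ D ∧ ((1 - ε) * S D + c) * PK k x ≤ NK x D)).card : ℝ) := by
  classical
  obtain ⟨A, c, hA, hc, x0, h⟩ := main_subsets S hS k hk ε hε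
  refine ⟨A, c, hA, hc, max x0 3, fun x hx H hH hHx => ?_⟩
  have hx3 : 3 ≤ x := (le_max_right _ _).trans hx
  have hxr : (3:ℝ) ≤ x := by exact_mod_cast hx3
  have hlog : 0 < Real.log x := Real.log_pos (by linarith)
  have hHr : (0:ℝ) < H := lt_of_lt_of_le (by positivity) hH
  have h2 := (h x ((le_max_left _ _).trans hx) H hH hHx).2
  set G1 := (powersetCard k (Icc 1 H)).filter
        (fun D => ((1 - ε) * S D + c) * PK k x ≤ NW x D) with hG1
  set G2 := (powersetCard k (range H)).filter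
        (fun D => 0 ∈ D ∧ ((1 - ε) * S D + c) * PK k x ≤ NK x D) with hG2
  have hinj : G1.card ≤ (Icc 1 H ×ˢ G2).card := by
    apply card_le_card_of_injOn (fun D => (tmin D, shape D))
    · intro D hD
      rw [mem_coe, hG1, mem_filter, mem_powersetCard] at hD
      obtain ⟨⟨hD1, hD2⟩, hD3⟩ := hD
      have hne : D.Nonempty := by
        rw [← card_pos]; omega
      have ht := tmin_mem hne
      have htH := mem_Icc.mp (hD1 ht)
      rw [mem_coe, mem_product]
      refine ⟨mem_Icc.mpr htH, ?_⟩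
      change shape D ∈ G2
      rw [hG2, mem_filter, mem_powersetCard]
      refine ⟨⟨?_, by rw [shape_card, hD2]⟩, zero_mem_shape hne, ?_⟩
      · intro d hd
        unfold shape at hd
        rw [mem_image] at hd
        obtain ⟨d', hd', rfl⟩ := hd
        have := mem_Icc.mp (hD1 hd')
        rw [mem_range]
        omega
      · have hSe : S (shape D) = S D := by
          apply tendsto_nhds_unique (hS (shape D))
          refine (hS D).congr (fun z => ?_)
          conv_lhs => rw [← shape_translate D]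
          rw [Sp_translate]
        rw [hSe]
        refine hD3.trans ?_
        exact_mod_cast NW_le_NK_shape x hne
    · intro D _ D' _ hDD
      simp only [Prod.mk.injEq] at hDD
      rw [← shape_translate D, ← shape_translate D', hDD.1, hDD.2]
  have h3 : (G1.card : ℝ) ≤ H * G2.card := by
    rw [card_product, Nat.card_Icc, Nat.add_sub_cancel] at hinj
    exact_mod_cast hinj
  have h4 : c * (H : ℝ) ^ (k - 1) * H ≤ G2.card * H := by
    have e : c * (H : ℝ) ^ (k - 1) * H = c * (H : ℝ) ^ k := by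
      rw [mul_assoc, ← pow_succ]
      congr 2
      omega
    rw [e]
    linarith
  exact le_of_mul_le_mul_right h4 hHr

end Pool.Agent.Lib.MP_092512_nt.KSets
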