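import Mathlib

/-!
# Average of the parallelogram constants

For `a ≠ b` let `SS a b` be the Hardy-Littlewood constant of `{0, a, b, a + b}`. We prove
`∑_{a ≤ H, b ≤ J, b ≠ a} SS a b ≤ (1 + ε) K H J` and its Fejer-weighted version, with
`K = ∏ (1 + 1/(p-1)^3)`.
-/

open Finset

namespace Pool.Agent.Lib.MP_092512_nt.ParAvg

/-- number of `n mod p` such that none of `n, n+a, n+b, n+a+b` is divisible by `p` -/
def rho (p a b : ℕ) : ℕ :=
  ((range p).filter (fun n => ¬ p ∣ n ∧ ¬ p ∣ n + a ∧ ¬ p ∣ n + b ∧ ¬ p ∣ n + a + b)).card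

/-- local factor of the parallelogram `{0,a,b,a+b}` at `p` -/
noncomputable def fac (p a b : ℕ) : ℝ := ((rho p a b : ℝ) / p) / (1 - 1 / (p : ℝ)) ^ 4

lemma rho_le (p a b : ℕ) : rho p a b ≤ p := by
  unfold rho
  calc _ ≤ (range p).card := card_filter_le _ _
    _ = p := card_range p

lemma rho_add_left (p a b : ℕ) : rho p (a + p) b = rho p a b := by
  unfold rho
  congr 1
  apply filter_congr
  intro n _
  have h1 : p ∣ n + (a + p) ↔ p ∣ n + a := by
    rw [← add_assoc]; exact Nat.dvd_add_self_right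
  have h2 : p ∣ n + (a + p) + b ↔ p ∣ n + a + b := by
    rw [show n + (a + p) + b = n + a + b + p by ring]; exact Nat.dvd_add_self_right
  rw [h1, h2]

lemma rho_add_right (p a b : ℕ) : rho p a (b + p) = rho p a b := by
  unfold rho
  congr 1
  apply filter_congr
  intro n _
  have h1 : p ∣ n + (b + p) ↔ p ∣ n + b := by
    rw [← add_assoc]; exact Nat.dvd_add_self_right
  have h2 : p ∣ n + a + (b + p) ↔ p ∣ n + a + b := by
    rw [← add_assoc]; exact Nat.dvd_add_self_right
  rw [h1, h2]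

lemma rho_symm (p a b : ℕ) : rho p a b = rho p b a := by
  unfold rho
  congr 1
  apply filter_congr
  intro n _
  rw [show n + a + b = n + b + a by ring]
  tauto

lemma fac_symm (p a b : ℕ) : fac p a b = fac p b a := by
  unfold fac; rw [rho_symm]

lemma rho_mod (p a b : ℕ) : rho p (a % p) (b % p) = rho p a b := by
  have h1 : ∀ k a b, rho p (a + p * k) b = rho p a b := by
    intro k
    induction k with
    | zero => intro a b; simp
    | succ k ih => intro a b; rw [mul_add, mul_one, ← add_assoc, rho_add_left, ih]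
  have h2 : ∀ k a b, rho p a (b + p * k) = rho p a b := by
    intro k
    induction k with
    | zero => intro a b; simp
    | succ k ih => intro a b; rw [mul_add, mul_one, ← add_assoc, rho_add_right, ih]
  conv_rhs => rw [← Nat.mod_add_div a p, ← Nat.mod_add_div b p]
  rw [h1, h2]

lemma fac_mod (p a b : ℕ) : fac p (a % p) (b % p) = fac p a b := by
  unfold fac; rw [rho_mod]

lemma one_sub_pos {p : ℕ} (hp : p.Prime) : (0:ℝ) < 1 - 1 / (p:ℝ) := by
  have : (2:ℝ) ≤ p := by exact_mod_cast hp.two_le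
  have h2 : 1 / (p:ℝ) ≤ 1 / 2 := by
    apply one_div_le_one_div_of_le <;> linarith
  linarith

lemma fac_nonneg {p : ℕ} (hp : p.Prime) (a b : ℕ) : 0 ≤ fac p a b := by
  unfold fac
  have := one_sub_pos hp
  positivity

/-- the trivial bound -/
lemma fac_le_inv {p : ℕ} (hp : p.Prime) (a b : ℕ) : fac p a b ≤ ((1 - 1 / (p:ℝ)) ^ 4)⁻¹ := by
  unfold fac
  have h0 := one_sub_pos hp
  have hp0 : (0:ℝ) < p := by exact_mod_cast hp.pos
  rw [div_eq_mul_inv _ ((1 - 1 / (p:ℝ)) ^ 4)]
  have h1 : (rho p a b : ℝ) / p ≤ 1 := by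
    rw [div_le_one hp0]; exact_mod_cast rho_le p a b
  have h2 : 0 ≤ ((1 - 1 / (p:ℝ)) ^ 4)⁻¹ := by positivity
  calc (rho p a b : ℝ) / p * ((1 - 1 / (p:ℝ)) ^ 4)⁻¹ ≤ 1 * ((1 - 1 / (p:ℝ)) ^ 4)⁻¹ :=
        mul_le_mul_of_nonneg_right h1 h2
    _ = _ := one_mul _

/-- the difference `|a-b|` -/
def dd (a b : ℕ) : ℕ := (a - b) + (b - a)

lemma rho_eq_zmod {p : ℕ} [NeZero p] (a b : ℕ) :
    rho p a b = (univ.filter (fun n : ZMod p => n ≠ 0 ∧ n + a ≠ 0 ∧ n + b ≠ 0 ∧
      n + a + b ≠ 0)).card := by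
  unfold rho
  refine Finset.card_nbij' (fun n => (n : ZMod p)) (fun n => n.val) ?_ ?_ ?_ ?_
  · intro n hn
    simp only [coe_filter, mem_range, Set.mem_ofPred_eq] at hn
    simp only [coe_filter, mem_univ, true_and, Set.mem_ofPred_eq, ne_eq]
    refine ⟨?_, ?_, ?_, ?_⟩
    · rw [ZMod.natCast_eq_zero_iff]; exact hn.2.1
    · rw [← Nat.cast_add, ZMod.natCast_eq_zero_iff]; exact hn.2.2.1
    · rw [← Nat.cast_add, ZMod.natCast_eq_zero_iff]; exact hn.2.2.2.1
    · rw [← Nat.cast_add, ← Nat.cast_add, ZMod.natCast_eq_zero_iff]; exact hn.2.2.2.2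
  · intro n hn
    simp only [coe_filter, mem_univ, true_and, Set.mem_ofPred_eq, ne_eq] at hn
    simp only [coe_filter, mem_range, Set.mem_ofPred_eq]
    have hv : ((n.val : ℕ) : ZMod p) = n := ZMod.natCast_zmod_val n
    refine ⟨ZMod.val_lt n, ?_, ?_, ?_, ?_⟩
    · rw [← ZMod.natCast_eq_zero_iff, hv]; exact hn.1
    · rw [← ZMod.natCast_eq_zero_iff, Nat.cast_add, hv]; exact hn.2.1
    · rw [← ZMod.natCast_eq_zero_iff, Nat.cast_add, hv]; exact hn.2.2.1
    · rw [← ZMod.natCast_eq_zero_iff, Nat.cast_add, Nat.cast_add, hv]; exact hn.2.2.2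
  · intro n hn
    simp only [coe_filter, mem_range, Set.mem_ofPred_eq] at hn
    exact ZMod.val_cast_of_lt hn.1
  · intro n _
    exact ZMod.natCast_zmod_val n

/-- a good prime has four distinct excluded residues -/
lemma rho_good {p : ℕ} (hp : p.Prime) {a b : ℕ} (ha : ¬ p ∣ a) (hb : ¬ p ∣ b)
    (hab : ¬ p ∣ a + b) (hd : ¬ p ∣ dd a b) : rho p a b + 4 ≤ p := by
  have : Fact p.Prime := ⟨hp⟩
  rw [rho_eq_zmod]
  set A := (univ.filter (fun n : ZMod p => n ≠ 0 ∧ n + a ≠ 0 ∧ n + b ≠ 0 ∧ n + a + b ≠ 0))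
    with hA
  have ha' : (a : ZMod p) ≠ 0 := by rw [Ne, ZMod.natCast_eq_zero_iff]; exact ha
  have hb' : (b : ZMod p) ≠ 0 := by rw [Ne, ZMod.natCast_eq_zero_iff]; exact hb
  have hab' : (a : ZMod p) + b ≠ 0 := by
    rw [← Nat.cast_add, Ne, ZMod.natCast_eq_zero_iff]; exact hab
  have hd' : (a : ZMod p) ≠ b := by
    intro h
    apply hd
    unfold dd
    rcases le_total a b with hle | hle
    · rw [Nat.sub_eq_zero_of_le hle, zero_add]
      rw [← ZMod.natCast_eq_zero_iff, Nat.cast_sub hle, h, sub_self]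
    · rw [Nat.sub_eq_zero_of_le hle, add_zero]
      rw [← ZMod.natCast_eq_zero_iff, Nat.cast_sub hle, h, sub_self]
  have hc : ({0, -(a : ZMod p), -(b : ZMod p), -((a : ZMod p) + b)} : Finset (ZMod p)).card = 4 := by
    rw [card_insert_of_notMem, card_insert_of_notMem, card_insert_of_notMem, card_singleton]
    · simp only [mem_singleton]
      intro h
      apply ha'
      have := neg_injective h
      have h2 : (0 : ZMod p) + b = a + b := by rw [zero_add]; exact this
      exact (add_right_cancel h2).symm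
    · simp only [mem_insert, mem_singleton, not_or]
      constructor
      · intro h; exact hd' (neg_injective h)
      · intro h
        have := neg_injective h
        apply hb'
        have h2 : (a : ZMod p) + 0 = a + b := by rw [add_zero]; exact this
        exact (add_left_cancel h2).symm
    · simp only [mem_insert, mem_singleton, not_or]
      refine ⟨?_, ?_, ?_⟩
      · intro h; apply ha'; rw [eq_comm, neg_eq_zero] at h; exact h
      · intro h; apply hb'; rw [eq_comm, neg_eq_zero] at h; exact h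
      · intro h; apply hab'; rw [eq_comm, neg_eq_zero] at h; exact h
  have hdisj : Disjoint A ({0, -(a : ZMod p), -(b : ZMod p), -((a : ZMod p) + b)} :
      Finset (ZMod p)) := by
    rw [Finset.disjoint_left]
    intro x hx hx2
    rw [hA, mem_filter] at hx
    simp only [mem_insert, mem_singleton] at hx2
    obtain ⟨_, h0, h1, h2, h3⟩ := hx
    rcases hx2 with h | h | h | h
    · exact h0 h
    · exact h1 (by rw [h]; ring)
    · exact h2 (by rw [h]; ring)
    · exact h3 (by rw [h]; ring)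
  have := card_union_of_disjoint hdisj
  rw [hc] at this
  rw [← this]
  calc _ ≤ (univ : Finset (ZMod p)).card := card_le_univ _
    _ = p := by rw [card_univ, ZMod.card]

lemma fac_good {p : ℕ} (hp : p.Prime) {a b : ℕ} (ha : ¬ p ∣ a) (hb : ¬ p ∣ b)
    (hab : ¬ p ∣ a + b) (hd : ¬ p ∣ dd a b) : fac p a b ≤ 1 := by
  have h := rho_good hp ha hb hab hd
  unfold fac
  have h0 := one_sub_pos hp
  have hp0 : (0:ℝ) < p := by exact_mod_cast hp.pos
  rw [div_le_one (by positivity)]
  have h1 : (rho p a b : ℝ) / p ≤ 1 + 4 * (- (1 / (p:ℝ))) := by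
    rw [div_le_iff₀ hp0]
    have : (rho p a b : ℝ) + 4 ≤ p := by exact_mod_cast h
    have h3 : (1 + 4 * (-(1 / (p:ℝ)))) * p = p - 4 := by field_simp; ring
    rw [h3]; linarith
  have h2 := one_add_mul_le_pow (a := -(1/(p:ℝ))) (by
    have : 1 / (p:ℝ) ≤ 1 := by linarith
    linarith) 4
  push_cast at h2
  calc _ ≤ _ := h1
    _ ≤ (1 + -(1 / (p:ℝ))) ^ 4 := h2
    _ = _ := by ring

/-- one-variable majorant factor -/
noncomputable def g (p n : ℕ) : ℝ := if p ∣ n then ((1 - 1 / (p:ℝ)) ^ 4)⁻¹ else 1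

lemma one_le_g {p : ℕ} (hp : p.Prime) (n : ℕ) : 1 ≤ g p n := by
  unfold g
  split_ifs
  · have h0 := one_sub_pos hp
    rw [one_le_inv₀ (by positivity)]
    apply pow_le_one₀ h0.le
    have : 0 ≤ 1 / (p:ℝ) := by positivity
    linarith
  · exact le_refl _

lemma fac_le_g {p : ℕ} (hp : p.Prime) (a b : ℕ) :
    fac p a b ≤ g p a * g p b * g p (a + b) * g p (dd a b) := by
  have h1 := one_le_g hp a
  have h2 := one_le_g hp b
  have h3 := one_le_g hp (a + b)
  have h4 := one_le_g hp (dd a b)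
  have hinv := fac_le_inv hp a b
  have h12 : 1 ≤ g p a * g p b := one_le_mul_of_one_le_of_one_le h1 h2
  have h123 : 1 ≤ g p a * g p b * g p (a + b) := one_le_mul_of_one_le_of_one_le h12 h3
  by_cases ha : p ∣ a
  · have e : g p a = ((1 - 1 / (p:ℝ)) ^ 4)⁻¹ := by unfold g; rw [if_pos ha]
    rw [← e] at hinv
    calc _ ≤ g p a := hinv
      _ ≤ g p a * g p b := le_mul_of_one_le_right (by linarith) h2
      _ ≤ g p a * g p b * g p (a + b) := le_mul_of_one_le_right (by linarith) h3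
      _ ≤ _ := le_mul_of_one_le_right (by linarith) h4
  by_cases hb : p ∣ b
  · have e : g p b = ((1 - 1 / (p:ℝ)) ^ 4)⁻¹ := by unfold g; rw [if_pos hb]
    rw [← e] at hinv
    calc _ ≤ g p b := hinv
      _ ≤ g p a * g p b := le_mul_of_one_le_left (by linarith) h1
      _ ≤ g p a * g p b * g p (a + b) := le_mul_of_one_le_right (by linarith) h3
      _ ≤ _ := le_mul_of_one_le_right (by linarith) h4
  by_cases hab : p ∣ a + b
  · have e : g p (a + b) = ((1 - 1 / (p:ℝ)) ^ 4)⁻¹ := by unfold g; rw [if_pos hab]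
    rw [← e] at hinv
    calc _ ≤ g p (a + b) := hinv
      _ ≤ g p a * g p b * g p (a + b) := le_mul_of_one_le_left (by linarith) h12
      _ ≤ _ := le_mul_of_one_le_right (by linarith) h4
  by_cases hd : p ∣ dd a b
  · have e : g p (dd a b) = ((1 - 1 / (p:ℝ)) ^ 4)⁻¹ := by unfold g; rw [if_pos hd]
    rw [← e] at hinv
    calc _ ≤ g p (dd a b) := hinv
      _ ≤ _ := le_mul_of_one_le_left (by linarith) h123
  calc _ ≤ 1 := fac_good hp ha hb hab hd
    _ ≤ _ := one_le_mul_of_one_le_of_one_le h123 h4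

/-! ### local mean -/

/-- indicator that four residues are all nonzero -/
noncomputable def ind {p : ℕ} (n x y z : ZMod p) : ℝ :=
  if n ≠ 0 ∧ x ≠ 0 ∧ y ≠ 0 ∧ z ≠ 0 then 1 else 0

lemma local_count {p : ℕ} (hp : p.Prime) :
    ∑ a ∈ range p, ∑ b ∈ range p, (rho p a b : ℝ) = (p - 1 : ℝ) * ((p:ℝ) ^ 2 - 3 * p + 3) := by
  have : Fact p.Prime := ⟨hp⟩
  have hcard : (Fintype.card (ZMod p) : ℝ) = p := by rw [ZMod.card]
  have h1 : ∑ a ∈ range p, ∑ b ∈ range p, (rho p a b : ℝ) =
      ∑ a : ZMod p, ∑ b : ZMod p, ∑ n : ZMod p, ind n (n + a) (n + b) (n + a + b) := by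
    have key : ∀ F : ZMod p → ℝ, ∑ a ∈ range p, F (a : ZMod p) = ∑ a : ZMod p, F a := by
      intro F
      refine Finset.sum_nbij' (fun n => (n : ZMod p)) (fun n => n.val) ?_ ?_ ?_ ?_ ?_
      · intro a _; exact mem_univ _
      · intro a _; exact mem_range.mpr (ZMod.val_lt a)
      · intro a ha; exact ZMod.val_cast_of_lt (mem_range.mp ha)
      · intro a _; exact ZMod.natCast_zmod_val a
      · intro a _; rfl
    rw [← key]
    apply Finset.sum_congr rfl
    intro a _
    rw [← key]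
    apply Finset.sum_congr rfl
    intro b _
    unfold ind
    rw [rho_eq_zmod, Finset.sum_boole]
  rw [h1]
  -- swap the order and substitute
  have h2 : ∑ a : ZMod p, ∑ b : ZMod p, ∑ n : ZMod p, ind n (n + a) (n + b) (n + a + b) =
      ∑ x : ZMod p, ∑ y : ZMod p, ∑ n : ZMod p, ind n x y (x + y - n) := by
    have e1 : ∀ a : ZMod p, ∑ b : ZMod p, ∑ n : ZMod p, ind n (n + a) (n + b) (n + a + b) =
        ∑ n : ZMod p, ∑ y : ZMod p, ind n (n + a) y (a + y) := by
      intro a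
      rw [Finset.sum_comm]
      apply Finset.sum_congr rfl
      intro n _
      rw [← Equiv.sum_comp (Equiv.addLeft n) (fun y => ind n (n + a) y (a + y))]
      apply Finset.sum_congr rfl
      intro b _
      show ind n (n + a) (n + b) (n + a + b) = ind n (n + a) (n + b) (a + (n + b))
      rw [show a + (n + b) = n + a + b by ring]
    rw [Finset.sum_congr rfl (fun a _ => e1 a), Finset.sum_comm]
    have e2 : ∀ n : ZMod p, ∑ a : ZMod p, ∑ y : ZMod p, ind n (n + a) y (a + y) =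
        ∑ x : ZMod p, ∑ y : ZMod p, ind n x y (x + y - n) := by
      intro n
      rw [← Equiv.sum_comp (Equiv.addLeft n) (fun x => ∑ y : ZMod p, ind n x y (x + y - n))]
      apply Finset.sum_congr rfl
      intro a _
      apply Finset.sum_congr rfl
      intro y _
      show ind n (n + a) y (a + y) = ind n (n + a) y (n + a + y - n)
      rw [show n + a + y - n = a + y by ring]
    rw [Finset.sum_congr rfl (fun n _ => e2 n), Finset.sum_comm]
    apply Finset.sum_congr rfl
    intro x _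
    rw [Finset.sum_comm]
  rw [h2]
  have h3 : ∀ x y : ZMod p, ∑ n : ZMod p, ind n x y (x + y - n) =
      if x ≠ 0 ∧ y ≠ 0 then ((p:ℝ) - 2 + (if y = -x then 1 else 0)) else 0 := by
    intro x y
    by_cases hxy : x ≠ 0 ∧ y ≠ 0
    · rw [if_pos hxy]
      by_cases hyx : y = -x
      · rw [if_pos hyx]
        have : ∀ n : ZMod p, ind n x y (x + y - n) = 1 - (if n = 0 then 1 else 0) := by
          intro n
          have e : x + y - n = - n := by rw [hyx]; ring
          unfold ind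
          simp only [e]
          by_cases hn : n = 0
          · simp [hn]
          · simp [hn, hxy.1, hxy.2]
        rw [Finset.sum_congr rfl (fun n _ => this n), Finset.sum_sub_distrib,
          Finset.sum_ite_eq' univ (0 : ZMod p) (fun _ => (1:ℝ)), if_pos (mem_univ _),
          Finset.sum_const, card_univ, nsmul_eq_mul, hcard]
        ring
      · rw [if_neg hyx]
        have hs : x + y ≠ 0 := by
          intro h
          apply hyx
          exact eq_neg_of_add_eq_zero_right h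
        have : ∀ n : ZMod p, ind n x y (x + y - n) =
            1 - (if n = 0 then 1 else 0) - (if n = x + y then 1 else 0) := by
          intro n
          unfold ind
          by_cases hn : n = 0
          · rw [hn]; simp [hs.symm]
          · by_cases hn2 : n = x + y
            · rw [hn2]; simp [hs]
            · have : x + y - n ≠ 0 := by
                intro h; exact hn2 (sub_eq_zero.mp h).symm
              simp [hn, hn2, this, hxy.1, hxy.2]
        rw [Finset.sum_congr rfl (fun n _ => this n), Finset.sum_sub_distrib,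
          Finset.sum_sub_distrib,
          Finset.sum_ite_eq' univ (0 : ZMod p) (fun _ => (1:ℝ)), if_pos (mem_univ _),
          Finset.sum_ite_eq' univ (x + y : ZMod p) (fun _ => (1:ℝ)), if_pos (mem_univ _),
          Finset.sum_const, card_univ, nsmul_eq_mul, hcard]
        ring
    · rw [if_neg hxy]
      apply Finset.sum_eq_zero
      intro n _
      unfold ind
      rw [if_neg]
      intro h
      exact hxy ⟨h.2.1, h.2.2.1⟩
  rw [Finset.sum_congr rfl (fun x _ => Finset.sum_congr rfl (fun y _ => h3 x y))]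
  have h4 : ∀ x : ZMod p, ∑ y : ZMod p,
      (if x ≠ 0 ∧ y ≠ 0 then ((p:ℝ) - 2 + (if y = -x then 1 else 0)) else 0) =
      (((p:ℝ) - 1) * (p - 2) + 1) * (1 - (if x = 0 then 1 else 0)) := by
    intro x
    by_cases hx : x = 0
    · simp [hx]
    · have : ∀ y : ZMod p, (if x ≠ 0 ∧ y ≠ 0 then ((p:ℝ) - 2 + (if y = -x then 1 else 0)) else 0) =
          ((p:ℝ) - 2) * (1 - (if y = 0 then 1 else 0)) + (if y = -x then 1 else 0) := by
        intro y
        by_cases hy : y = 0
        · have : (0 : ZMod p) ≠ -x := by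
            intro h; apply hx; rw [eq_comm, neg_eq_zero] at h; exact h
          simp [hy, this]
        · simp [hx, hy]
      rw [Finset.sum_congr rfl (fun n _ => this n), Finset.sum_add_distrib, ← Finset.mul_sum,
        Finset.sum_sub_distrib,
        Finset.sum_ite_eq' univ (0 : ZMod p) (fun _ => (1:ℝ)), if_pos (mem_univ _),
        Finset.sum_ite_eq' univ (-x : ZMod p) (fun _ => (1:ℝ)), if_pos (mem_univ _),
        Finset.sum_const, card_univ, nsmul_eq_mul, hcard, if_neg hx]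
      ring
  rw [Finset.sum_congr rfl (fun x _ => h4 x), ← Finset.mul_sum, Finset.sum_sub_distrib,
    Finset.sum_ite_eq' univ (0 : ZMod p) (fun _ => (1:ℝ)), if_pos (mem_univ _),
    Finset.sum_const, card_univ, nsmul_eq_mul, hcard]
  ring

lemma local_mean {p : ℕ} (hp : p.Prime) :
    ∑ a ∈ range p, ∑ b ∈ range p, fac p a b = (p:ℝ) ^ 2 * (1 + 1 / ((p:ℝ) - 1) ^ 3) := by
  unfold fac
  rw [Finset.sum_congr rfl (fun a _ => (Finset.sum_div _ _ _).symm), ← Finset.sum_div,
    Finset.sum_congr rfl (fun a _ => (Finset.sum_div _ _ _).symm), ← Finset.sum_div,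
    local_count hp]
  have hp1 : (1:ℝ) < p := by exact_mod_cast hp.one_lt
  have h0 : (p:ℝ) ≠ 0 := by linarith
  have h1 : (p:ℝ) - 1 ≠ 0 := by linarith
  have h2 : (1 - 1 / (p:ℝ)) = (p - 1) / p := by field_simp
  rw [h2]
  field_simp
  ring

/-! ### Chinese remainder -/

lemma sum_range_mul_coprime {m n : ℕ} (hm : m ≠ 0) (hn : n ≠ 0) (h : Nat.Coprime m n)
    (G : ℕ → ℕ → ℝ) :
    ∑ x ∈ range (m * n), G (x % m) (x % n) = ∑ i ∈ range m, ∑ j ∈ range n, G i j := by
  rw [← Finset.sum_product']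
  refine Finset.sum_nbij' (fun x => (x % m, x % n))
    (fun q => (Nat.chineseRemainder h q.1 q.2 : ℕ)) ?_ ?_ ?_ ?_ ?_
  · intro x _
    simp only [mem_product, mem_range]
    exact ⟨Nat.mod_lt _ (Nat.pos_of_ne_zero hm), Nat.mod_lt _ (Nat.pos_of_ne_zero hn)⟩
  · intro q _
    simp only [mem_range]
    exact Nat.chineseRemainder_lt_mul h q.1 q.2 hm hn
  · intro x hx
    simp only [mem_range] at hx
    have h1 : x ≡ x % m [MOD m] := (Nat.mod_modEq x m).symm
    have h2 : x ≡ x % n [MOD n] := (Nat.mod_modEq x n).symm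
    have h3 := Nat.chineseRemainder_modEq_unique h h1 h2
    have h4 := Nat.chineseRemainder_lt_mul h (x % m) (x % n) hm hn
    exact (Nat.ModEq.eq_of_lt_of_lt h3 hx h4).symm
  · intro q hq
    simp only [mem_product, mem_range] at hq
    have h1 := (Nat.chineseRemainder h q.1 q.2).2
    ext
    · simp only
      have := h1.1
      unfold Nat.ModEq at this
      rw [this, Nat.mod_eq_of_lt hq.1]
    · simp only
      have := h1.2
      unfold Nat.ModEq at this
      rw [this, Nat.mod_eq_of_lt hq.2]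
  · intro x _
    rfl

lemma sum2_mul_coprime {m n : ℕ} (hm : m ≠ 0) (hn : n ≠ 0) (h : Nat.Coprime m n)
    (F G : ℕ → ℕ → ℝ) :
    ∑ x ∈ range (m * n), ∑ y ∈ range (m * n), F (x % m) (y % m) * G (x % n) (y % n) =
      (∑ i ∈ range m, ∑ j ∈ range m, F i j) * (∑ i ∈ range n, ∑ j ∈ range n, G i j) := by
  have h1 : ∀ x, ∑ y ∈ range (m * n), F (x % m) (y % m) * G (x % n) (y % n) =
      ∑ i ∈ range m, ∑ j ∈ range n, F (x % m) i * G (x % n) j := by
    intro x
    exact sum_range_mul_coprime hm hn h (fun i j => F (x % m) i * G (x % n) j)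
  rw [Finset.sum_congr rfl (fun x _ => h1 x)]
  rw [sum_range_mul_coprime hm hn h
    (fun k l => ∑ i ∈ range m, ∑ j ∈ range n, F k i * G l j)]
  rw [Finset.sum_mul_sum]
  apply Finset.sum_congr rfl
  intro k _
  apply Finset.sum_congr rfl
  intro l _
  rw [Finset.sum_mul_sum]

lemma period_mean (P : Finset ℕ) (hP : ∀ p ∈ P, p.Prime) :
    ∑ a ∈ range (∏ p ∈ P, p), ∑ b ∈ range (∏ p ∈ P, p), ∏ p ∈ P, fac p a b =
      ∏ p ∈ P, ((p:ℝ) ^ 2 * (1 + 1 / ((p:ℝ) - 1) ^ 3)) := by
  induction P using Finset.induction_on with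
  | empty => simp
  | insert q P hq ih =>
    have hP' : ∀ p ∈ P, p.Prime := fun p hp => hP p (mem_insert_of_mem hp)
    have hqp : q.Prime := hP q (mem_insert_self _ _)
    have ih' := ih hP'
    rw [Finset.prod_insert hq, Finset.prod_insert hq]
    have hcop : Nat.Coprime q (∏ p ∈ P, p) := by
      apply Nat.Coprime.prod_right
      intro p hp
      rw [Nat.coprime_primes hqp (hP' p hp)]
      rintro rfl
      exact hq hp
    have hne : (∏ p ∈ P, p) ≠ 0 := by
      apply Finset.prod_ne_zero_iff.mpr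
      intro p hp
      exact (hP' p hp).ne_zero
    have hdiv : ∀ p ∈ P, p ∣ ∏ p ∈ P, p := fun p hp => Finset.dvd_prod_of_mem _ hp
    rw [← ih', ← local_mean hqp, ← sum2_mul_coprime hqp.ne_zero hne hcop]
    apply Finset.sum_congr rfl
    intro a _
    apply Finset.sum_congr rfl
    intro b _
    rw [Finset.prod_insert hq, fac_mod]
    congr 1
    apply Finset.prod_congr rfl
    intro p hp
    rw [← fac_mod p (a % _) (b % _), Nat.mod_mod_of_dvd _ (hdiv p hp),
      Nat.mod_mod_of_dvd _ (hdiv p hp), fac_mod]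

/-! ### covering by periods -/

lemma sum_range_mul_period {W : ℕ} (f : ℕ → ℝ) (hper : ∀ n, f (n + W) = f n) (k : ℕ) :
    ∑ n ∈ range (k * W), f n = k * ∑ n ∈ range W, f n := by
  have hper' : ∀ k n, f (k * W + n) = f n := by
    intro k
    induction k with
    | zero => intro n; simp
    | succ k ih =>
      intro n
      rw [show (k + 1) * W + n = (k * W + n) + W by ring, hper, ih]
  induction k with
  | zero => simp
  | succ k ih =>
    rw [show (k + 1) * W = k * W + W by ring, Finset.sum_range_add, ih,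
      Finset.sum_congr rfl (fun i _ => hper' k i)]
    push_cast
    ring

lemma sum_Icc_le_period {W : ℕ} (hW : 0 < W) (f : ℕ → ℝ) (hf : ∀ n, 0 ≤ f n)
    (hper : ∀ n, f (n + W) = f n) (H : ℕ) :
    ∑ n ∈ Icc 1 H, f n ≤ ((H:ℝ) / W + 1) * ∑ n ∈ range W, f n := by
  have hsub : Icc 1 H ⊆ range ((H / W + 1) * W) := by
    intro n hn
    rw [mem_Icc] at hn
    rw [mem_range]
    calc n ≤ H := hn.2
      _ < (H / W + 1) * W := by
        rw [mul_comm]; exact Nat.lt_mul_div_succ H hW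
  calc ∑ n ∈ Icc 1 H, f n ≤ ∑ n ∈ range ((H / W + 1) * W), f n :=
        Finset.sum_le_sum_of_subset_of_nonneg hsub (fun n _ _ => hf n)
    _ = ((H / W + 1 : ℕ) : ℝ) * ∑ n ∈ range W, f n := sum_range_mul_period f hper _
    _ ≤ _ := by
      apply mul_le_mul_of_nonneg_right _ (Finset.sum_nonneg (fun n _ => hf n))
      push_cast
      have := @Nat.cast_div_le ℝ _ _ _ H W
      linarith

lemma sum2_Icc_le_period {W : ℕ} (hW : 0 < W) (f : ℕ → ℕ → ℝ) (hf : ∀ a b, 0 ≤ f a b)
    (hper1 : ∀ a b, f (a + W) b = f a b) (hper2 : ∀ a b, f a (b + W) = f a b) (H J : ℕ) :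
    ∑ a ∈ Icc 1 H, ∑ b ∈ Icc 1 J, f a b ≤
      ((H:ℝ) / W + 1) * ((J:ℝ) / W + 1) * ∑ a ∈ range W, ∑ b ∈ range W, f a b := by
  have h1 : ∀ a, ∑ b ∈ Icc 1 J, f a b ≤ ((J:ℝ) / W + 1) * ∑ b ∈ range W, f a b :=
    fun a => sum_Icc_le_period hW (f a) (hf a) (hper2 a) J
  have h2 := sum_Icc_le_period hW (fun a => ∑ b ∈ range W, f a b)
    (fun a => Finset.sum_nonneg (fun b _ => hf a b))
    (fun a => Finset.sum_congr rfl (fun b _ => hper1 a b)) H
  calc ∑ a ∈ Icc 1 H, ∑ b ∈ Icc 1 J, f a b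
      ≤ ∑ a ∈ Icc 1 H, ((J:ℝ) / W + 1) * ∑ b ∈ range W, f a b :=
        Finset.sum_le_sum (fun a _ => h1 a)
    _ = ((J:ℝ) / W + 1) * ∑ a ∈ Icc 1 H, ∑ b ∈ range W, f a b := by rw [Finset.mul_sum]
    _ ≤ ((J:ℝ) / W + 1) * (((H:ℝ) / W + 1) * ∑ a ∈ range W, ∑ b ∈ range W, f a b) :=
        mul_le_mul_of_nonneg_left h2 (by positivity)
    _ = _ := by ring

/-! ### one-variable averages -/

lemma sum_prod_dvd_le (s : Finset ℕ) (hs : ∀ p ∈ s, p.Prime) (c : ℝ) (hc : 0 ≤ c) (N : ℕ) :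
    ∑ n ∈ Icc 1 N, ∏ p ∈ s, (if p ∣ n then 1 + c / p else 1) ≤
      N * ∏ p ∈ s, (1 + c / (p:ℝ) ^ 2) := by
  classical
  have h1 : ∀ n, ∏ p ∈ s, (if p ∣ n then 1 + c / p else 1) =
      ∑ T ∈ s.powerset, (if (∏ p ∈ T, p) ∣ n then ∏ p ∈ T, (c / (p:ℝ)) else 0) := by
    intro n
    have : ∀ p ∈ s, (if p ∣ n then 1 + c / p else 1) = 1 + (if p ∣ n then c / (p:ℝ) else 0) := by
      intro p _
      split_ifs <;> simp
    rw [Finset.prod_congr rfl this, Finset.prod_one_add]
    apply Finset.sum_congr rfl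
    intro T hT
    rw [mem_powerset] at hT
    by_cases hd : (∏ p ∈ T, p) ∣ n
    · rw [if_pos hd]
      apply Finset.prod_congr rfl
      intro p hp
      rw [if_pos ((Finset.dvd_prod_of_mem _ hp).trans hd)]
    · rw [if_neg hd]
      have : ∃ p ∈ T, ¬ p ∣ n := by
        by_contra hcon
        push Not at hcon
        apply hd
        apply Finset.prod_primes_dvd n (fun p hp => (hs p (hT hp)).prime) hcon
      obtain ⟨p, hp, hpn⟩ := this
      apply Finset.prod_eq_zero hp
      rw [if_neg hpn]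
  rw [Finset.sum_congr rfl (fun n _ => h1 n), Finset.sum_comm]
  have h2 : ∀ T ∈ s.powerset,
      ∑ n ∈ Icc 1 N, (if (∏ p ∈ T, p) ∣ n then ∏ p ∈ T, (c / (p:ℝ)) else 0) ≤
        N * ∏ p ∈ T, (c / (p:ℝ) ^ 2) := by
    intro T hT
    rw [mem_powerset] at hT
    rw [← Finset.sum_filter, Finset.sum_const, nsmul_eq_mul]
    have hpos : 0 < ∏ p ∈ T, p := Finset.prod_pos (fun p hp => (hs p (hT hp)).pos)
    have hcard : ((Icc 1 N).filter (fun n => (∏ p ∈ T, p) ∣ n)).card = N / (∏ p ∈ T, p) := by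
      have := Nat.Ioc_filter_dvd_card_eq_div N (∏ p ∈ T, p)
      rw [← this]
      rfl
    rw [hcard]
    have hle : ((N / (∏ p ∈ T, p) : ℕ) : ℝ) ≤ N / (∏ p ∈ T, (p:ℝ)) := by
      have := @Nat.cast_div_le ℝ _ _ _ N (∏ p ∈ T, p)
      rwa [Nat.cast_prod] at this
    have hcn : 0 ≤ ∏ p ∈ T, (c / (p:ℝ)) := Finset.prod_nonneg (fun p _ => by positivity)
    calc _ ≤ N / (∏ p ∈ T, (p:ℝ)) * ∏ p ∈ T, (c / (p:ℝ)) := mul_le_mul_of_nonneg_right hle hcn
      _ = N * ((∏ p ∈ T, (c / (p:ℝ))) / (∏ p ∈ T, (p:ℝ))) := by ring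
      _ = N * ∏ p ∈ T, (c / (p:ℝ) ^ 2) := by
        rw [← Finset.prod_div_distrib]
        congr 1
        apply Finset.prod_congr rfl
        intro p _
        rw [pow_two, div_div]
  calc _ ≤ ∑ T ∈ s.powerset, (N * ∏ p ∈ T, (c / (p:ℝ) ^ 2)) := Finset.sum_le_sum h2
    _ = N * ∑ T ∈ s.powerset, ∏ p ∈ T, (c / (p:ℝ) ^ 2) := by rw [Finset.mul_sum]
    _ = _ := by rw [Finset.prod_one_add]

/-! ### moments -/

/-- product of one-variable majorants -/
noncomputable def GG (s : Finset ℕ) (n : ℕ) : ℝ := ∏ p ∈ s, g p n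

/-- the two-variable majorant -/
noncomputable def TT (s : Finset ℕ) (a b : ℕ) : ℝ :=
  GG s a * GG s b * GG s (a + b) * GG s (dd a b)

/-- partial product of the singular series -/
noncomputable def PP (s : Finset ℕ) (a b : ℕ) : ℝ := ∏ p ∈ s, fac p a b

/-- the constant used in the crude bounds -/
noncomputable def C0 : ℝ := 2 ^ 33

lemma pow_le_lin (n : ℕ) (y : ℝ) (hy : 0 ≤ y) (hy1 : y ≤ 1) :
    (1 + y) ^ n ≤ 1 + (2 ^ n - 1) * y := by
  induction n with
  | zero => simp
  | succ n ih =>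
    have h2 : (1:ℝ) ≤ 2 ^ n := one_le_pow₀ (by norm_num)
    rw [pow_succ]
    calc (1 + y) ^ n * (1 + y) ≤ (1 + (2 ^ n - 1) * y) * (1 + y) :=
          mul_le_mul_of_nonneg_right ih (by linarith)
      _ = 1 + 2 ^ n * y + (2 ^ n - 1) * (y * y) := by ring
      _ ≤ 1 + 2 ^ n * y + (2 ^ n - 1) * (1 * y) := by
        have : y * y ≤ 1 * y := mul_le_mul_of_nonneg_right hy1 hy
        have h3 : (0:ℝ) ≤ 2 ^ n - 1 := by linarith
        have := mul_le_mul_of_nonneg_left this h3
        linarith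
      _ = _ := by rw [pow_succ]; ring

lemma g_pow_le {p : ℕ} (hp : p.Prime) (n : ℕ) :
    (g p n) ^ 8 ≤ (if p ∣ n then 1 + C0 / p else 1) := by
  unfold g
  split_ifs
  · have hp2 : (2:ℝ) ≤ p := by exact_mod_cast hp.two_le
    have hx : 1 / (p:ℝ) ≤ 1 / 2 := by
      apply one_div_le_one_div_of_le <;> linarith
    have hx0 : 0 ≤ 1 / (p:ℝ) := by positivity
    have h0 := one_sub_pos hp
    rw [← inv_pow, ← pow_mul]
    have h1 : (1 - 1 / (p:ℝ))⁻¹ ≤ 1 + 2 * (1 / p) := by
      rw [inv_le_iff_one_le_mul₀ h0]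
      nlinarith
    calc ((1 - 1 / (p:ℝ))⁻¹) ^ (4 * 8) ≤ (1 + 2 * (1 / (p:ℝ))) ^ (4 * 8) :=
          pow_le_pow_left₀ (by positivity) h1 _
      _ ≤ 1 + (2 ^ (4 * 8) - 1) * (2 * (1 / (p:ℝ))) :=
          pow_le_lin _ _ (by linarith) (by linarith)
      _ ≤ 1 + C0 / p := by
        unfold C0
        have : (2 ^ (4 * 8) - 1) * (2 * (1 / (p:ℝ))) = (2 ^ 33 - 2) * (1 / p) := by ring
        rw [this, div_eq_mul_one_div (2 ^ 33 : ℝ)]
        have := mul_le_mul_of_nonneg_right (show (2 ^ 33 - 2 : ℝ) ≤ 2 ^ 33 by norm_num) hx0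
        linarith
  · simp

lemma one_le_prod_real {ι : Type*} (s : Finset ι) (f : ι → ℝ) (h : ∀ i ∈ s, 1 ≤ f i) :
    1 ≤ ∏ i ∈ s, f i := by
  classical
  induction s using Finset.induction_on with
  | empty => simp
  | insert q P hq ih =>
    rw [Finset.prod_insert hq]
    exact one_le_mul_of_one_le_of_one_le (h _ (mem_insert_self _ _))
      (ih (fun i hi => h i (mem_insert_of_mem hi)))

lemma one_le_GG {s : Finset ℕ} (hs : ∀ p ∈ s, p.Prime) (n : ℕ) : 1 ≤ GG s n :=
  one_le_prod_real _ _ (fun p hp => one_le_g (hs p hp) n)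

lemma one_le_TT {s : Finset ℕ} (hs : ∀ p ∈ s, p.Prime) (a b : ℕ) : 1 ≤ TT s a b := by
  unfold TT
  exact one_le_mul_of_one_le_of_one_le (one_le_mul_of_one_le_of_one_le
    (one_le_mul_of_one_le_of_one_le (one_le_GG hs _) (one_le_GG hs _)) (one_le_GG hs _))
    (one_le_GG hs _)

lemma PP_nonneg {s : Finset ℕ} (hs : ∀ p ∈ s, p.Prime) (a b : ℕ) : 0 ≤ PP s a b :=
  Finset.prod_nonneg (fun p hp => fac_nonneg (hs p hp) a b)

lemma PP_le_TT {s : Finset ℕ} (hs : ∀ p ∈ s, p.Prime) (a b : ℕ) : PP s a b ≤ TT s a b := by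
  unfold PP TT GG
  rw [← Finset.prod_mul_distrib, ← Finset.prod_mul_distrib, ← Finset.prod_mul_distrib]
  exact Finset.prod_le_prod (fun p hp => fac_nonneg (hs p hp) a b)
    (fun p hp => fac_le_g (hs p hp) a b)

lemma sum_inv_sq_le (s : Finset ℕ) (w : ℕ) (hw : w ≠ 0) (hs : ∀ p ∈ s, w < p) :
    ∑ p ∈ s, ((p:ℝ) ^ 2)⁻¹ ≤ 1 / w := by
  set M := max w (s.sup id) with hM
  have hsub : s ⊆ Ioc w M := by
    intro p hp
    rw [mem_Ioc]
    exact ⟨hs p hp, le_max_of_le_right (Finset.le_sup (f := id) hp)⟩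
  calc ∑ p ∈ s, ((p:ℝ) ^ 2)⁻¹ ≤ ∑ p ∈ Ioc w M, ((p:ℝ) ^ 2)⁻¹ :=
        Finset.sum_le_sum_of_subset_of_nonneg hsub (fun p _ _ => by positivity)
    _ ≤ (w:ℝ)⁻¹ - (M:ℝ)⁻¹ := sum_Ioc_inv_sq_le_sub hw (le_max_left _ _)
    _ ≤ (w:ℝ)⁻¹ := by
      have : (0:ℝ) ≤ (M:ℝ)⁻¹ := by positivity
      linarith
    _ = 1 / w := by rw [one_div]

lemma moment_le (s : Finset ℕ) (hs : ∀ p ∈ s, p.Prime) (w : ℕ) (hw : w ≠ 0)
    (hsw : ∀ p ∈ s, w < p) (N : ℕ) :
    ∑ n ∈ Icc 1 N, (GG s n) ^ 8 ≤ N * Real.exp (C0 / w) := by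
  have hC : (0:ℝ) ≤ C0 := by unfold C0; positivity
  have h1 : ∀ n, (GG s n) ^ 8 ≤ ∏ p ∈ s, (if p ∣ n then 1 + C0 / p else 1) := by
    intro n
    unfold GG
    rw [← Finset.prod_pow]
    exact Finset.prod_le_prod (fun p hp => by
      have := one_le_g (hs p hp) n
      positivity) (fun p hp => g_pow_le (hs p hp) n)
  calc ∑ n ∈ Icc 1 N, (GG s n) ^ 8
      ≤ ∑ n ∈ Icc 1 N, ∏ p ∈ s, (if p ∣ n then 1 + C0 / p else 1) :=
        Finset.sum_le_sum (fun n _ => h1 n)
    _ ≤ N * ∏ p ∈ s, (1 + C0 / (p:ℝ) ^ 2) := sum_prod_dvd_le s hs C0 hC N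
    _ ≤ N * Real.exp (C0 / w) := by
      apply mul_le_mul_of_nonneg_left _ (Nat.cast_nonneg _)
      calc ∏ p ∈ s, (1 + C0 / (p:ℝ) ^ 2) ≤ ∏ p ∈ s, Real.exp (C0 / (p:ℝ) ^ 2) := by
            apply Finset.prod_le_prod
            · intro p _; positivity
            · intro p _
              have := Real.add_one_le_exp (C0 / (p:ℝ) ^ 2)
              linarith
        _ = Real.exp (∑ p ∈ s, C0 / (p:ℝ) ^ 2) := (Real.exp_sum _ _).symm
        _ ≤ Real.exp (C0 / w) := by
          apply Real.exp_le_exp.mpr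
          have h2 := sum_inv_sq_le s w hw hsw
          calc ∑ p ∈ s, C0 / (p:ℝ) ^ 2 = C0 * ∑ p ∈ s, ((p:ℝ) ^ 2)⁻¹ := by
                rw [Finset.mul_sum]; rfl
            _ ≤ C0 * (1 / w) := mul_le_mul_of_nonneg_left h2 hC
            _ = C0 / w := by ring

/-- sum over the box `[1,H] x [1,J]` off the diagonal -/
noncomputable def box (H J : ℕ) (f : ℕ → ℕ → ℝ) : ℝ :=
  ∑ a ∈ Icc 1 H, ∑ b ∈ (Icc 1 J).erase a, f a b

lemma box_mono (H J : ℕ) (f f' : ℕ → ℕ → ℝ) (h : ∀ a b, 1 ≤ a → 1 ≤ b → a ≠ b → f a b ≤ f' a b) :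
    box H J f ≤ box H J f' := by
  unfold box
  apply Finset.sum_le_sum
  intro a ha
  apply Finset.sum_le_sum
  intro b hb
  rw [mem_erase, mem_Icc] at hb
  rw [mem_Icc] at ha
  exact h a b ha.1 hb.2.1 (Ne.symm hb.1)

lemma box_four {h : ℕ → ℝ} (hh : ∀ n, 0 ≤ h n) {δ : ℝ} (hδ : 0 ≤ δ)
    (havg : ∀ N : ℕ, ∑ n ∈ Icc 1 N, h n ≤ N * δ) {H J : ℕ} (hHJ : H ≤ J) :
    box H J (fun a b => h a + h b + h (a + b) + h (dd a b)) ≤ 6 * (H * J * δ) := by
  have hJ0 : (0:ℝ) ≤ J := Nat.cast_nonneg _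
  have hH0 : (0:ℝ) ≤ H := Nat.cast_nonneg _
  have hHJ' : (H:ℝ) ≤ J := by exact_mod_cast hHJ
  have key : ∀ a ∈ Icc 1 H, ∑ b ∈ (Icc 1 J).erase a, (h a + h b + h (a + b) + h (dd a b)) ≤
      J * h a + J * δ + (H + J) * δ + 2 * (J * δ) := by
    intro a ha
    rw [mem_Icc] at ha
    rw [Finset.sum_add_distrib, Finset.sum_add_distrib, Finset.sum_add_distrib]
    have e1 : ∑ b ∈ (Icc 1 J).erase a, h a ≤ J * h a := by
      rw [Finset.sum_const, nsmul_eq_mul]
      apply mul_le_mul_of_nonneg_right _ (hh a)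
      have : ((Icc 1 J).erase a).card ≤ J := by
        calc _ ≤ (Icc 1 J).card := card_erase_le
          _ = J := by simp
      exact_mod_cast this
    have e2 : ∑ b ∈ (Icc 1 J).erase a, h b ≤ J * δ :=
      (Finset.sum_le_sum_of_subset_of_nonneg (erase_subset _ _) (fun n _ _ => hh n)).trans (havg J)
    have e3 : ∑ b ∈ (Icc 1 J).erase a, h (a + b) ≤ (H + J) * δ := by
      calc ∑ b ∈ (Icc 1 J).erase a, h (a + b) ≤ ∑ b ∈ (Icc 1 J), h (a + b) :=
            Finset.sum_le_sum_of_subset_of_nonneg (erase_subset _ _) (fun n _ _ => hh _)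
        _ = ∑ n ∈ (Icc 1 J).image (fun b => a + b), h n := by
            rw [Finset.sum_image]
            intro x _ y _ hxy
            exact Nat.add_left_cancel hxy
        _ ≤ ∑ n ∈ Icc 1 (H + J), h n := by
            apply Finset.sum_le_sum_of_subset_of_nonneg _ (fun n _ _ => hh n)
            intro n hn
            rw [mem_image] at hn
            obtain ⟨b, hb, rfl⟩ := hn
            rw [mem_Icc] at hb ⊢
            omega
        _ ≤ ((H + J : ℕ) : ℝ) * δ := havg _
        _ = _ := by push_cast; ring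
    have e4 : ∑ b ∈ (Icc 1 J).erase a, h (dd a b) ≤ 2 * (J * δ) := by
      have hsplit : (Icc 1 J).erase a ⊆ ((Icc 1 J).filter (fun b => b < a)) ∪
          ((Icc 1 J).filter (fun b => a < b)) := by
        intro b hb
        rw [mem_erase] at hb
        rw [mem_union, mem_filter, mem_filter]
        rcases lt_or_gt_of_ne hb.1 with h1 | h1
        · exact Or.inl ⟨hb.2, h1⟩
        · exact Or.inr ⟨hb.2, h1⟩
      have f1 : ∑ b ∈ (Icc 1 J).filter (fun b => b < a), h (dd a b) ≤ J * δ := by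
        calc ∑ b ∈ (Icc 1 J).filter (fun b => b < a), h (dd a b)
            = ∑ b ∈ (Icc 1 J).filter (fun b => b < a), h (a - b) := by
              apply Finset.sum_congr rfl
              intro b hb
              rw [mem_filter] at hb
              unfold dd
              rw [Nat.sub_eq_zero_of_le hb.2.le, add_zero]
          _ = ∑ n ∈ ((Icc 1 J).filter (fun b => b < a)).image (fun b => a - b), h n := by
              rw [Finset.sum_image]
              intro x hx y hy hxy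
              simp only [coe_filter, mem_Icc, Set.mem_ofPred_eq] at hx hy
              simp only at hxy
              omega
          _ ≤ ∑ n ∈ Icc 1 J, h n := by
              apply Finset.sum_le_sum_of_subset_of_nonneg _ (fun n _ _ => hh n)
              intro n hn
              rw [mem_image] at hn
              obtain ⟨b, hb, rfl⟩ := hn
              rw [mem_filter, mem_Icc] at hb
              rw [mem_Icc]
              omega
          _ ≤ _ := havg J
      have f2 : ∑ b ∈ (Icc 1 J).filter (fun b => a < b), h (dd a b) ≤ J * δ := by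
        calc ∑ b ∈ (Icc 1 J).filter (fun b => a < b), h (dd a b)
            = ∑ b ∈ (Icc 1 J).filter (fun b => a < b), h (b - a) := by
              apply Finset.sum_congr rfl
              intro b hb
              rw [mem_filter] at hb
              unfold dd
              rw [Nat.sub_eq_zero_of_le hb.2.le, zero_add]
          _ = ∑ n ∈ ((Icc 1 J).filter (fun b => a < b)).image (fun b => b - a), h n := by
              rw [Finset.sum_image]
              intro x hx y hy hxy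
              simp only [coe_filter, mem_Icc, Set.mem_ofPred_eq] at hx hy
              simp only at hxy
              omega
          _ ≤ ∑ n ∈ Icc 1 J, h n := by
              apply Finset.sum_le_sum_of_subset_of_nonneg _ (fun n _ _ => hh n)
              intro n hn
              rw [mem_image] at hn
              obtain ⟨b, hb, rfl⟩ := hn
              rw [mem_filter, mem_Icc] at hb
              rw [mem_Icc]
              omega
          _ ≤ _ := havg J
      calc ∑ b ∈ (Icc 1 J).erase a, h (dd a b)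
          ≤ ∑ b ∈ ((Icc 1 J).filter (fun b => b < a)) ∪ ((Icc 1 J).filter (fun b => a < b)),
            h (dd a b) := Finset.sum_le_sum_of_subset_of_nonneg hsplit (fun n _ _ => hh _)
        _ ≤ ∑ b ∈ (Icc 1 J).filter (fun b => b < a), h (dd a b) +
            ∑ b ∈ (Icc 1 J).filter (fun b => a < b), h (dd a b) :=
            by
              rw [Finset.sum_union]
              rw [Finset.disjoint_left]
              intro b hb hb2
              rw [mem_filter] at hb hb2
              omega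
        _ ≤ _ := by linarith
    linarith
  unfold box
  calc _ ≤ ∑ a ∈ Icc 1 H, (J * h a + J * δ + (H + J) * δ + 2 * (J * δ)) := Finset.sum_le_sum key
    _ = J * ∑ a ∈ Icc 1 H, h a + H * (J * δ + (H + J) * δ + 2 * (J * δ)) := by
      rw [Finset.mul_sum]
      have : ∀ a ∈ Icc 1 H, (J * h a + J * δ + (H + J) * δ + 2 * (J * δ) : ℝ) =
        J * h a + (J * δ + (H + J) * δ + 2 * (J * δ)) := by intro a _; ring
      rw [Finset.sum_congr rfl this, Finset.sum_add_distrib, Finset.sum_const, Nat.card_Icc,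
        nsmul_eq_mul, Nat.add_sub_cancel]
    _ ≤ J * (H * δ) + H * (J * δ + (J + J) * δ + 2 * (J * δ)) := by
      have h1 := mul_le_mul_of_nonneg_left (havg H) hJ0
      have h2 : (H:ℝ) * (J * δ + (H + J) * δ + 2 * (J * δ)) ≤
          H * (J * δ + (J + J) * δ + 2 * (J * δ)) := by
        apply mul_le_mul_of_nonneg_left _ hH0
        have : (H + J : ℝ) * δ ≤ (J + J) * δ := mul_le_mul_of_nonneg_right (by linarith) hδ
        linarith
      linarith
    _ = 6 * (H * J * δ) := by ring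

lemma amgm4 (x y z t : ℝ) : x * y * z * t ≤ (x ^ 4 + y ^ 4 + z ^ 4 + t ^ 4) / 4 := by
  nlinarith [sq_nonneg (x * y - z * t), sq_nonneg (x ^ 2 - y ^ 2), sq_nonneg (z ^ 2 - t ^ 2)]

/-! ### the singular series and its average -/

/-- the Hardy-Littlewood constant of `{0,a,b,a+b}` -/
noncomputable def SS (a b : ℕ) : ℝ := ∏' p : Nat.Primes, fac p a b

/-- the mean value of the singular series -/
noncomputable def KK : ℝ := ∏' p : Nat.Primes, (1 + 1 / ((p : ℝ) - 1) ^ 3)

lemma rho_lower {p : ℕ} (hp : p.Prime) (a b : ℕ) : p ≤ rho p a b + 4 := by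
  have : Fact p.Prime := ⟨hp⟩
  rw [rho_eq_zmod]
  set A := (univ.filter (fun n : ZMod p => n ≠ 0 ∧ n + a ≠ 0 ∧ n + b ≠ 0 ∧ n + a + b ≠ 0))
    with hA
  have hsub : (univ : Finset (ZMod p)) ⊆
      A ∪ {0, -(a : ZMod p), -(b : ZMod p), -((a : ZMod p) + b)} := by
    intro n _
    rw [mem_union]
    by_cases h : n ∈ A
    · exact Or.inl h
    · right
      rw [hA, mem_filter] at h
      simp only [mem_univ, true_and, ne_eq, not_and, not_not] at h
      simp only [mem_insert, mem_singleton]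
      by_cases h0 : n = 0
      · exact Or.inl h0
      by_cases h1 : n + a = 0
      · exact Or.inr (Or.inl (eq_neg_of_add_eq_zero_left h1))
      by_cases h2 : n + b = 0
      · exact Or.inr (Or.inr (Or.inl (eq_neg_of_add_eq_zero_left h2)))
      · right; right; right
        have := h h0 h1 h2
        rw [add_assoc] at this
        exact eq_neg_of_add_eq_zero_left this
  have h1 := card_le_card hsub
  rw [card_univ, ZMod.card] at h1
  have h2 : ({0, -(a : ZMod p), -(b : ZMod p), -((a : ZMod p) + b)} : Finset (ZMod p)).card ≤ 4 :=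
    card_le_four
  have h3 := card_union_le A {0, -(a : ZMod p), -(b : ZMod p), -((a : ZMod p) + b)}
  omega

lemma fac_sub_one_bound {p : ℕ} (hp : p.Prime) {a b : ℕ} (ha : ¬ p ∣ a) (hb : ¬ p ∣ b)
    (hab : ¬ p ∣ a + b) (hd : ¬ p ∣ dd a b) : |fac p a b - 1| ≤ 96 * ((p:ℝ) ^ 2)⁻¹ := by
  have h1 := fac_good hp ha hb hab hd
  rw [abs_of_nonpos (by linarith)]
  have hl : (p:ℝ) ≤ rho p a b + 4 := by exact_mod_cast rho_lower hp a b
  have hp0 : (0:ℝ) < p := by exact_mod_cast hp.pos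
  have hp2 : (2:ℝ) ≤ p := by exact_mod_cast hp.two_le
  set x := 1 / (p:ℝ) with hx
  have hx0 : 0 < x := by positivity
  have hx2 : x ≤ 1 / 2 := by
    apply one_div_le_one_div_of_le <;> linarith
  have h3 : 1 - 4 * x ≤ (rho p a b : ℝ) / p := by
    rw [le_div_iff₀ hp0]
    have : (1 - 4 * x) * p = p - 4 := by rw [hx]; field_simp
    rw [this]; linarith
  have h4 : (1 - x) ^ 4 ≤ 1 - 4 * x + 6 * x ^ 2 := by
    nlinarith [mul_pos hx0 (mul_pos hx0 hx0), pow_pos hx0 3]
  have h5 : (1/16 : ℝ) ≤ (1 - x) ^ 4 := by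
    have : (1/2:ℝ) ≤ 1 - x := by linarith
    calc (1/16:ℝ) = (1/2) ^ 4 := by norm_num
      _ ≤ _ := pow_le_pow_left₀ (by norm_num) this 4
  have h6 : (0:ℝ) < (1 - x) ^ 4 := by linarith
  have h7 : fac p a b = ((rho p a b : ℝ) / p) / (1 - x) ^ 4 := rfl
  have h8 : ((p:ℝ) ^ 2)⁻¹ = x ^ 2 := by rw [hx]; field_simp
  rw [h7, h8]
  have h9 : -(((rho p a b : ℝ) / p) / (1 - x) ^ 4 - 1) =
      ((1 - x) ^ 4 - (rho p a b : ℝ) / p) / (1 - x) ^ 4 := by
    rw [sub_div, div_self h6.ne']; ring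
  rw [h9, div_le_iff₀ h6]
  have h10 : 96 * x ^ 2 * (1/16) ≤ 96 * x ^ 2 * (1 - x) ^ 4 :=
    mul_le_mul_of_nonneg_left h5 (by positivity)
  linarith

lemma multipliable_fac {a b : ℕ} (ha : 1 ≤ a) (hb : 1 ≤ b) (hab : a ≠ b) :
    Multipliable (fun p : Nat.Primes => fac p a b) := by
  have hsum : Summable (fun p : Nat.Primes => fac p a b - 1) := by
    have h2 : Summable (fun p : Nat.Primes => 96 * (((p:ℕ):ℝ) ^ 2)⁻¹) := by
      apply Summable.mul_left
      have : Summable (fun n : ℕ => ((n:ℝ) ^ 2)⁻¹) := Real.summable_nat_pow_inv.mpr (by norm_num)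
      exact this.comp_injective (i := fun p : Nat.Primes => (p:ℕ)) Subtype.val_injective
    have hev : ∀ᶠ p : Nat.Primes in Filter.cofinite,
        ‖fac p a b - 1‖ ≤ 96 * (((p:ℕ):ℝ) ^ 2)⁻¹ := by
      have hfin : {p : Nat.Primes | (p:ℕ) ≤ a + b}.Finite := by
        apply Set.Finite.of_injOn (f := fun p : Nat.Primes => (p:ℕ)) (t := Set.Iic (a + b))
        · intro p hp; exact hp
        · exact Subtype.val_injective.injOn
        · exact Set.finite_Iic _
      refine (Filter.eventually_cofinite.mpr (hfin.subset ?_))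
      intro p hp
      by_contra hcon
      apply hp
      have hlt : a + b < (p:ℕ) := by
        simpa using hcon
      rw [Real.norm_eq_abs]
      apply fac_sub_one_bound p.2
      · intro h; have := Nat.le_of_dvd (by omega) h; omega
      · intro h; have := Nat.le_of_dvd (by omega) h; omega
      · intro h; have := Nat.le_of_dvd (by omega) h; omega
      · intro h
        unfold dd at h
        have := Nat.le_of_dvd (by omega) h
        omega
    exact Summable.of_norm_bounded_eventually h2 hev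
  have := Real.multipliable_one_add_of_summable hsum
  refine this.congr ?_
  intro p; ring

lemma multipliable_K : Multipliable (fun p : Nat.Primes => (1 + 1 / ((p : ℝ) - 1) ^ 3)) := by
  apply Real.multipliable_one_add_of_summable
  have h2 : Summable (fun p : Nat.Primes => 8 * (((p:ℕ):ℝ) ^ 2)⁻¹) := by
    apply Summable.mul_left
    have : Summable (fun n : ℕ => ((n:ℝ) ^ 2)⁻¹) := Real.summable_nat_pow_inv.mpr (by norm_num)
    exact this.comp_injective (i := fun p : Nat.Primes => (p:ℕ)) Subtype.val_injective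
  apply Summable.of_nonneg_of_le _ _ h2
  · intro p
    have : (1:ℝ) < p := by exact_mod_cast p.2.one_lt
    have : 0 < (p:ℝ) - 1 := by linarith
    positivity
  · intro p
    have hp2 : (2:ℝ) ≤ p := by exact_mod_cast p.2.two_le
    have h0 : 0 < (p:ℝ) - 1 := by linarith
    rw [← one_div, ← div_eq_mul_one_div, div_le_div_iff₀ (by positivity) (by positivity)]
    have h1 : (p:ℝ) ≤ 2 * (p - 1) := by linarith
    have h3 : (p:ℝ) ^ 3 ≤ (2 * (p - 1)) ^ 3 := pow_le_pow_left₀ (by linarith) h1 3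
    have h4 : (p:ℝ) ^ 2 ≤ (p:ℝ) ^ 3 := pow_le_pow_right₀ (by linarith) (by norm_num)
    calc 1 * ((p:ℕ):ℝ) ^ 2 ≤ ((p:ℕ):ℝ) ^ 3 := by linarith
      _ ≤ (2 * (((p:ℕ):ℝ) - 1)) ^ 3 := h3
      _ = 8 * (((p:ℕ):ℝ) - 1) ^ 3 := by ring

lemma box_eq_sum (H J : ℕ) (f : ℕ → ℕ → ℝ) :
    box H J f = ∑ x ∈ (Icc 1 H).sigma (fun a => (Icc 1 J).erase a), f x.1 x.2 := by
  unfold box
  rw [Finset.sum_sigma]

lemma box_cs (H J : ℕ) (f f' : ℕ → ℕ → ℝ) :
    box H J (fun a b => f a b * f' a b) ≤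
      Real.sqrt (box H J (fun a b => f a b ^ 2)) * Real.sqrt (box H J (fun a b => f' a b ^ 2)) := by
  rw [box_eq_sum, box_eq_sum, box_eq_sum]
  exact Real.sum_mul_le_sqrt_mul_sqrt _ _ _

/-- second moment of the majorant -/
lemma box_TT_sq (s : Finset ℕ) (hs : ∀ p ∈ s, p.Prime) {H J : ℕ} (hHJ : H ≤ J) :
    box H J (fun a b => TT s a b ^ 2) ≤ 3 / 2 * (H * J * Real.exp C0) := by
  have h1 := box_four (h := fun n => (GG s n) ^ 8) (fun n => by positivity)
    (δ := Real.exp C0) (by positivity)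
    (fun N => by
      have := moment_le s hs 1 one_ne_zero (fun p hp => (hs p hp).one_lt) N
      simpa using this) hHJ
  have h2 : box H J (fun a b => TT s a b ^ 2) ≤ box H J (fun a b =>
      (1/4) * ((GG s a) ^ 8 + (GG s b) ^ 8 + (GG s (a + b)) ^ 8 + (GG s (dd a b)) ^ 8)) := by
    apply box_mono
    intro a b _ _ _
    have := amgm4 ((GG s a) ^ 2) ((GG s b) ^ 2) ((GG s (a + b)) ^ 2) ((GG s (dd a b)) ^ 2)
    unfold TT
    calc _ = (GG s a) ^ 2 * (GG s b) ^ 2 * (GG s (a + b)) ^ 2 * (GG s (dd a b)) ^ 2 := by ring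
      _ ≤ _ := this
      _ = _ := by ring
  have h3 : box H J (fun a b =>
      (1/4) * ((GG s a) ^ 8 + (GG s b) ^ 8 + (GG s (a + b)) ^ 8 + (GG s (dd a b)) ^ 8)) =
      (1/4) * box H J (fun a b =>
      ((GG s a) ^ 8 + (GG s b) ^ 8 + (GG s (a + b)) ^ 8 + (GG s (dd a b)) ^ 8)) := by
    rw [box_eq_sum, box_eq_sum, Finset.mul_sum]
  rw [h3] at h2
  linarith

/-- second moment of the majorant minus one -/
lemma box_TT_sub_one_sq (s : Finset ℕ) (hs : ∀ p ∈ s, p.Prime) (w : ℕ) (hw : w ≠ 0)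
    (hsw : ∀ p ∈ s, w < p) {H J : ℕ} (hHJ : H ≤ J) :
    box H J (fun a b => (TT s a b - 1) ^ 2) ≤ 3 / 2 * (H * J * (Real.exp (C0 / w) - 1)) := by
  have hC : (0:ℝ) ≤ C0 := by unfold C0; positivity
  have h1 := box_four (h := fun n => (GG s n) ^ 8 - 1)
    (fun n => by
      have := one_le_pow₀ (one_le_GG hs n) (n := 8)
      linarith)
    (δ := Real.exp (C0 / w) - 1) (by
      have : (1:ℝ) ≤ Real.exp (C0 / w) := Real.one_le_exp (by positivity)
      linarith)
    (fun N => by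
      have := moment_le s hs w hw hsw N
      rw [Finset.sum_sub_distrib]
      simp only [sum_const, Nat.card_Icc, Nat.add_sub_cancel, nsmul_eq_mul, mul_one]
      linarith) hHJ
  have h2 : box H J (fun a b => (TT s a b - 1) ^ 2) ≤ box H J (fun a b =>
      (1/4) * (((GG s a) ^ 8 - 1) + ((GG s b) ^ 8 - 1) + ((GG s (a + b)) ^ 8 - 1) +
        ((GG s (dd a b)) ^ 8 - 1))) := by
    apply box_mono
    intro a b _ _ _
    have h0 := one_le_TT hs a b
    have := amgm4 ((GG s a) ^ 2) ((GG s b) ^ 2) ((GG s (a + b)) ^ 2) ((GG s (dd a b)) ^ 2)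
    have e : TT s a b ^ 2 =
      (GG s a) ^ 2 * (GG s b) ^ 2 * (GG s (a + b)) ^ 2 * (GG s (dd a b)) ^ 2 := by
      unfold TT; ring
    have e8 : ∀ n, (GG s n ^ 2) ^ 4 = GG s n ^ 8 := fun n => by ring
    rw [← e, e8, e8, e8, e8] at this
    nlinarith
  have h3 : box H J (fun a b =>
      (1/4) * (((GG s a) ^ 8 - 1) + ((GG s b) ^ 8 - 1) + ((GG s (a + b)) ^ 8 - 1) +
        ((GG s (dd a b)) ^ 8 - 1))) =
      (1/4) * box H J (fun a b =>
      (((GG s a) ^ 8 - 1) + ((GG s b) ^ 8 - 1) + ((GG s (a + b)) ^ 8 - 1) +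
        ((GG s (dd a b)) ^ 8 - 1))) := by
    rw [box_eq_sum, box_eq_sum, Finset.mul_sum]
  rw [h3] at h2
  linarith

lemma period_mean' (P : Finset ℕ) (hP : ∀ p ∈ P, p.Prime) :
    ∑ a ∈ range (∏ p ∈ P, p), ∑ b ∈ range (∏ p ∈ P, p), PP P a b =
      ((∏ p ∈ P, p : ℕ) : ℝ) ^ 2 * ∏ p ∈ P, (1 + 1 / ((p:ℝ) - 1) ^ 3) := by
  have := period_mean P hP
  unfold PP
  rw [this, Finset.prod_mul_distrib, Finset.prod_pow]
  push_cast
  rfl

/-- the periodic main term -/
lemma box_PP_le (P : Finset ℕ) (hP : ∀ p ∈ P, p.Prime) (H J : ℕ) :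
    box H J (PP P) ≤ ((H:ℝ) + (∏ p ∈ P, p : ℕ)) * (J + (∏ p ∈ P, p : ℕ)) *
      ∏ p ∈ P, (1 + 1 / ((p:ℝ) - 1) ^ 3) := by
  set W := ∏ p ∈ P, p with hW
  have hWpos : 0 < W := Finset.prod_pos (fun p hp => (hP p hp).pos)
  have hdiv : ∀ p ∈ P, p ∣ W := fun p hp => Finset.dvd_prod_of_mem _ hp
  have hper1 : ∀ a b, PP P (a + W) b = PP P a b := by
    intro a b
    unfold PP
    apply Finset.prod_congr rfl
    intro p hp
    rw [← fac_mod p (a + W), ← fac_mod p a b]
    obtain ⟨k, hk⟩ := hdiv p hp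
    rw [hk, Nat.add_mul_mod_self_left]
  have hper2 : ∀ a b, PP P a (b + W) = PP P a b := by
    intro a b
    unfold PP
    apply Finset.prod_congr rfl
    intro p hp
    rw [← fac_mod p a (b + W), ← fac_mod p a b]
    obtain ⟨k, hk⟩ := hdiv p hp
    rw [hk, Nat.add_mul_mod_self_left]
  have h1 := sum2_Icc_le_period hWpos (PP P) (PP_nonneg hP) hper1 hper2 H J
  rw [period_mean' P hP] at h1
  have h2 : box H J (PP P) ≤ ∑ a ∈ Icc 1 H, ∑ b ∈ Icc 1 J, PP P a b := by
    unfold box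
    apply Finset.sum_le_sum
    intro a _
    exact Finset.sum_le_sum_of_subset_of_nonneg (erase_subset _ _)
      (fun b _ _ => PP_nonneg hP a b)
  have hW0 : (0:ℝ) < W := by exact_mod_cast hWpos
  calc _ ≤ _ := h2
    _ ≤ _ := h1
    _ = _ := by
      rw [← hW]
      field_simp

/-- bound for every finite partial product containing a given set of small primes -/
lemma box_PP_union_le (P s : Finset ℕ) (hP : ∀ p ∈ P, p.Prime) (hs : ∀ p ∈ s, p.Prime)
    (hdisj : Disjoint P s) (w : ℕ) (hw : w ≠ 0) (hsw : ∀ p ∈ s, w < p) {H J : ℕ} (hHJ : H ≤ J) :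
    box H J (PP (P ∪ s)) ≤ ((H:ℝ) + (∏ p ∈ P, p : ℕ)) * (J + (∏ p ∈ P, p : ℕ)) *
      (∏ p ∈ P, (1 + 1 / ((p:ℝ) - 1) ^ 3)) +
      3 / 2 * (H * J) * Real.sqrt (Real.exp C0 * (Real.exp (C0 / w) - 1)) := by
  have hC : (0:ℝ) ≤ C0 := by unfold C0; positivity
  have h1 : box H J (PP (P ∪ s)) ≤ box H J (fun a b => PP P a b + TT P a b * (TT s a b - 1)) := by
    apply box_mono
    intro a b _ _ _
    have e : PP (P ∪ s) a b = PP P a b * PP s a b := by
      unfold PP; exact Finset.prod_union hdisj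
    rw [e]
    have p0 := PP_nonneg hP a b
    have p1 := PP_le_TT hs a b
    have p2 := one_le_TT hs a b
    have p3 := PP_le_TT hP a b
    calc PP P a b * PP s a b ≤ PP P a b * TT s a b := mul_le_mul_of_nonneg_left p1 p0
      _ = PP P a b + PP P a b * (TT s a b - 1) := by ring
      _ ≤ PP P a b + TT P a b * (TT s a b - 1) := by
        have := mul_le_mul_of_nonneg_right p3 (show 0 ≤ TT s a b - 1 by linarith)
        linarith
  have h2 : box H J (fun a b => PP P a b + TT P a b * (TT s a b - 1)) =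
      box H J (PP P) + box H J (fun a b => TT P a b * (TT s a b - 1)) := by
    rw [box_eq_sum, box_eq_sum, box_eq_sum, Finset.sum_add_distrib]
  have h3 := box_cs H J (TT P) (fun a b => TT s a b - 1)
  have h4 := box_TT_sq P hP hHJ
  have h5 := box_TT_sub_one_sq s hs w hw hsw hHJ
  have h6 := box_PP_le P hP H J
  have h7 : Real.sqrt (box H J (fun a b => TT P a b ^ 2)) *
      Real.sqrt (box H J (fun a b => (TT s a b - 1) ^ 2)) ≤
      3 / 2 * (H * J) * Real.sqrt (Real.exp C0 * (Real.exp (C0 / w) - 1)) := by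
    have hexp : (0:ℝ) ≤ Real.exp (C0 / w) - 1 := by
      have : (1:ℝ) ≤ Real.exp (C0 / w) := Real.one_le_exp (by positivity)
      linarith
    calc _ ≤ Real.sqrt (3 / 2 * (H * J * Real.exp C0)) *
          Real.sqrt (3 / 2 * (H * J * (Real.exp (C0 / w) - 1))) :=
          mul_le_mul (Real.sqrt_le_sqrt h4) (Real.sqrt_le_sqrt h5) (Real.sqrt_nonneg _)
            (Real.sqrt_nonneg _)
      _ = Real.sqrt ((3 / 2 * (H * J)) ^ 2 * (Real.exp C0 * (Real.exp (C0 / w) - 1))) := by
          rw [← Real.sqrt_mul (by positivity)]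
          congr 1; ring
      _ = _ := by
          rw [Real.sqrt_mul (by positivity), Real.sqrt_sq (by positivity)]
  linarith

lemma box_symm (H J : ℕ) (f : ℕ → ℕ → ℝ) (hf : ∀ a b, f a b = f b a) :
    box H J f = box J H f := by
  unfold box
  have e : ∀ (H J : ℕ), ∑ a ∈ Icc 1 H, ∑ b ∈ (Icc 1 J).erase a, f a b =
      ∑ a ∈ Icc 1 H, ∑ b ∈ Icc 1 J, (if b ≠ a then f a b else 0) := by
    intro H J
    apply Finset.sum_congr rfl
    intro a _
    rw [← Finset.sum_filter]
    congr 1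
    ext b
    simp only [mem_erase, mem_filter]
    tauto
  rw [e, e, Finset.sum_comm]
  apply Finset.sum_congr rfl
  intro a _
  apply Finset.sum_congr rfl
  intro b _
  rw [hf]
  by_cases h : a = b
  · rw [if_neg (by simpa using h), if_neg (by simpa using h.symm)]
  · rw [if_pos h, if_pos (Ne.symm h)]

lemma SS_symm (a b : ℕ) : SS a b = SS b a := by
  unfold SS
  congr 1
  ext p
  exact fac_symm p a b

lemma KK_ge (P : Finset ℕ) (hP : ∀ p ∈ P, p.Prime) :
    ∏ p ∈ P, (1 + 1 / ((p:ℝ) - 1) ^ 3) ≤ KK := by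
  classical
  have hf1 : ∀ p : ℕ, p.Prime → (1:ℝ) ≤ 1 + 1 / ((p:ℝ) - 1) ^ 3 := by
    intro p hp
    have : (1:ℝ) < p := by exact_mod_cast hp.one_lt
    have h0 : 0 < (p:ℝ) - 1 := by linarith
    have : 0 < 1 / ((p:ℝ) - 1) ^ 3 := by positivity
    linarith
  have ht := multipliable_K.hasProd
  refine ge_of_tendsto ht ?_
  set P0 : Finset Nat.Primes := P.subtype Nat.Prime with hP0
  filter_upwards [Filter.eventually_ge_atTop P0] with F hF
  have e1 : ∏ p ∈ P, (1 + 1 / ((p:ℝ) - 1) ^ 3) = ∏ p ∈ P0, (1 + 1 / (((p:ℕ):ℝ) - 1) ^ 3) := by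
    rw [hP0]
    exact (Finset.prod_subtype_of_mem (fun p : ℕ => (1 + 1 / ((p:ℝ) - 1) ^ 3)) hP).symm
  rw [e1]
  have hsub : P0 ⊆ F := hF
  rw [← Finset.prod_sdiff hsub]
  have h1 : 1 ≤ ∏ p ∈ F \ P0, (1 + 1 / (((p:ℕ):ℝ) - 1) ^ 3) :=
    one_le_prod_real _ _ (fun p _ => hf1 p p.2)
  have h2 : 0 ≤ ∏ p ∈ P0, (1 + 1 / (((p:ℕ):ℝ) - 1) ^ 3) :=
    Finset.prod_nonneg (fun p _ => by have := hf1 p p.2; linarith)
  exact le_mul_of_one_le_left h2 h1

lemma one_le_KK : 1 ≤ KK := by
  have := KK_ge ∅ (by simp)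
  simpa using this

lemma box_SS_le_aux (w : ℕ) (hw : w ≠ 0) {H J : ℕ} (hHJ : H ≤ J) :
    box H J SS ≤ ((H:ℝ) + (∏ p ∈ (Icc 1 w).filter Nat.Prime, p : ℕ)) *
      (J + (∏ p ∈ (Icc 1 w).filter Nat.Prime, p : ℕ)) * KK +
      3 / 2 * (H * J) * Real.sqrt (Real.exp C0 * (Real.exp (C0 / w) - 1)) := by
  classical
  set P := (Icc 1 w).filter Nat.Prime with hPdef
  have hP : ∀ p ∈ P, p.Prime := fun p hp => (mem_filter.mp hp).2
  set P0 : Finset Nat.Primes := P.subtype Nat.Prime with hP0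
  have ht : Filter.Tendsto (fun F : Finset Nat.Primes =>
      box H J (fun a b => ∏ p ∈ F, fac p a b)) Filter.atTop (nhds (box H J SS)) := by
    unfold box
    apply tendsto_finsetSum
    intro a ha
    apply tendsto_finsetSum
    intro b hb
    rw [mem_erase, mem_Icc] at hb
    rw [mem_Icc] at ha
    exact (multipliable_fac ha.1 hb.2.1 (Ne.symm hb.1)).hasProd
  refine le_of_tendsto ht ?_
  filter_upwards [Filter.eventually_ge_atTop P0] with F hF
  set Q : Finset ℕ := F.image (fun p : Nat.Primes => (p : ℕ)) with hQ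
  have hQp : ∀ p ∈ Q, p.Prime := by
    intro p hp
    rw [hQ, mem_image] at hp
    obtain ⟨q, _, rfl⟩ := hp
    exact q.2
  have hPQ : P ⊆ Q := by
    intro p hp
    rw [hQ, mem_image]
    refine ⟨⟨p, hP p hp⟩, hF ?_, rfl⟩
    exact mem_subtype.mpr hp
  have e1 : (fun a b => ∏ p ∈ F, fac p a b) = PP (P ∪ (Q \ P)) := by
    ext a b
    rw [Finset.union_sdiff_of_subset hPQ]
    unfold PP
    rw [hQ, Finset.prod_image]
    intro x _ y _ hxy
    exact Nat.Primes.coe_nat_injective hxy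
  rw [e1]
  have h1 := box_PP_union_le P (Q \ P) hP (fun p hp => hQp p (mem_sdiff.mp hp).1)
    disjoint_sdiff w hw (by
      intro p hp
      rw [mem_sdiff] at hp
      by_contra hcon
      apply hp.2
      rw [hPdef, mem_filter, mem_Icc]
      exact ⟨⟨(hQp p hp.1).one_lt.le, by omega⟩, hQp p hp.1⟩) hHJ
  refine h1.trans ?_
  have h2 := KK_ge P hP
  have h3 : (0:ℝ) ≤ ((H:ℝ) + (∏ p ∈ P, p : ℕ)) * (J + (∏ p ∈ P, p : ℕ)) := by positivity
  have := mul_le_mul_of_nonneg_left h2 h3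
  linarith

/-- **Average of the parallelogram constants (flat weights).** -/
theorem box_SS_le (ε : ℝ) (hε : 0 < ε) :
    ∃ H0 : ℕ, ∀ H J : ℕ, H0 ≤ H → H0 ≤ J → box H J SS ≤ (1 + ε) * KK * (H * J) := by
  have hC : (0:ℝ) ≤ C0 := by unfold C0; positivity
  have hK := one_le_KK
  -- choose w
  have hlim : Filter.Tendsto (fun w : ℕ => 3 / 2 * Real.sqrt (Real.exp C0 *
      (Real.exp (C0 / (w:ℝ)) - 1))) Filter.atTop (nhds 0) := by
    have h1 : Filter.Tendsto (fun w : ℕ => C0 / (w:ℝ)) Filter.atTop (nhds 0) :=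
      tendsto_const_div_atTop_nhds_zero_nat C0
    have h2 : Filter.Tendsto (fun w : ℕ => 3 / 2 * Real.sqrt (Real.exp C0 *
      (Real.exp (C0 / (w:ℝ)) - 1))) Filter.atTop
      (nhds (3 / 2 * Real.sqrt (Real.exp C0 * (Real.exp 0 - 1)))) := by
      apply Filter.Tendsto.const_mul
      apply Filter.Tendsto.sqrt
      apply Filter.Tendsto.const_mul
      apply Filter.Tendsto.sub_const
      exact (Real.continuous_exp.tendsto 0).comp h1
    simpa using h2
  have hev := hlim.eventually (gt_mem_nhds (show (0:ℝ) < ε / 2 by positivity))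
  obtain ⟨w, hw1, hw⟩ := ((Filter.eventually_ge_atTop 1).and hev).exists
  have hw0 : w ≠ 0 := by omega
  set W : ℕ := ∏ p ∈ (Icc 1 w).filter Nat.Prime, p with hW
  -- choose H0
  have hlim2 : Filter.Tendsto (fun n : ℕ => (1 + (W:ℝ) / n) ^ 2) Filter.atTop (nhds 1) := by
    have h1 : Filter.Tendsto (fun n : ℕ => (W:ℝ) / (n:ℝ)) Filter.atTop (nhds 0) :=
      tendsto_const_div_atTop_nhds_zero_nat _
    have h2 : Filter.Tendsto (fun n : ℕ => (1 + (W:ℝ) / n) ^ 2) Filter.atTop
        (nhds ((1 + 0) ^ 2)) := (h1.const_add 1).pow 2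
    simpa using h2
  have hev2 := hlim2.eventually (gt_mem_nhds (show (1:ℝ) < 1 + ε / 2 by linarith))
  obtain ⟨H0, hH01, hH0⟩ := ((Filter.eventually_ge_atTop 1).and hev2).exists
  have main : ∀ H J : ℕ, H ≤ J → H0 ≤ H → box H J SS ≤ (1 + ε) * KK * (H * J) := by
    intro H J hHJ hH
    have h1 := box_SS_le_aux w hw0 hHJ
    rw [← hW] at h1
    have hH0' : (0:ℝ) < H0 := by exact_mod_cast hH01
    have hHpos : (0:ℝ) < H := lt_of_lt_of_le hH0' (by exact_mod_cast hH)
    have hJpos : (0:ℝ) < J := lt_of_lt_of_le hHpos (by exact_mod_cast hHJ)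
    have hHH : (H:ℝ) + W ≤ H * (1 + W / H0) := by
      have : (W:ℝ) ≤ H * (W / H0) := by
        rw [← mul_div_assoc, le_div_iff₀ hH0']
        have : (H0:ℝ) ≤ H := by exact_mod_cast hH
        nlinarith [Nat.cast_nonneg (α := ℝ) W]
      linarith
    have hJJ : (J:ℝ) + W ≤ J * (1 + W / H0) := by
      have : (W:ℝ) ≤ J * (W / H0) := by
        rw [← mul_div_assoc, le_div_iff₀ hH0']
        have : (H0:ℝ) ≤ J := by exact_mod_cast hH.trans hHJ
        nlinarith [Nat.cast_nonneg (α := ℝ) W]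
      linarith
    have h2 : ((H:ℝ) + W) * (J + W) ≤ (H * J) * (1 + ε / 2) := by
      calc ((H:ℝ) + W) * (J + W) ≤ (H * (1 + W / H0)) * (J * (1 + W / H0)) :=
            mul_le_mul hHH hJJ (by positivity) (by positivity)
        _ = (H * J) * (1 + W / H0) ^ 2 := by ring
        _ ≤ _ := mul_le_mul_of_nonneg_left hH0.le (by positivity)
    have h3 : ((H:ℝ) + W) * (J + W) * KK ≤ (H * J) * (1 + ε / 2) * KK :=
      mul_le_mul_of_nonneg_right h2 (by linarith)
    have h4 : 3 / 2 * ((H:ℝ) * J) * Real.sqrt (Real.exp C0 * (Real.exp (C0 / w) - 1)) ≤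
        (H * J) * (ε / 2) * KK := by
      calc _ = (H * J) * (3 / 2 * Real.sqrt (Real.exp C0 * (Real.exp (C0 / w) - 1))) := by ring
        _ ≤ (H * J) * (ε / 2) := mul_le_mul_of_nonneg_left hw.le (by positivity)
        _ ≤ (H * J) * (ε / 2) * KK := le_mul_of_one_le_right (by positivity) hK
    calc _ ≤ _ := h1
      _ ≤ (H * J) * (1 + ε / 2) * KK + (H * J) * (ε / 2) * KK := by linarith
      _ = _ := by ring
  refine ⟨H0, fun H J hH hJ => ?_⟩
  rcases le_total H J with h | h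
  · exact main H J h hH
  · rw [box_symm H J SS SS_symm]
    have := main J H h hJ
    calc _ ≤ _ := this
      _ = _ := by ring

lemma SS_nonneg {a b : ℕ} (ha : 1 ≤ a) (hb : 1 ≤ b) (hab : a ≠ b) : 0 ≤ SS a b := by
  refine ge_of_tendsto (multipliable_fac ha hb hab).hasProd ?_
  filter_upwards with F
  exact Finset.prod_nonneg (fun p _ => fac_nonneg p.2 a b)

lemma box_SS_mono {H J H' J' : ℕ} (hH : H ≤ H') (hJ : J ≤ J') : box H J SS ≤ box H' J' SS := by
  unfold box
  calc ∑ a ∈ Icc 1 H, ∑ b ∈ (Icc 1 J).erase a, SS a b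
      ≤ ∑ a ∈ Icc 1 H, ∑ b ∈ (Icc 1 J').erase a, SS a b := by
        apply Finset.sum_le_sum
        intro a ha
        apply Finset.sum_le_sum_of_subset_of_nonneg
        · exact Finset.erase_subset_erase _ (Icc_subset_Icc_right hJ)
        · intro b hb _
          rw [mem_erase, mem_Icc] at hb
          rw [mem_Icc] at ha
          exact SS_nonneg ha.1 hb.2.1 (Ne.symm hb.1)
    _ ≤ ∑ a ∈ Icc 1 H', ∑ b ∈ (Icc 1 J').erase a, SS a b := by
        apply Finset.sum_le_sum_of_subset_of_nonneg (Icc_subset_Icc_right hH)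
        intro a ha _
        apply Finset.sum_nonneg
        intro b hb
        rw [mem_erase, mem_Icc] at hb
        rw [mem_Icc] at ha
        exact SS_nonneg ha.1 hb.2.1 (Ne.symm hb.1)

/-- weighted sums as averages of box sums -/
lemma box_weight (H J : ℕ) (f : ℕ → ℕ → ℝ) :
    box H J (fun a b => ((H:ℝ) - a) * (J - b) * f a b) =
      ∑ h ∈ range H, ∑ j ∈ range J, box h j f := by
  have e : ∀ (h j : ℕ), h ≤ H → j ≤ J → box h j f = ∑ a ∈ Icc 1 H, ∑ b ∈ (Icc 1 J).erase a,
      (if a ≤ h then (if b ≤ j then f a b else 0) else 0) := by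
    intro h j hh hj
    unfold box
    have h1 : Icc 1 h = (Icc 1 H).filter (fun a => a ≤ h) := by
      ext a; simp only [mem_Icc, mem_filter]; omega
    rw [h1, Finset.sum_filter]
    apply Finset.sum_congr rfl
    intro a _
    split_ifs with hah
    · have h2 : (Icc 1 j).erase a = ((Icc 1 J).erase a).filter (fun b => b ≤ j) := by
        ext b; simp only [mem_Icc, mem_filter, mem_erase]; omega
      rw [h2, Finset.sum_filter]
    · simp
  have h1 : ∑ h ∈ range H, ∑ j ∈ range J, box h j f = ∑ h ∈ range H, ∑ j ∈ range J,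
      ∑ a ∈ Icc 1 H, ∑ b ∈ (Icc 1 J).erase a,
      (if a ≤ h then (if b ≤ j then f a b else 0) else 0) := by
    apply Finset.sum_congr rfl
    intro h hh
    apply Finset.sum_congr rfl
    intro j hj
    exact e h j (mem_range.mp hh).le (mem_range.mp hj).le
  rw [h1]
  have h2 : ∀ h, ∑ j ∈ range J, ∑ a ∈ Icc 1 H, ∑ b ∈ (Icc 1 J).erase a,
      (if a ≤ h then (if b ≤ j then f a b else 0) else 0) =
      ∑ a ∈ Icc 1 H, ∑ b ∈ (Icc 1 J).erase a, ∑ j ∈ range J,
      (if a ≤ h then (if b ≤ j then f a b else 0) else 0) := by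
    intro h
    rw [Finset.sum_comm]
    apply Finset.sum_congr rfl
    intro a _
    rw [Finset.sum_comm]
  rw [Finset.sum_congr rfl (fun h _ => h2 h), Finset.sum_comm]
  unfold box
  apply Finset.sum_congr rfl
  intro a ha
  rw [Finset.sum_comm]
  apply Finset.sum_congr rfl
  intro b hb
  rw [mem_erase, mem_Icc] at hb
  rw [mem_Icc] at ha
  have c1 : ∀ (n m : ℕ) (hnm : n ≤ m), ((range m).filter (fun i => n ≤ i)).card = m - n := by
    intro n m hnm
    have : (range m).filter (fun i => n ≤ i) = Ico n m := by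
      ext i; simp only [mem_filter, mem_range, mem_Ico]; omega
    rw [this, Nat.card_Ico]
  have h3 : ∀ h, ∑ j ∈ range J, (if a ≤ h then (if b ≤ j then f a b else 0) else 0) =
      if a ≤ h then ((J:ℝ) - b) * f a b else 0 := by
    intro h
    split_ifs with hah
    · rw [← Finset.sum_filter, Finset.sum_const, nsmul_eq_mul, c1 b J hb.2.2,
        Nat.cast_sub hb.2.2]
    · simp
  rw [Finset.sum_congr rfl (fun h _ => h3 h), ← Finset.sum_filter, Finset.sum_const,
    nsmul_eq_mul, c1 a H ha.2, Nat.cast_sub ha.2]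
  ring

/-- **Average of the parallelogram constants (Fejer weights).** -/
theorem box_SS_weighted_le (ε : ℝ) (hε : 0 < ε) :
    ∃ H0 : ℕ, ∀ H J : ℕ, H0 ≤ H → H0 ≤ J →
      box H J (fun a b => (1 - a / (H:ℝ)) * (1 - b / (J:ℝ)) * SS a b) ≤
        (1 + ε) * KK * ((H / 2) * (J / 2)) := by
  have hK := one_le_KK
  obtain ⟨M, hM⟩ := box_SS_le (ε / 2) (by positivity)
  have key : ∀ h j : ℕ, box h j SS ≤ (1 + ε / 2) * KK * (((h:ℝ) + M) * (j + M)) := by
    intro h j
    calc box h j SS ≤ box (h + M) (j + M) SS := box_SS_mono (by omega) (by omega)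
      _ ≤ (1 + ε / 2) * KK * ((h + M : ℕ) * (j + M : ℕ)) := hM _ _ (by omega) (by omega)
      _ = _ := by push_cast; ring
  have hsum : ∀ H : ℕ, ∑ h ∈ range H, ((h:ℝ) + M) ≤ H * (H / 2 + M) := by
    intro H
    rw [Finset.sum_add_distrib, Finset.sum_const, card_range, nsmul_eq_mul]
    have : ∑ h ∈ range H, (h:ℝ) ≤ H * (H / 2) := by
      induction H with
      | zero => simp
      | succ n ih =>
        rw [Finset.sum_range_succ]
        push_cast
        nlinarith
    linarith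
  have hlim2 : Filter.Tendsto (fun n : ℕ => (1 + ((2 * M : ℝ)) / n) ^ 2) Filter.atTop (nhds 1) := by
    have h1 : Filter.Tendsto (fun n : ℕ => (2 * M : ℝ) / (n:ℝ)) Filter.atTop (nhds 0) :=
      tendsto_const_div_atTop_nhds_zero_nat _
    have h2 : Filter.Tendsto (fun n : ℕ => (1 + (2 * M : ℝ) / n) ^ 2) Filter.atTop
        (nhds ((1 + 0) ^ 2)) := (h1.const_add 1).pow 2
    simpa using h2
  have hlt : (1:ℝ) < (1 + ε) / (1 + ε / 2) := by
    rw [lt_div_iff₀ (by positivity)]; linarith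
  have hev2 := hlim2.eventually (gt_mem_nhds hlt)
  obtain ⟨H0, hH01, hH0⟩ := ((Filter.eventually_ge_atTop 1).and hev2).exists
  refine ⟨H0, fun H J hH hJ => ?_⟩
  have hH0' : (0:ℝ) < H0 := by exact_mod_cast hH01
  have hHpos : (0:ℝ) < H := lt_of_lt_of_le hH0' (by exact_mod_cast hH)
  have hJpos : (0:ℝ) < J := lt_of_lt_of_le hH0' (by exact_mod_cast hJ)
  have e1 : box H J (fun a b => (1 - a / (H:ℝ)) * (1 - b / (J:ℝ)) * SS a b) =
      (1 / (H * J)) * box H J (fun a b => ((H:ℝ) - a) * (J - b) * SS a b) := by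
    rw [box_eq_sum, box_eq_sum, Finset.mul_sum]
    apply Finset.sum_congr rfl
    intro x _
    field_simp
  rw [e1, box_weight]
  have h2 : ∑ h ∈ range H, ∑ j ∈ range J, box h j SS ≤
      (1 + ε / 2) * KK * ((H * (H / 2 + M)) * (J * (J / 2 + M))) := by
    calc ∑ h ∈ range H, ∑ j ∈ range J, box h j SS
        ≤ ∑ h ∈ range H, ∑ j ∈ range J, (1 + ε / 2) * KK * (((h:ℝ) + M) * (j + M)) :=
          Finset.sum_le_sum (fun h _ => Finset.sum_le_sum (fun j _ => key h j))
      _ = (1 + ε / 2) * KK * ((∑ h ∈ range H, ((h:ℝ) + M)) * (∑ j ∈ range J, ((j:ℝ) + M))) := by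
          rw [Finset.sum_mul_sum, Finset.mul_sum]
          apply Finset.sum_congr rfl
          intro h _
          rw [Finset.mul_sum]
      _ ≤ _ := by
          apply mul_le_mul_of_nonneg_left _ (by positivity)
          apply mul_le_mul (hsum H) (hsum J)
          · exact Finset.sum_nonneg (fun j _ => by positivity)
          · positivity
  have hHH : (H:ℝ) / 2 + M ≤ H / 2 * (1 + 2 * M / H0) := by
    have : (M:ℝ) ≤ H / 2 * (2 * M / H0) := by
      rw [← mul_div_assoc, le_div_iff₀ hH0']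
      have : (H0:ℝ) ≤ H := by exact_mod_cast hH
      nlinarith [Nat.cast_nonneg (α := ℝ) M]
    linarith
  have hJJ : (J:ℝ) / 2 + M ≤ J / 2 * (1 + 2 * M / H0) := by
    have : (M:ℝ) ≤ J / 2 * (2 * M / H0) := by
      rw [← mul_div_assoc, le_div_iff₀ hH0']
      have : (H0:ℝ) ≤ J := by exact_mod_cast hJ
      nlinarith [Nat.cast_nonneg (α := ℝ) M]
    linarith
  calc 1 / ((H:ℝ) * J) * ∑ h ∈ range H, ∑ j ∈ range J, box h j SS
      ≤ 1 / ((H:ℝ) * J) * ((1 + ε / 2) * KK * ((H * (H / 2 + M)) * (J * (J / 2 + M)))) :=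
        mul_le_mul_of_nonneg_left h2 (by positivity)
    _ = (1 + ε / 2) * KK * ((H / 2 + M) * (J / 2 + M)) := by field_simp
    _ ≤ (1 + ε / 2) * KK * ((H / 2 * (1 + 2 * M / H0)) * (J / 2 * (1 + 2 * M / H0))) := by
        apply mul_le_mul_of_nonneg_left _ (by positivity)
        exact mul_le_mul hHH hJJ (by positivity) (by positivity)
    _ = (1 + ε / 2) * KK * ((H / 2) * (J / 2)) * (1 + 2 * M / H0) ^ 2 := by ring
    _ ≤ (1 + ε / 2) * KK * ((H / 2) * (J / 2)) * ((1 + ε) / (1 + ε / 2)) :=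
        mul_le_mul_of_nonneg_left hH0.le (by positivity)
    _ = _ := by field_simp

end Pool.Agent.Lib.MP_092512_nt.ParAvg
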