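import Pool.Agent.Lib.MP_092512_nt.MultAvg
import Pool.Agent.Lib.MP_092512_nt.SingularAvg

/-!
# Singular series of arbitrary finite sets: local factors, pair products, upper bound for the
average over all `k`-element subsets of an interval
-/

open Finset Filter Topology

namespace Pool.Agent.Lib.MP_092512_nt.KSets

open Pool.Agent.Lib.MP_092512_nt

/-- number of residue classes mod `p` occupied by `D` -/
def nu (D : Finset ℕ) (p : ℕ) : ℕ := (D.image (fun d => d % p)).card

/-- the local factor -/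
noncomputable def fac (D : Finset ℕ) (p : ℕ) : ℝ :=
  (1 - (nu D p : ℝ) / p) / (1 - 1 / (p : ℝ)) ^ D.card

/-- pairs of elements of `D` -/
def pairs (D : Finset ℕ) : Finset (ℕ × ℕ) := (D ×ˢ D).filter (fun q => q.1 < q.2)

lemma nu_le_card (D : Finset ℕ) (p : ℕ) : nu D p ≤ D.card := card_image_le

lemma nu_le (D : Finset ℕ) {p : ℕ} (hp : 0 < p) : nu D p ≤ p := by
  unfold nu
  calc (D.image (fun d => d % p)).card ≤ (range p).card := by
        apply card_le_card
        intro x hx
        rw [mem_image] at hx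
        obtain ⟨d, _, rfl⟩ := hx
        exact mem_range.mpr (Nat.mod_lt _ hp)
    _ = p := card_range p

lemma one_sub_pos {p : ℕ} (hp : p.Prime) : (0:ℝ) < 1 - 1 / (p:ℝ) := by
  have : (2 : ℝ) ≤ p := by exact_mod_cast hp.two_le
  rw [sub_pos, div_lt_one (by linarith)]
  linarith

lemma fac_nonneg (D : Finset ℕ) {p : ℕ} (hp : p.Prime) : 0 ≤ fac D p := by
  unfold fac
  apply div_nonneg
  · have h := nu_le D hp.pos
    have hp0 : (0:ℝ) < p := by exact_mod_cast hp.pos
    rw [sub_nonneg, div_le_one hp0]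
    exact_mod_cast h
  · exact pow_nonneg (one_sub_pos hp).le _

lemma fac_le_yf (D : Finset ℕ) {p : ℕ} (hp : p.Prime) : fac D p ≤ (yf p) ^ D.card := by
  unfold fac yf
  rw [div_eq_mul_inv, inv_pow]
  have h1 : 1 - (nu D p : ℝ) / p ≤ 1 := by
    have : 0 ≤ (nu D p : ℝ) / p := by positivity
    linarith
  have h2 : 0 ≤ ((1 - 1 / (p:ℝ)) ^ D.card)⁻¹ := by
    have := one_sub_pos hp
    positivity
  nlinarith

lemma fac_le_one (D : Finset ℕ) {p : ℕ} (hp : p.Prime) (h : nu D p = D.card) :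
    fac D p ≤ 1 := by
  unfold fac
  rw [h, div_le_one (pow_pos (one_sub_pos hp) _)]
  have hp2 : (2 : ℝ) ≤ p := by exact_mod_cast hp.two_le
  have h1 : (-2 : ℝ) ≤ -(1 / (p:ℝ)) := by
    have : 1 / (p:ℝ) ≤ 1 := by rw [div_le_one (by linarith)]; linarith
    linarith
  have h2 := one_add_mul_le_pow h1 D.card
  calc 1 - (D.card : ℝ) / p = 1 + (D.card : ℝ) * (-(1 / (p:ℝ))) := by ring
    _ ≤ (1 + (-(1 / (p:ℝ)))) ^ D.card := h2
    _ = _ := by ring_nf

lemma nu_eq_card {D : Finset ℕ} {p : ℕ} (h : ∀ q ∈ pairs D, ¬ p ∣ q.2 - q.1) :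
    nu D p = D.card := by
  unfold nu
  apply card_image_of_injOn
  intro a ha b hb hab
  simp only at hab
  by_contra hne
  rcases lt_or_gt_of_ne hne with h1 | h1
  · have hq : (a, b) ∈ pairs D := mem_filter.mpr ⟨mem_product.mpr ⟨ha, hb⟩, h1⟩
    exact h _ hq ((Nat.modEq_iff_dvd' h1.le).mp hab)
  · have hq : (b, a) ∈ pairs D := mem_filter.mpr ⟨mem_product.mpr ⟨hb, ha⟩, h1⟩
    exact h _ hq ((Nat.modEq_iff_dvd' h1.le).mp hab.symm)

lemma one_le_prod {ι : Type*} (s : Finset ι) (f : ι → ℝ) (h : ∀ i ∈ s, 1 ≤ f i) :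
    1 ≤ ∏ i ∈ s, f i := by
  classical
  induction s using Finset.induction_on with
  | empty => simp
  | insert a s ha ih =>
    rw [prod_insert ha]
    have h1 := h a (mem_insert_self _ _)
    have h2 := ih (fun i hi => h i (mem_insert_of_mem hi))
    nlinarith

lemma single_le_prod {ι : Type*} (s : Finset ι) (f : ι → ℝ) (h : ∀ i ∈ s, 1 ≤ f i)
    {a : ι} (ha : a ∈ s) : f a ≤ ∏ i ∈ s, f i := by
  classical
  rw [← mul_prod_erase s f ha]
  have h1 := h a ha
  have h2 := one_le_prod (s.erase a) f (fun i hi => h i (mem_of_mem_erase hi))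
  nlinarith

lemma prod_le_of_subset {ι : Type*} {s t : Finset ι} (hst : s ⊆ t) (f : ι → ℝ)
    (h : ∀ i ∈ t, 1 ≤ f i) : ∏ i ∈ s, f i ≤ ∏ i ∈ t, f i := by
  classical
  rw [← prod_sdiff hst]
  have h1 := one_le_prod (t \ s) f (fun i hi => h i (Finset.mem_sdiff.mp hi).1)
  have h2 := one_le_prod s f (fun i hi => h i (hst hi))
  nlinarith

lemma fac_le_prod (D : Finset ℕ) {p : ℕ} (hp : p.Prime) :
    fac D p ≤ ∏ q ∈ pairs D, (if p ∣ q.2 - q.1 then (yf p) ^ D.card else 1) := by
  have hone : ∀ q ∈ pairs D, (1:ℝ) ≤ (if p ∣ q.2 - q.1 then (yf p) ^ D.card else 1) := by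
    intro q _
    split_ifs
    · exact one_le_pow₀ (one_le_yf hp)
    · exact le_rfl
  by_cases h : ∃ q ∈ pairs D, p ∣ q.2 - q.1
  · obtain ⟨q, hq, hd⟩ := h
    have h1 := single_le_prod (pairs D)
      (fun q => (if p ∣ q.2 - q.1 then (yf p) ^ D.card else (1:ℝ))) hone hq
    simp only [if_pos hd] at h1
    exact (fac_le_yf D hp).trans h1
  · push Not at h
    exact (fac_le_one D hp (nu_eq_card h)).trans (one_le_prod _ _ hone)

/-- The product of `(1 - 1/p)⁻¹` over the prime factors `p > w` of `n`. -/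
noncomputable def G (w n : ℕ) : ℝ := ∏ p ∈ n.primeFactors with w < p, yf p

lemma one_le_G (w n : ℕ) : 1 ≤ G w n := by
  unfold G
  apply one_le_prod
  intro p hp
  exact one_le_yf (Nat.prime_of_mem_primeFactors (mem_filter.mp hp).1)

/-- The majorant. -/
noncomputable def T (w : ℕ) (D : Finset ℕ) : ℝ := ∏ q ∈ pairs D, (G w (q.2 - q.1)) ^ D.card

lemma one_le_T (w : ℕ) (D : Finset ℕ) : 1 ≤ T w D := by
  unfold T
  apply one_le_prod
  intro q _
  exact one_le_pow₀ (one_le_G _ _)

lemma prod_fac_le_T (D : Finset ℕ) (w : ℕ) (s : Finset ℕ) (hs : ∀ p ∈ s, p.Prime ∧ w < p) :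
    ∏ p ∈ s, fac D p ≤ T w D := by
  calc ∏ p ∈ s, fac D p ≤ ∏ p ∈ s, ∏ q ∈ pairs D,
        (if p ∣ q.2 - q.1 then (yf p) ^ D.card else 1) := by
        apply Finset.prod_le_prod
        · intro p hp; exact fac_nonneg D (hs p hp).1
        · intro p hp; exact fac_le_prod D (hs p hp).1
    _ = ∏ q ∈ pairs D, ∏ p ∈ s, (if p ∣ q.2 - q.1 then (yf p) ^ D.card else 1) := prod_comm
    _ ≤ T w D := by
        unfold T
        apply Finset.prod_le_prod
        · intro q _
          apply prod_nonneg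
          intro p hp
          split_ifs
          · exact pow_nonneg (yf_pos (hs p hp).1).le _
          · exact zero_le_one
        · intro q hq
          have hq' := (mem_filter.mp hq).2
          have hne : q.2 - q.1 ≠ 0 := by omega
          rw [← prod_filter]
          rw [prod_pow]
          apply pow_le_pow_left₀
          · apply prod_nonneg
            intro p hp
            exact (yf_pos (hs p (mem_filter.mp hp).1).1).le
          · unfold G
            apply prod_le_of_subset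
            · intro p hp
              have hp' := mem_filter.mp hp
              rw [mem_filter, Nat.mem_primeFactors]
              exact ⟨⟨(hs p hp'.1).1, hp'.2, hne⟩, (hs p hp'.1).2⟩
            · intro p hp
              exact one_le_yf (Nat.prime_of_mem_primeFactors (mem_filter.mp hp).1)

/-! ### partial products and their limit -/

/-- partial products of the singular series -/
noncomputable def Sp (D : Finset ℕ) (z : ℕ) : ℝ := ∏ p ∈ Nat.primesBelow z, fac D p

lemma Sp_nonneg (D : Finset ℕ) (z : ℕ) : 0 ≤ Sp D z := by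
  unfold Sp
  apply prod_nonneg
  intro p hp
  exact fac_nonneg D (Nat.prime_of_mem_primesBelow hp)

lemma Sp_le_T (D : Finset ℕ) (z : ℕ) : Sp D z ≤ T 0 D :=
  prod_fac_le_T D 0 _ (fun _ hp => ⟨Nat.prime_of_mem_primesBelow hp,
    (Nat.prime_of_mem_primesBelow hp).pos⟩)

lemma Sp_le_mul (D : Finset ℕ) (w z : ℕ) (hwz : w < z) : Sp D z ≤ Sp D (w + 1) * T w D := by
  have hsub : Nat.primesBelow (w + 1) ⊆ Nat.primesBelow z := by
    intro p hp
    rw [Nat.mem_primesBelow] at hp ⊢
    exact ⟨by omega, hp.2⟩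
  unfold Sp
  rw [← prod_sdiff hsub, mul_comm]
  apply mul_le_mul_of_nonneg_left _ (Sp_nonneg D (w + 1))
  apply prod_fac_le_T
  intro p hp
  rw [Finset.mem_sdiff, Nat.mem_primesBelow, Nat.mem_primesBelow] at hp
  refine ⟨hp.1.2, ?_⟩
  by_contra h
  exact hp.2 ⟨by omega, hp.1.2⟩

/-- the singular series exists -/
theorem exists_lim (D : Finset ℕ) : ∃ S : ℝ, Tendsto (Sp D) atTop (𝓝 S) := by
  set m := D.sup id with hm
  have hanti : Antitone (fun z => Sp D (z + (m + 1))) := by
    apply antitone_nat_of_succ_le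
    intro z
    have e : z + 1 + (m + 1) = (z + (m + 1)) + 1 := by ring
    rw [e]
    have hsub : Nat.primesBelow (z + (m + 1)) ⊆ Nat.primesBelow (z + (m + 1) + 1) := by
      intro p hp
      rw [Nat.mem_primesBelow] at hp ⊢
      exact ⟨by omega, hp.2⟩
    have h0 := Sp_nonneg D (z + (m + 1))
    unfold Sp at h0 ⊢
    rw [← prod_sdiff hsub]
    apply mul_le_of_le_one_left h0
    apply Finset.prod_le_one
    · intro p hp
      exact fac_nonneg D (Nat.prime_of_mem_primesBelow (Finset.mem_sdiff.mp hp).1)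
    · intro p hp
      rw [Finset.mem_sdiff, Nat.mem_primesBelow, Nat.mem_primesBelow] at hp
      have hpm : m < p := by
        by_contra h
        exact hp.2 ⟨by omega, hp.1.2⟩
      apply fac_le_one D hp.1.2
      apply nu_eq_card
      intro q hq hd
      have hq' := mem_filter.mp hq
      have hq2 := (mem_product.mp hq'.1).2
      have h1 : q.2 ≤ m := by
        have := Finset.le_sup (f := id) hq2
        exact this
      have h2 : 0 < q.2 - q.1 := by have := hq'.2; omega
      have := Nat.le_of_dvd h2 hd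
      omega
  have hbdd : BddBelow (Set.range (fun z => Sp D (z + (m + 1)))) :=
    ⟨0, by rintro _ ⟨z, rfl⟩; exact Sp_nonneg D _⟩
  have ht := tendsto_atTop_ciInf hanti hbdd
  exact ⟨_, (tendsto_add_atTop_iff_nat (m + 1)).mp ht⟩

lemma lim_nonneg {D : Finset ℕ} {S : ℝ} (h : Tendsto (Sp D) atTop (𝓝 S)) : 0 ≤ S :=
  ge_of_tendsto' h (fun z => Sp_nonneg D z)

lemma lim_le_mul {D : Finset ℕ} {S : ℝ} (h : Tendsto (Sp D) atTop (𝓝 S)) (w : ℕ) :
    S ≤ Sp D (w + 1) * T w D := by
  apply le_of_tendsto h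
  filter_upwards [eventually_gt_atTop w] with z hz
  exact Sp_le_mul D w z hz

/-! ### translation invariance -/

lemma nu_translate (D : Finset ℕ) (t p : ℕ) : nu (D.image (fun d => d + t)) p = nu D p := by
  unfold nu
  rw [image_image]
  have h1 : D.image ((fun d => d % p) ∘ (fun d => d + t)) =
      (D.image (fun d => d % p)).image (fun r => (r + t) % p) := by
    rw [image_image]
    apply image_congr
    intro d _
    simp only [Function.comp_apply, Nat.mod_add_mod]
  rw [h1]
  apply card_image_of_injOn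
  intro a ha b hb hab
  rw [mem_coe, mem_image] at ha hb
  obtain ⟨a', _, rfl⟩ := ha
  obtain ⟨b', _, rfl⟩ := hb
  simp only [Nat.mod_add_mod] at hab ⊢
  have : a' + t ≡ b' + t [MOD p] := hab
  exact Nat.ModEq.add_right_cancel' t this

lemma card_translate (D : Finset ℕ) (t : ℕ) : (D.image (fun d => d + t)).card = D.card :=
  card_image_of_injective _ (add_left_injective t)

lemma Sp_translate (D : Finset ℕ) (t z : ℕ) : Sp (D.image (fun d => d + t)) z = Sp D z := by
  unfold Sp fac
  apply prod_congr rfl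
  intro p _
  rw [nu_translate, card_translate]

/-! ### The average of a finite product: Chinese remainder -/

/-- number of `n < m` with all `n + d` coprime to `m` -/
noncomputable def rr (D : Finset ℕ) (m : ℕ) : ℝ :=
  ∑ n ∈ range m, if ∀ d ∈ D, Nat.Coprime (n + d) m then (1:ℝ) else 0

lemma coprime_mod_add (n d m : ℕ) : Nat.Coprime (n % m + d) m ↔ Nat.Coprime (n + d) m := by
  have h : n % m + d ≡ n + d [MOD m] := (Nat.mod_modEq n m).add_right d
  unfold Nat.Coprime
  rw [Nat.ModEq.gcd_eq h]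

lemma rr_mul (D : Finset ℕ) {m n : ℕ} (hm : m ≠ 0) (hn : n ≠ 0) (h : Nat.Coprime m n) :
    rr D (m * n) = rr D m * rr D n := by
  unfold rr
  have h1 := ParAvg.sum_range_mul_coprime hm hn h
    (fun i j => (if ∀ d ∈ D, Nat.Coprime (i + d) m then (1:ℝ) else 0) *
      (if ∀ d ∈ D, Nat.Coprime (j + d) n then (1:ℝ) else 0))
  rw [sum_mul_sum, ← h1]
  apply sum_congr rfl
  intro x _
  simp only [coprime_mod_add]
  have h2 : (∀ d ∈ D, Nat.Coprime (x + d) (m * n)) ↔
      ((∀ d ∈ D, Nat.Coprime (x + d) m) ∧ (∀ d ∈ D, Nat.Coprime (x + d) n)) := by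
    constructor
    · intro h
      exact ⟨fun d hd => (Nat.coprime_mul_iff_right.mp (h d hd)).1,
        fun d hd => (Nat.coprime_mul_iff_right.mp (h d hd)).2⟩
    · rintro ⟨h1, h2⟩ d hd
      exact Nat.coprime_mul_iff_right.mpr ⟨h1 d hd, h2 d hd⟩
  by_cases ha : ∀ d ∈ D, Nat.Coprime (x + d) m
  · by_cases hb : ∀ d ∈ D, Nat.Coprime (x + d) n
    · rw [if_pos (h2.mpr ⟨ha, hb⟩), if_pos ha, if_pos hb, one_mul]
    · rw [if_neg (fun h => hb (h2.mp h).2), if_pos ha, if_neg hb, mul_zero]
  · rw [if_neg (fun h => ha (h2.mp h).1), if_neg ha, zero_mul]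

lemma rr_prime (D : Finset ℕ) {p : ℕ} (hp : p.Prime) : rr D p = p - nu D p := by
  have hF : Fact p.Prime := ⟨hp⟩
  have h1 : rr D p = (((range p).filter (fun n => ∀ d ∈ D, Nat.Coprime (n + d) p)).card : ℝ) := by
    unfold rr
    rw [Finset.sum_boole]
  set B : Finset (ZMod p) := D.image (fun d => -((d : ℕ) : ZMod p)) with hB
  have h2 : ((range p).filter (fun n => ∀ d ∈ D, Nat.Coprime (n + d) p)).card = (Bᶜ).card := by
    refine Finset.card_nbij' (fun n => (n : ZMod p)) (fun n => n.val) ?_ ?_ ?_ ?_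
    · intro n hn
      simp only [coe_filter, mem_range, Set.mem_ofPred_eq] at hn
      simp only [coe_compl, Set.mem_compl_iff, mem_coe, hB, mem_image, not_exists, not_and]
      intro d hd h
      have h3 : ((n + d : ℕ) : ZMod p) = 0 := by
        rw [Nat.cast_add, ← h]; ring
      rw [ZMod.natCast_eq_zero_iff] at h3
      have h4 := hn.2 d hd
      exact (Nat.Prime.coprime_iff_not_dvd hp).mp h4.symm h3
    · intro n hn
      simp only [coe_compl, Set.mem_compl_iff, mem_coe, hB, mem_image, not_exists, not_and] at hn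
      simp only [coe_filter, mem_range, Set.mem_ofPred_eq]
      refine ⟨ZMod.val_lt n, fun d hd => ?_⟩
      apply Nat.Coprime.symm
      rw [Nat.Prime.coprime_iff_not_dvd hp]
      intro h
      rw [← ZMod.natCast_eq_zero_iff, Nat.cast_add, ZMod.natCast_zmod_val] at h
      exact hn d hd (by rw [← add_eq_zero_iff_eq_neg.mp h])
    · intro n hn
      simp only [coe_filter, mem_range, Set.mem_ofPred_eq] at hn
      exact ZMod.val_cast_of_lt hn.1
    · intro n _
      exact ZMod.natCast_zmod_val n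
  have h3 : B.card = nu D p := by
    unfold nu
    have e1 : B = ((D.image (fun d => d % p)).image (fun r => -((r : ℕ) : ZMod p))) := by
      rw [hB, image_image]
      apply image_congr
      intro d _
      simp only [Function.comp_apply, ZMod.natCast_mod]
    rw [e1]
    apply card_image_of_injOn
    intro a ha b hb hab
    rw [mem_coe, mem_image] at ha hb
    obtain ⟨a', _, rfl⟩ := ha
    obtain ⟨b', _, rfl⟩ := hb
    simp only [neg_inj] at hab
    rw [ZMod.natCast_eq_natCast_iff] at hab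
    exact Nat.ModEq.eq_of_lt_of_lt hab (Nat.mod_lt _ hp.pos) (Nat.mod_lt _ hp.pos)
  rw [h1, h2, Finset.card_compl, ZMod.card, h3, Nat.cast_sub (nu_le D hp.pos)]

lemma rr_prod (D : Finset ℕ) (P : Finset ℕ) (hP : ∀ p ∈ P, p.Prime) :
    rr D (∏ p ∈ P, p) = ∏ p ∈ P, ((p : ℝ) - nu D p) := by
  classical
  induction P using Finset.induction_on with
  | empty =>
    simp only [prod_empty]
    unfold rr
    simp
  | insert q P hq ih =>
    have hP' : ∀ p ∈ P, p.Prime := fun p hp => hP p (mem_insert_of_mem hp)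
    have hqp : q.Prime := hP q (mem_insert_self _ _)
    have hcop : Nat.Coprime q (∏ p ∈ P, p) := by
      apply Nat.Coprime.prod_right
      intro p hp
      rw [Nat.coprime_primes hqp (hP' p hp)]
      rintro rfl
      exact hq hp
    have hne : (∏ p ∈ P, p) ≠ 0 := prod_ne_zero_iff.mpr (fun p hp => (hP' p hp).ne_zero)
    rw [prod_insert hq, prod_insert hq, rr_mul D hqp.ne_zero hne hcop, ih hP', rr_prime D hqp]

/-- the modulus -/
def PP (w : ℕ) : ℕ := ∏ p ∈ Nat.primesBelow (w + 1), p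

lemma PP_ne_zero (w : ℕ) : PP w ≠ 0 :=
  prod_ne_zero_iff.mpr (fun _ hp => (Nat.prime_of_mem_primesBelow hp).ne_zero)

lemma totient_prod (P : Finset ℕ) (hP : ∀ p ∈ P, p.Prime) :
    (Nat.totient (∏ p ∈ P, p) : ℝ) = ∏ p ∈ P, ((p : ℝ) - 1) := by
  classical
  induction P using Finset.induction_on with
  | empty => simp
  | insert q P hq ih =>
    have hP' : ∀ p ∈ P, p.Prime := fun p hp => hP p (mem_insert_of_mem hp)
    have hqp : q.Prime := hP q (mem_insert_self _ _)
    have hcop : Nat.Coprime q (∏ p ∈ P, p) := by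
      apply Nat.Coprime.prod_right
      intro p hp
      rw [Nat.coprime_primes hqp (hP' p hp)]
      rintro rfl
      exact hq hp
    rw [prod_insert hq, prod_insert hq, Nat.totient_mul hcop, Nat.cast_mul, ih hP',
      Nat.totient_prime hqp, Nat.cast_sub hqp.one_lt.le, Nat.cast_one]

/-- The finite product of local factors as a count. -/
lemma Sp_eq (D : Finset ℕ) (w : ℕ) :
    Sp D (w + 1) = ((PP w : ℝ) ^ D.card / (Nat.totient (PP w) : ℝ) ^ D.card) / (PP w) *
      rr D (PP w) := by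
  have hP : ∀ p ∈ Nat.primesBelow (w + 1), p.Prime := fun p hp => Nat.prime_of_mem_primesBelow hp
  unfold PP
  rw [rr_prod D _ hP, totient_prod _ hP]
  push_cast
  rw [← prod_pow, ← prod_pow, ← prod_div_distrib, ← prod_div_distrib, ← prod_mul_distrib]
  unfold Sp fac
  apply prod_congr rfl
  intro p hp
  have hpp := hP p hp
  have hp0 : (p:ℝ) ≠ 0 := by exact_mod_cast hpp.ne_zero
  have hp1 : (p:ℝ) - 1 ≠ 0 := by
    have : (1:ℝ) < p := by exact_mod_cast hpp.one_lt
    linarith
  have e : 1 - 1 / (p:ℝ) = ((p:ℝ) - 1) / p := by field_simp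
  rw [e, div_pow]
  field_simp

/-- The average over the `k`-subsets of `[1, H]` of a finite partial product. -/
theorem sum_Sp_le (k w H : ℕ) :
    ∑ D ∈ powersetCard k (Icc 1 H), Sp D (w + 1) ≤ ((H : ℝ) + PP w) ^ k / (k.factorial : ℝ) := by
  classical
  set P := PP w with hP
  have hP0 : P ≠ 0 := PP_ne_zero w
  have hPr : (0:ℝ) < P := by exact_mod_cast Nat.pos_of_ne_zero hP0
  have hφ : (0:ℝ) < Nat.totient P := by exact_mod_cast Nat.totient_pos.mpr (Nat.pos_of_ne_zero hP0)
  have h1 : ∑ D ∈ powersetCard k (Icc 1 H), Sp D (w + 1) =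
      ((P : ℝ) ^ k / (Nat.totient P : ℝ) ^ k) / P * ∑ n ∈ range P,
        ((((Icc 1 H).filter (fun m => Nat.Coprime (n + m) P)).card.choose k : ℕ) : ℝ) := by
    have h2 : ∀ D ∈ powersetCard k (Icc 1 H), Sp D (w + 1) =
        ((P : ℝ) ^ k / (Nat.totient P : ℝ) ^ k) / P * rr D P := by
      intro D hD
      rw [Sp_eq, (mem_powersetCard.mp hD).2]
    rw [sum_congr rfl h2, ← mul_sum]
    congr 1
    unfold rr
    rw [sum_comm]
    apply sum_congr rfl
    intro n _
    rw [Finset.sum_boole, ← card_powersetCard]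
    congr 2
    ext D
    rw [mem_filter, mem_powersetCard, mem_powersetCard]
    constructor
    · rintro ⟨⟨h1, h2⟩, h3⟩
      exact ⟨fun d hd => mem_filter.mpr ⟨h1 hd, h3 d hd⟩, h2⟩
    · rintro ⟨h1, h2⟩
      exact ⟨⟨fun d hd => (mem_filter.mp (h1 hd)).1, h2⟩, fun d hd => (mem_filter.mp (h1 hd)).2⟩
  have h3 : ∀ n, ((((Icc 1 H).filter (fun m => Nat.Coprime (n + m) P)).card : ℕ) : ℝ) ≤
      Nat.totient P * ((H:ℝ) / P + 1) := by
    intro n
    have e1 : ((Icc 1 H).filter (fun m => Nat.Coprime (n + m) P)).card =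
        ((Ico (n + 1) (n + 1 + H)).filter (fun m => Nat.Coprime P m)).card := by
      refine Finset.card_nbij' (fun m => n + m) (fun m => m - n) ?_ ?_ ?_ ?_
      · intro m hm
        simp only [coe_filter, mem_Icc, Set.mem_ofPred_eq] at hm
        simp only [coe_filter, mem_Ico, Set.mem_ofPred_eq]
        exact ⟨by omega, hm.2.symm⟩
      · intro m hm
        simp only [coe_filter, mem_Ico, Set.mem_ofPred_eq] at hm
        simp only [coe_filter, mem_Icc, Set.mem_ofPred_eq]
        have : n + (m - n) = m := by omega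
        rw [this]
        exact ⟨by omega, hm.2.symm⟩
      · intro m _; simp
      · intro m hm
        simp only [coe_filter, mem_Ico, Set.mem_ofPred_eq] at hm
        simp only
        omega
    rw [e1]
    have e2 := Nat.Ico_filter_coprime_le (a := P) (n + 1) H hP0
    calc (((Ico (n + 1) (n + 1 + H)).filter (fun m => Nat.Coprime P m)).card : ℝ)
        ≤ ((Nat.totient P * (H / P + 1) : ℕ) : ℝ) := by exact_mod_cast e2
      _ = Nat.totient P * (((H / P : ℕ) : ℝ) + 1) := by push_cast; ring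
      _ ≤ _ := by
          apply mul_le_mul_of_nonneg_left _ hφ.le
          have : ((H / P : ℕ) : ℝ) ≤ (H:ℝ) / P := Nat.cast_div_le
          linarith
  rw [h1]
  have hk0 : (0:ℝ) < (k.factorial : ℝ) := by exact_mod_cast Nat.factorial_pos k
  calc ((P : ℝ) ^ k / (Nat.totient P : ℝ) ^ k) / P * ∑ n ∈ range P,
        ((((Icc 1 H).filter (fun m => Nat.Coprime (n + m) P)).card.choose k : ℕ) : ℝ)
      ≤ ((P : ℝ) ^ k / (Nat.totient P : ℝ) ^ k) / P * ∑ n ∈ range P,
        (Nat.totient P * ((H:ℝ) / P + 1)) ^ k / (k.factorial : ℝ) := by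
        apply mul_le_mul_of_nonneg_left _ (by positivity)
        apply sum_le_sum
        intro n _
        refine (Nat.choose_le_pow_div k _).trans ?_
        apply div_le_div_of_nonneg_right _ hk0.le
        exact pow_le_pow_left₀ (Nat.cast_nonneg _) (h3 n) k
    _ = ((H : ℝ) + P) ^ k / (k.factorial : ℝ) := by
        rw [sum_const, card_range, nsmul_eq_mul, mul_pow]
        have e : (H:ℝ) + P = P * ((H:ℝ) / P + 1) := by field_simp
        rw [e, mul_pow]
        field_simp

/-! ### sums over pairs -/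

lemma choose_le_pow' (n k : ℕ) : ((n.choose k : ℕ) : ℝ) ≤ (n : ℝ) ^ k := by
  exact_mod_cast Nat.choose_le_pow n k

/-- number of `k`-subsets containing two given elements -/
lemma card_containing_le (k H a b : ℕ) (hab : a ≠ b) (hk : 2 ≤ k) :
    ((((powersetCard k (Icc 1 H)).filter (fun D => a ∈ D ∧ b ∈ D)).card : ℕ) : ℝ) ≤
      (H : ℝ) ^ (k - 2) := by
  have h1 : ((powersetCard k (Icc 1 H)).filter (fun D => a ∈ D ∧ b ∈ D)).card ≤
      (powersetCard (k - 2) (Icc 1 H)).card := by
    apply card_le_card_of_injOn (fun D => (D.erase a).erase b)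
    · intro D hD
      rw [mem_coe, mem_filter, mem_powersetCard] at hD
      rw [mem_coe, mem_powersetCard]
      refine ⟨fun x hx => hD.1.1 (mem_of_mem_erase (mem_of_mem_erase hx)), ?_⟩
      rw [card_erase_of_mem (mem_erase.mpr ⟨Ne.symm hab, hD.2.2⟩), card_erase_of_mem hD.2.1,
        hD.1.2]
      omega
    · intro D hD D' hD' h
      rw [mem_coe, mem_filter] at hD hD'
      simp only at h
      have e1 : insert a (insert b ((D.erase a).erase b)) = D := by
        rw [insert_erase (mem_erase.mpr ⟨Ne.symm hab, hD.2.2⟩), insert_erase hD.2.1]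
      have e2 : insert a (insert b ((D'.erase a).erase b)) = D' := by
        rw [insert_erase (mem_erase.mpr ⟨Ne.symm hab, hD'.2.2⟩), insert_erase hD'.2.1]
      rw [← e1, ← e2, h]
  have h2 : (((powersetCard (k - 2) (Icc 1 H)).card : ℕ) : ℝ) ≤ (H : ℝ) ^ (k - 2) := by
    rw [card_powersetCard, Nat.card_Icc, Nat.add_sub_cancel]
    exact choose_le_pow' _ _
  refine le_trans ?_ h2
  exact_mod_cast h1

/-- Sum over `k`-subsets of a sum over pairs of a function of the difference. -/
lemma sum_pairs_le (k H : ℕ) (F : ℕ → ℝ) (hF : ∀ n, 0 ≤ F n) (η : ℝ) (hη : 0 ≤ η)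
    (h : ∑ d ∈ Icc 1 H, F d ≤ H * η) :
    ∑ D ∈ powersetCard k (Icc 1 H), ∑ q ∈ pairs D, F (q.2 - q.1) ≤ η * (H : ℝ) ^ k := by
  classical
  have hH0 : (0:ℝ) ≤ H := Nat.cast_nonneg _
  by_cases hk : 2 ≤ k
  · have h1 : ∀ D ∈ powersetCard k (Icc 1 H), ∑ q ∈ pairs D, F (q.2 - q.1) =
        ∑ q ∈ pairs (Icc 1 H), if (q.1 ∈ D ∧ q.2 ∈ D) then F (q.2 - q.1) else 0 := by
      intro D hD
      have hDs := (mem_powersetCard.mp hD).1
      rw [← sum_filter]
      apply sum_congr _ (fun _ _ => rfl)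
      ext q
      unfold pairs
      rw [mem_filter, mem_filter, mem_filter, mem_product, mem_product]
      constructor
      · rintro ⟨⟨h1, h2⟩, h3⟩
        exact ⟨⟨⟨hDs h1, hDs h2⟩, h3⟩, h1, h2⟩
      · rintro ⟨⟨_, h3⟩, h1, h2⟩
        exact ⟨⟨h1, h2⟩, h3⟩
    rw [sum_congr rfl h1, sum_comm]
    have h2 : ∀ q ∈ pairs (Icc 1 H), ∑ D ∈ powersetCard k (Icc 1 H),
        (if (q.1 ∈ D ∧ q.2 ∈ D) then F (q.2 - q.1) else 0) ≤
        (H : ℝ) ^ (k - 2) * F (q.2 - q.1) := by
      intro q hq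
      have hlt := (mem_filter.mp hq).2
      rw [← sum_filter, sum_const, nsmul_eq_mul]
      exact mul_le_mul_of_nonneg_right (card_containing_le k H q.1 q.2 hlt.ne hk) (hF _)
    have h3 : ∑ q ∈ pairs (Icc 1 H), F (q.2 - q.1) ≤ H * (H * η) := by
      unfold pairs
      rw [sum_filter, sum_product]
      calc ∑ a ∈ Icc 1 H, ∑ b ∈ Icc 1 H, (if (a, b).1 < (a, b).2 then F ((a, b).2 - (a, b).1) else 0)
          ≤ ∑ a ∈ Icc 1 H, (H * η) := by
            apply sum_le_sum
            intro a ha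
            rw [mem_Icc] at ha
            refine le_trans ?_ h
            rw [← sum_filter]
            have e : ∑ b ∈ (Icc 1 H).filter (fun b => a < b), F (b - a) =
                ∑ d ∈ ((Icc 1 H).filter (fun b => a < b)).image (fun b => b - a), F d := by
              rw [sum_image]
              intro x hx y hy hxy
              rw [mem_coe, mem_filter] at hx hy
              simp only at hxy
              omega
            refine (le_of_eq e).trans ?_
            apply sum_le_sum_of_subset_of_nonneg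
            · intro d hd
              rw [mem_image] at hd
              obtain ⟨b, hb, rfl⟩ := hd
              rw [mem_filter, mem_Icc] at hb
              rw [mem_Icc]
              omega
            · intro d _ _; exact hF d
        _ = H * (H * η) := by
            rw [sum_const, Nat.card_Icc, nsmul_eq_mul, Nat.add_sub_cancel]
    calc ∑ q ∈ pairs (Icc 1 H), ∑ D ∈ powersetCard k (Icc 1 H),
        (if (q.1 ∈ D ∧ q.2 ∈ D) then F (q.2 - q.1) else 0)
        ≤ ∑ q ∈ pairs (Icc 1 H), (H : ℝ) ^ (k - 2) * F (q.2 - q.1) := sum_le_sum h2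
      _ = (H : ℝ) ^ (k - 2) * ∑ q ∈ pairs (Icc 1 H), F (q.2 - q.1) := by rw [mul_sum]
      _ ≤ (H : ℝ) ^ (k - 2) * (H * (H * η)) := by gcongr
      _ = η * (H : ℝ) ^ k := by
          obtain ⟨j, rfl⟩ := Nat.exists_eq_add_of_le hk
          rw [Nat.add_sub_cancel_left]
          ring
  · have h1 : ∀ D ∈ powersetCard k (Icc 1 H), ∑ q ∈ pairs D, F (q.2 - q.1) = 0 := by
      intro D hD
      have hc := (mem_powersetCard.mp hD).2
      have : pairs D = ∅ := by
        rw [eq_empty_iff_forall_notMem]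
        intro q hq
        have hq' := mem_filter.mp hq
        have hq2 := mem_product.mp hq'.1
        have h2 : 1 < D.card := one_lt_card.mpr ⟨q.1, hq2.1, q.2, hq2.2, hq'.2.ne⟩
        omega
      rw [this, sum_empty]
    rw [sum_congr rfl h1, sum_const_zero]
    positivity

lemma prod_sub_one_le {ι : Type*} (s : Finset ι) (f : ι → ℝ) (h : ∀ i ∈ s, 1 ≤ f i) (m : ℕ)
    (hm : s.card ≤ m) : ∏ i ∈ s, f i - 1 ≤ ∑ i ∈ s, ((f i) ^ m - 1) := by
  classical
  rcases s.eq_empty_or_nonempty with rfl | hs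
  · simp
  · obtain ⟨j, hj, hmax⟩ := exists_max_image s f hs
    have h1 : ∏ i ∈ s, f i ≤ (f j) ^ s.card := by
      rw [← prod_const]
      exact Finset.prod_le_prod (fun i hi => by linarith [h i hi]) (fun i hi => hmax i hi)
    have h2 : (f j) ^ s.card ≤ (f j) ^ m := pow_le_pow_right₀ (h j hj) hm
    have h3 : (f j) ^ m - 1 ≤ ∑ i ∈ s, ((f i) ^ m - 1) := by
      apply single_le_sum (f := fun i => (f i) ^ m - 1) _ hj
      intro i hi
      have := one_le_pow₀ (h i hi) (n := m)
      linarith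
    linarith

lemma card_pairs_le (D : Finset ℕ) : (pairs D).card ≤ D.card ^ 2 := by
  unfold pairs
  refine (card_filter_le _ _).trans ?_
  rw [card_product, sq]

/-- exponent used for moments -/
def mm (k j : ℕ) : ℕ := k * j * k ^ 2

/-- the error function -/
noncomputable def eta (k j w : ℕ) : ℝ := Real.exp (4 * 2 ^ (mm k j) / (w + 1)) - 1

lemma eta_nonneg (k j w : ℕ) : 0 ≤ eta k j w := by
  unfold eta
  have : (0:ℝ) ≤ 4 * 2 ^ (mm k j) / ((w:ℝ) + 1) := by positivity
  have := Real.one_le_exp this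
  linarith

/-- Moments of the majorant. -/
theorem sum_T_pow_sub_one_le (k j w H : ℕ) :
    ∑ D ∈ powersetCard k (Icc 1 H), ((T w D) ^ j - 1) ≤ eta k j w * (H : ℝ) ^ k := by
  have h1 : ∀ D ∈ powersetCard k (Icc 1 H), (T w D) ^ j - 1 ≤
      ∑ q ∈ pairs D, ((G w (q.2 - q.1)) ^ (mm k j) - 1) := by
    intro D hD
    have hc := (mem_powersetCard.mp hD).2
    unfold T
    rw [← prod_pow]
    have h2 := prod_sub_one_le (pairs D) (fun q => ((G w (q.2 - q.1)) ^ D.card) ^ j)
      (fun q _ => one_le_pow₀ (one_le_pow₀ (one_le_G _ _))) (k ^ 2)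
      (by rw [← hc]; exact card_pairs_le D)
    refine h2.trans (le_of_eq ?_)
    apply sum_congr rfl
    intro q _
    rw [hc, ← pow_mul, ← pow_mul]
    unfold mm
    rw [mul_assoc]
  refine (sum_le_sum h1).trans ?_
  apply sum_pairs_le k H (fun n => (G w n) ^ (mm k j) - 1) _ _ (eta_nonneg k j w)
  · have h3 := sum_yf_pow_le (mm k j) w H
    rw [sum_sub_distrib, sum_const, Nat.card_Icc, Nat.add_sub_cancel, nsmul_eq_mul, mul_one]
    unfold eta G
    linarith
  · intro n
    have := one_le_pow₀ (one_le_G w n) (n := mm k j)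
    linarith

lemma sum_T_pow_le (k j w H : ℕ) :
    ∑ D ∈ powersetCard k (Icc 1 H), (T w D) ^ j ≤ (1 + eta k j w) * (H : ℝ) ^ k := by
  have h1 := sum_T_pow_sub_one_le k j w H
  rw [sum_sub_distrib, sum_const, card_powersetCard, Nat.card_Icc, Nat.add_sub_cancel,
    nsmul_eq_mul, mul_one] at h1
  have h2 := choose_le_pow' H k
  linarith

lemma tendsto_eta (k j : ℕ) : Tendsto (fun w => eta k j w) atTop (𝓝 0) := by
  have h1 : Tendsto (fun w : ℕ => 4 * 2 ^ (mm k j) / ((w:ℝ) + 1)) atTop (𝓝 0) := by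
    apply Tendsto.div_atTop tendsto_const_nhds
    exact tendsto_atTop_add_const_right _ _ tendsto_natCast_atTop_atTop
  have h2 := (Real.continuous_exp.tendsto 0).comp h1
  have h3 := h2.sub_const 1
  rw [Real.exp_zero, sub_self] at h3
  exact h3

/-- The average of the singular series over the `k`-subsets of `[1, H]` is at most `1 + ε`. -/
theorem sum_S_le (S : Finset ℕ → ℝ) (hS : ∀ D, Tendsto (Sp D) atTop (𝓝 (S D))) (k : ℕ)
    (ε : ℝ) (hε : 0 < ε) : ∃ H0 : ℕ, ∀ H : ℕ, H0 ≤ H →
    ∑ D ∈ powersetCard k (Icc 1 H), S D ≤ (1 + ε) * ((H : ℝ) ^ k / (k.factorial : ℝ)) := by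
  have hk0 : (0:ℝ) < (k.factorial : ℝ) := by exact_mod_cast Nat.factorial_pos k
  set C0 : ℝ := 1 + eta k 2 0 with hC0
  have hC0p : 0 < C0 := by have := eta_nonneg k 2 0; linarith
  set δ : ℝ := ε / (3 * C0 * k.factorial) with hδ
  have hδp : 0 < δ := by positivity
  -- choose w
  have hw : ∀ᶠ w in atTop, eta k 2 w < δ * (ε / (3 * k.factorial)) :=
    (tendsto_eta k 2).eventually_lt_const (by positivity)
  obtain ⟨w, hw⟩ := hw.exists
  -- choose H0
  have hH : ∀ᶠ H : ℕ in atTop, (1 + (PP w : ℝ) / H) ^ k < 1 + ε / 3 := by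
    have h1 : Tendsto (fun H : ℕ => (PP w : ℝ) / H) atTop (𝓝 0) :=
      Tendsto.div_atTop tendsto_const_nhds tendsto_natCast_atTop_atTop
    have h2 := (h1.const_add 1).pow k
    rw [add_zero, one_pow] at h2
    exact h2.eventually_lt_const (by linarith)
  obtain ⟨H0, hH0⟩ := (hH.and (eventually_gt_atTop 0)).exists_forall_of_atTop
  refine ⟨H0, fun H hHH => ?_⟩
  obtain ⟨hH1, hHpos⟩ := hH0 H hHH
  have hHr : (0:ℝ) < H := by exact_mod_cast hHpos
  have hterm : ∀ D ∈ powersetCard k (Icc 1 H), S D ≤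
      Sp D (w + 1) + (δ * (T 0 D) ^ 2 + (1 / δ) * ((T w D) ^ 2 - 1)) := by
    intro D _
    have h1 := lim_le_mul (hS D) w
    have h2 := Sp_nonneg D (w + 1)
    have h3 := Sp_le_T D (w + 1)
    have h4 := one_le_T w D
    set A := Sp D (w + 1)
    set t := T w D
    have h5 : A * (t - 1) ≤ δ * A ^ 2 + (1 / δ) * (t - 1) ^ 2 := by
      have e : δ * A ^ 2 + (1 / δ) * (t - 1) ^ 2 - A * (t - 1) =
          (1 / δ) * ((δ * A - (t - 1) / 2) ^ 2 + 3 / 4 * (t - 1) ^ 2) := by
        field_simp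
        ring
      have : 0 ≤ (1 / δ) * ((δ * A - (t - 1) / 2) ^ 2 + 3 / 4 * (t - 1) ^ 2) := by positivity
      linarith
    have h6 : A ^ 2 ≤ (T 0 D) ^ 2 := pow_le_pow_left₀ h2 h3 2
    have h7 : (t - 1) ^ 2 ≤ t ^ 2 - 1 := by nlinarith
    have h8 : δ * A ^ 2 ≤ δ * (T 0 D) ^ 2 := by gcongr
    have h9 : (1 / δ) * (t - 1) ^ 2 ≤ (1 / δ) * (t ^ 2 - 1) := by gcongr
    nlinarith
  calc ∑ D ∈ powersetCard k (Icc 1 H), S D
      ≤ ∑ D ∈ powersetCard k (Icc 1 H),
        (Sp D (w + 1) + (δ * (T 0 D) ^ 2 + (1 / δ) * ((T w D) ^ 2 - 1))) := sum_le_sum hterm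
    _ = ∑ D ∈ powersetCard k (Icc 1 H), Sp D (w + 1) +
        (δ * ∑ D ∈ powersetCard k (Icc 1 H), (T 0 D) ^ 2 +
          (1 / δ) * ∑ D ∈ powersetCard k (Icc 1 H), ((T w D) ^ 2 - 1)) := by
        rw [sum_add_distrib, sum_add_distrib, ← mul_sum, ← mul_sum]
    _ ≤ ((H : ℝ) + PP w) ^ k / (k.factorial : ℝ) + (δ * (C0 * (H : ℝ) ^ k) +
          (1 / δ) * (eta k 2 w * (H : ℝ) ^ k)) := by
        have a1 := sum_Sp_le k w H
        have a2 := sum_T_pow_le k 2 0 H
        have a3 := sum_T_pow_sub_one_le k 2 w H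
        gcongr
    _ ≤ (1 + ε / 3) * ((H : ℝ) ^ k / (k.factorial : ℝ)) +
        (ε / 3 * ((H : ℝ) ^ k / (k.factorial : ℝ)) +
          ε / 3 * ((H : ℝ) ^ k / (k.factorial : ℝ))) := by
        have b1 : ((H : ℝ) + PP w) ^ k ≤ (1 + ε / 3) * (H : ℝ) ^ k := by
          have : (H : ℝ) + PP w = (1 + (PP w : ℝ) / H) * H := by field_simp
          rw [this, mul_pow]
          gcongr
        have b2 : δ * (C0 * (H : ℝ) ^ k) = ε / 3 * ((H : ℝ) ^ k / (k.factorial : ℝ)) := by
          rw [hδ]; field_simp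
        have b3 : (1 / δ) * (eta k 2 w * (H : ℝ) ^ k) ≤
            ε / 3 * ((H : ℝ) ^ k / (k.factorial : ℝ)) := by
          calc (1 / δ) * (eta k 2 w * (H : ℝ) ^ k)
              ≤ (1 / δ) * ((δ * (ε / (3 * k.factorial))) * (H : ℝ) ^ k) := by gcongr
            _ = _ := by field_simp
        have b4 : ((H : ℝ) + PP w) ^ k / (k.factorial : ℝ) ≤
            (1 + ε / 3) * ((H : ℝ) ^ k / (k.factorial : ℝ)) := by
          rw [← mul_div_assoc]
          gcongr
        rw [b2]
        linarith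
    _ = _ := by ring

end Pool.Agent.Lib.MP_092512_nt.KSets
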