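import Mathlib

/-!
# Averages of products over prime factors
-/

open Finset

namespace Pool.Agent.Lib.MP_092512_nt

theorem card_multiples_le (X d : ℕ) :
    (((Icc 1 X).filter (fun n => d ∣ n)).card : ℝ) ≤ (X : ℝ) / d := by
  have h : (Icc 1 X).filter (fun n => d ∣ n) = (Ioc 0 X).filter (fun n => d ∣ n) := by
    ext n; simp only [mem_filter, mem_Icc, mem_Ioc]; constructor <;> rintro ⟨⟨a, b⟩, c⟩ <;>
      exact ⟨⟨by omega, b⟩, c⟩
  rw [h, Nat.Ioc_filter_dvd_card_eq_div]
  exact Nat.cast_div_le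

/-- `∑_{n ≤ X} ∏_{p | n, p > w} (1 + κ p) ≤ X exp (2 C / (w + 1))` if `κ p ≤ C / p`. -/
theorem sum_prod_le (κ : ℕ → ℝ) (C : ℝ) (hC : 0 ≤ C) (hκ0 : ∀ p, 0 ≤ κ p)
    (hκ : ∀ p : ℕ, p.Prime → κ p ≤ C / p) (w X : ℕ) :
    ∑ n ∈ Icc 1 X, ∏ p ∈ n.primeFactors with w < p, (1 + κ p) ≤
      X * Real.exp (2 * C / (w + 1)) := by
  classical
  set R : Finset ℕ := (Ioo w (X + 1)).filter Nat.Prime with hR
  have hRprime : ∀ p ∈ R, p.Prime := fun p hp => (Finset.mem_filter.mp hp).2
  have h1 : ∀ n ∈ Icc 1 X, ∏ p ∈ n.primeFactors with w < p, (1 + κ p) ≤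
      ∑ T ∈ R.powerset, if (∏ p ∈ T, p) ∣ n then ∏ p ∈ T, κ p else 0 := by
    intro n hn
    have hn1 := (Finset.mem_Icc.mp hn).1
    have hn2 := (Finset.mem_Icc.mp hn).2
    rw [Finset.prod_one_add, ← Finset.sum_filter]
    apply Finset.sum_le_sum_of_subset_of_nonneg
    · intro T hT
      have hT := Finset.mem_powerset.mp hT
      rw [Finset.mem_filter, Finset.mem_powerset]
      refine ⟨?_, ?_⟩
      · intro p hp
        have hp' := Finset.mem_filter.mp (hT hp)
        rw [hR, Finset.mem_filter, Finset.mem_Ioo]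
        have h2 : p ≤ n := Nat.le_of_mem_primeFactors hp'.1
        exact ⟨⟨hp'.2, by omega⟩, Nat.prime_of_mem_primeFactors hp'.1⟩
      · apply Finset.prod_primes_dvd
        · intro p hp
          exact (Nat.prime_of_mem_primeFactors (Finset.mem_filter.mp (hT hp)).1).prime
        · intro p hp
          exact Nat.dvd_of_mem_primeFactors (Finset.mem_filter.mp (hT hp)).1
    · intro T _ _
      exact Finset.prod_nonneg fun p _ => hκ0 p
  calc ∑ n ∈ Icc 1 X, ∏ p ∈ n.primeFactors with w < p, (1 + κ p)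
      ≤ ∑ n ∈ Icc 1 X, ∑ T ∈ R.powerset, if (∏ p ∈ T, p) ∣ n then ∏ p ∈ T, κ p else 0 :=
        Finset.sum_le_sum h1
    _ = ∑ T ∈ R.powerset, (((Icc 1 X).filter (fun n => (∏ p ∈ T, p) ∣ n)).card : ℝ) *
          ∏ p ∈ T, κ p := by
        rw [Finset.sum_comm]
        refine Finset.sum_congr rfl fun T _ => ?_
        rw [← Finset.sum_filter, Finset.sum_const, nsmul_eq_mul]
    _ ≤ ∑ T ∈ R.powerset, (X : ℝ) * ∏ p ∈ T, (κ p / p) := by
        refine Finset.sum_le_sum fun T _ => ?_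
        have h2 := card_multiples_le X (∏ p ∈ T, p)
        have h3 : 0 ≤ ∏ p ∈ T, κ p := Finset.prod_nonneg fun p _ => hκ0 p
        calc _ ≤ (X : ℝ) / ((∏ p ∈ T, p : ℕ) : ℝ) * ∏ p ∈ T, κ p :=
              mul_le_mul_of_nonneg_right h2 h3
          _ = _ := by
              rw [Finset.prod_div_distrib, Nat.cast_prod]
              ring
    _ = (X : ℝ) * ∏ p ∈ R, (1 + κ p / p) := by
        rw [Finset.prod_one_add, Finset.mul_sum]
    _ ≤ (X : ℝ) * Real.exp (2 * C / (w + 1)) := by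
        refine mul_le_mul_of_nonneg_left ?_ (Nat.cast_nonneg _)
        calc ∏ p ∈ R, (1 + κ p / p) ≤ ∏ p ∈ R, Real.exp (κ p / p) := by
              refine Finset.prod_le_prod ?_ ?_
              · intro p _
                have : 0 ≤ κ p / p := div_nonneg (hκ0 p) (Nat.cast_nonneg _)
                linarith
              · intro p _
                have := Real.add_one_le_exp (κ p / p)
                linarith
          _ = Real.exp (∑ p ∈ R, κ p / p) := (Real.exp_sum _ _).symm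
          _ ≤ Real.exp (2 * C / (w + 1)) := by
              rw [Real.exp_le_exp]
              calc ∑ p ∈ R, κ p / p ≤ ∑ p ∈ R, C * ((p : ℝ) ^ 2)⁻¹ := by
                    refine Finset.sum_le_sum fun p hp => ?_
                    have hp0 : (0 : ℝ) < p := by exact_mod_cast (hRprime p hp).pos
                    have := hκ p (hRprime p hp)
                    calc κ p / p ≤ (C / p) / p := by gcongr
                      _ = _ := by field_simp
                _ ≤ ∑ p ∈ Ioo w (X + 1), C * ((p : ℝ) ^ 2)⁻¹ := by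
                    apply Finset.sum_le_sum_of_subset_of_nonneg (Finset.filter_subset _ _)
                    intro p _ _
                    positivity
                _ = C * ∑ p ∈ Ioo w (X + 1), ((p : ℝ) ^ 2)⁻¹ := by rw [Finset.mul_sum]
                _ ≤ C * (2 / (w + 1)) := by
                    gcongr
                    exact sum_Ioo_inv_sq_le w (X + 1)
                _ = _ := by ring

theorem one_add_pow_le (u : ℝ) (hu0 : 0 ≤ u) (hu1 : u ≤ 1) (k : ℕ) :
    (1 + u) ^ k ≤ 1 + (2 ^ k - 1) * u := by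
  induction k with
  | zero => simp
  | succ k ih =>
    have h2 : (1 : ℝ) ≤ 2 ^ k := one_le_pow₀ (by norm_num)
    calc (1 + u) ^ (k + 1) = (1 + u) ^ k * (1 + u) := pow_succ _ _
      _ ≤ (1 + (2 ^ k - 1) * u) * (1 + u) := by gcongr
      _ = 1 + 2 ^ k * u + (2 ^ k - 1) * (u * u) := by ring
      _ ≤ 1 + 2 ^ k * u + (2 ^ k - 1) * (u * 1) := by
          have : (0 : ℝ) ≤ 2 ^ k - 1 := by linarith
          gcongr
      _ = 1 + (2 ^ (k + 1) - 1) * u := by ring

/-- The factor `(1 - 1/p)^{-1}`. -/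
noncomputable def yf (p : ℕ) : ℝ := (1 - 1 / (p : ℝ))⁻¹

theorem yf_pos {p : ℕ} (hp : p.Prime) : 0 < yf p := by
  have : (2 : ℝ) ≤ p := by exact_mod_cast hp.two_le
  unfold yf
  rw [inv_pos, sub_pos, div_lt_one (by linarith)]
  linarith

theorem one_le_yf {p : ℕ} (hp : p.Prime) : 1 ≤ yf p := by
  have : (2 : ℝ) ≤ p := by exact_mod_cast hp.two_le
  unfold yf
  rw [one_le_inv₀ (by rw [sub_pos, div_lt_one (by linarith)]; linarith)]
  have : 0 ≤ 1 / (p : ℝ) := by positivity
  linarith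

theorem yf_pow_le {p : ℕ} (hp : p.Prime) (k : ℕ) :
    (yf p) ^ k ≤ 1 + (2 * (2 ^ k - 1)) / p := by
  have hp2 : (2 : ℝ) ≤ p := by exact_mod_cast hp.two_le
  have h1 : yf p ≤ 1 + 2 / p := by
    unfold yf
    have h0 : 0 < 1 - 1 / (p : ℝ) := by
      rw [sub_pos, div_lt_one (by linarith)]; linarith
    rw [inv_le_iff_one_le_mul₀ h0]
    have : (1 + 2 / (p : ℝ)) * (1 - 1 / p) = 1 + (p - 2) / (p : ℝ) ^ 2 := by
      field_simp
      ring
    rw [this]
    have : 0 ≤ ((p : ℝ) - 2) / (p : ℝ) ^ 2 := div_nonneg (by linarith) (by positivity)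
    linarith
  have h2 : 2 / (p : ℝ) ≤ 1 := by rw [div_le_one (by linarith)]; exact hp2
  calc (yf p) ^ k ≤ (1 + 2 / p) ^ k := pow_le_pow_left₀ (yf_pos hp).le h1 k
    _ ≤ 1 + (2 ^ k - 1) * (2 / p) := one_add_pow_le _ (by positivity) h2 k
    _ = _ := by ring

/-- The average of `∏_{p | n, p > w} (1 - 1/p)^{-k}` is `1 + O_k(1/w)`. -/
theorem sum_yf_pow_le (k w X : ℕ) :
    ∑ n ∈ Icc 1 X, (∏ p ∈ n.primeFactors with w < p, yf p) ^ k ≤
      X * Real.exp (4 * 2 ^ k / (w + 1)) := by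
  classical
  have hk1 : (1 : ℝ) ≤ 2 ^ k := one_le_pow₀ (by norm_num)
  have h := sum_prod_le (fun p => if p.Prime then (yf p) ^ k - 1 else 0) (2 * 2 ^ k)
    (by positivity) ?_ ?_ w X
  · calc ∑ n ∈ Icc 1 X, (∏ p ∈ n.primeFactors with w < p, yf p) ^ k
        = ∑ n ∈ Icc 1 X, ∏ p ∈ n.primeFactors with w < p,
            (1 + (if p.Prime then (yf p) ^ k - 1 else 0)) := by
          refine Finset.sum_congr rfl fun n _ => ?_
          rw [← Finset.prod_pow]
          refine Finset.prod_congr rfl fun p hp => ?_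
          rw [if_pos (Nat.prime_of_mem_primeFactors (Finset.mem_filter.mp hp).1)]
          ring
      _ ≤ _ := h
      _ = _ := by ring_nf
  · intro p
    split_ifs with hp
    · have := one_le_pow₀ (one_le_yf hp) (n := k)
      linarith
    · exact le_rfl
  · intro p hp
    rw [if_pos hp]
    have h1 := yf_pow_le hp k
    have hp0 : (0 : ℝ) < p := by exact_mod_cast hp.pos
    have h2 : 2 * (2 ^ k - 1) / (p : ℝ) ≤ 2 * 2 ^ k / p := by
      gcongr
      linarith
    linarith

end Pool.Agent.Lib.MP_092512_nt
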