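import Pool.Agent.Lib.MP_092512_nt.AvgLower
import Pool.Agent.Lib.MP_092512_nt.Defs
import Pool.Agent.Lib.MP_092512_nt.SingularAvg

/-!
# Existence and average of the singular series of `{0, a, b, a + b}`
-/

open Finset Filter

namespace Pool.Agent.Lib.MP_092512_nt

open ParAvg

lemma rho_add_nuq {p : ℕ} (hp : p.Prime) (a b : ℕ) : rho p a b + nuq a b p = p := by
  have : Fact p.Prime := ⟨hp⟩
  rw [rho_eq_zmod]
  set A := (univ.filter (fun n : ZMod p => n ≠ 0 ∧ n + a ≠ 0 ∧ n + b ≠ 0 ∧ n + a + b ≠ 0))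
    with hA
  set B : Finset (ZMod p) := {0, -(a : ZMod p), -(b : ZMod p), -((a : ZMod p) + b)} with hB
  have hAB : B = Aᶜ := by
    ext n
    rw [mem_compl, hA, mem_filter, hB]
    simp only [mem_univ, true_and, ne_eq, not_and, not_not, mem_insert, mem_singleton]
    constructor
    · intro h h0 h1 h2
      rcases h with h | h | h | h
      · exact absurd h h0
      · exact absurd (by rw [h]; ring) h1
      · exact absurd (by rw [h]; ring) h2
      · rw [h]; ring
    · intro h
      by_cases h0 : n = 0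
      · exact Or.inl h0
      by_cases h1 : n + a = 0
      · exact Or.inr (Or.inl (eq_neg_of_add_eq_zero_left h1))
      by_cases h2 : n + b = 0
      · exact Or.inr (Or.inr (Or.inl (eq_neg_of_add_eq_zero_left h2)))
      · right; right; right
        have := h h0 h1 h2
        rw [add_assoc] at this
        exact eq_neg_of_add_eq_zero_left this
  have hcardB : nuq a b p = B.card := by
    unfold nuq
    set S : Finset ℕ := {0, a, b, a + b} with hS
    have h1 : ((S.image (fun h => h % p)).image (fun h => ((h : ℕ) : ZMod p))).card =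
        (S.image (fun h => h % p)).card := by
      apply Finset.card_image_of_injOn
      intro x hx y hy hxy
      simp only [coe_image, Set.mem_image] at hx hy
      obtain ⟨x', _, rfl⟩ := hx
      obtain ⟨y', _, rfl⟩ := hy
      simp only at hxy
      rw [ZMod.natCast_eq_natCast_iff] at hxy
      exact Nat.ModEq.eq_of_lt_of_lt hxy (Nat.mod_lt _ hp.pos) (Nat.mod_lt _ hp.pos)
    rw [← h1, Finset.image_image]
    have h2 : S.image ((fun h => ((h : ℕ) : ZMod p)) ∘ (fun h => h % p)) =
        {0, (a : ZMod p), (b : ZMod p), (a : ZMod p) + b} := by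
      rw [hS]
      simp only [Finset.image_insert, Finset.image_singleton, Function.comp_apply,
        ZMod.natCast_mod, Nat.cast_zero, Nat.cast_add]
    rw [h2]
    have h3 : B = ({0, (a : ZMod p), (b : ZMod p), (a : ZMod p) + b} : Finset (ZMod p)).image
        (fun x => -x) := by
      rw [hB]
      simp only [Finset.image_insert, Finset.image_singleton, neg_zero]
    rw [h3, Finset.card_image_of_injective _ neg_injective]
  rw [hcardB, hAB, Finset.card_add_card_compl, ZMod.card]

lemma fac_eq_nuq {p : ℕ} (hp : p.Prime) (a b : ℕ) :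
    (1 - (nuq a b p : ℝ) / p) / (1 - 1 / (p : ℝ)) ^ 4 = fac p a b := by
  unfold fac
  have h := rho_add_nuq hp a b
  have h1 : (rho p a b : ℝ) + nuq a b p = p := by exact_mod_cast h
  have hp0 : (p:ℝ) ≠ 0 := by exact_mod_cast hp.ne_zero
  congr 1
  rw [eq_div_iff hp0, sub_mul, div_mul_cancel₀ _ hp0]
  linarith

lemma Spart_eq (a b z : ℕ) : Spart a b z = PP (Nat.primesBelow z) a b := by
  unfold Spart PP
  apply Finset.prod_congr rfl
  intro p hp
  exact fac_eq_nuq (Nat.prime_of_mem_primesBelow hp) a b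

/-- primes below `z` as a finset of `Nat.Primes` -/
noncomputable def pb (z : ℕ) : Finset Nat.Primes :=
  (Nat.primesBelow z).subtype Nat.Prime

lemma tendsto_pb : Tendsto pb atTop atTop := by
  rw [tendsto_atTop]
  intro F
  filter_upwards [eventually_ge_atTop (F.sup (fun p : Nat.Primes => (p : ℕ)) + 1)] with z hz
  intro p hp
  have h1 : (p : ℕ) ≤ F.sup (fun p : Nat.Primes => (p : ℕ)) :=
    Finset.le_sup (f := fun p : Nat.Primes => (p : ℕ)) hp
  exact mem_subtype.mpr (Nat.mem_primesBelow.mpr ⟨by omega, p.2⟩)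

lemma prod_pb (z : ℕ) (f : ℕ → ℝ) :
    ∏ p ∈ pb z, f p = ∏ p ∈ Nat.primesBelow z, f p := by
  unfold pb
  exact Finset.prod_subtype_of_mem f (fun p hp => Nat.prime_of_mem_primesBelow hp)

lemma tendsto_Spart {a b : ℕ} (ha : 0 < a) (hb : 0 < b) (hab : a ≠ b) :
    Tendsto (Spart a b) atTop (nhds (SS a b)) := by
  have h := (multipliable_fac ha hb hab).hasProd
  have h2 : Tendsto (fun z => ∏ p ∈ pb z, fac p a b) atTop (nhds (SS a b)) := h.comp tendsto_pb
  refine h2.congr (fun z => ?_)
  rw [Spart_eq]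
  exact prod_pb z (fun p => fac p a b)

/-- The singular series exists. -/
theorem exists_lim (a b : ℕ) (ha : 0 < a) (hb : 0 < b) (hab : a ≠ b) :
    ∃ S : ℝ, Tendsto (Spart a b) atTop (nhds S) ∧ 0 ≤ S :=
  ⟨SS a b, tendsto_Spart ha hb hab, SS_nonneg ha hb hab⟩

/-! ### the constant `kap` -/

open Classical in
/-- `∑ vv^2` -/
noncomputable def V2 (W : ℕ) [NeZero W] : ℕ := ∑ m : ZMod W, (vv W m) ^ 2

open Classical in
lemma V2_mul (m n : ℕ) [NeZero m] [NeZero n] [NeZero (m * n)] (h : Nat.Coprime m n) :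
    V2 (m * n) = V2 m * V2 n := by
  have hvv : ∀ x : ZMod (m * n), vv (m * n) x =
      vv m (ZMod.chineseRemainder h x).1 * vv n (ZMod.chineseRemainder h x).2 := by
    intro x
    unfold vv
    rw [← Finset.card_product]
    refine Finset.card_equiv (ZMod.chineseRemainder h).toEquiv ?_
    intro i
    simp only [mem_filter, mem_univ, true_and, mem_product, RingEquiv.toEquiv_eq_coe,
      EquivLike.coe_coe]
    have e1 : IsUnit i ↔ IsUnit (ZMod.chineseRemainder h i) :=
      (MulEquiv.isUnit_map (ZMod.chineseRemainder h)).symm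
    have e2 : IsUnit (i + x) ↔ IsUnit (ZMod.chineseRemainder h i + ZMod.chineseRemainder h x) := by
      rw [← map_add]
      exact (MulEquiv.isUnit_map (ZMod.chineseRemainder h)).symm
    rw [e1, e2, Prod.isUnit_iff, Prod.isUnit_iff, Prod.fst_add, Prod.snd_add]
    tauto
  unfold V2
  rw [Fintype.sum_equiv (ZMod.chineseRemainder h).toEquiv (fun x => (vv (m * n) x) ^ 2)
    (fun q => (vv m q.1 * vv n q.2) ^ 2) (fun x => by rw [hvv x]; rfl)]
  rw [Fintype.sum_prod_type, Finset.sum_mul_sum]
  apply Finset.sum_congr rfl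
  intro x _
  apply Finset.sum_congr rfl
  intro y _
  rw [mul_pow]

lemma kap_eq (W : ℕ) [NeZero W] : kap W = (W : ℝ) * (V2 W : ℝ) / (Nat.totient W : ℝ) ^ 4 := by
  unfold kap V2
  push_cast
  rfl

lemma kap_mul (m n : ℕ) [NeZero m] [NeZero n] [NeZero (m * n)] (h : Nat.Coprime m n) :
    kap (m * n) = kap m * kap n := by
  rw [kap_eq, kap_eq, kap_eq, V2_mul m n h, Nat.totient_mul h]
  push_cast
  have h1 : (Nat.totient m : ℝ) ≠ 0 := by
    exact_mod_cast (Nat.totient_pos.mpr (Nat.pos_of_ne_zero (NeZero.ne m))).ne'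
  have h2 : (Nat.totient n : ℝ) ≠ 0 := by
    exact_mod_cast (Nat.totient_pos.mpr (Nat.pos_of_ne_zero (NeZero.ne n))).ne'
  field_simp

open Classical in
lemma vv_prime {p : ℕ} (hp : p.Prime) [NeZero p] (m : ZMod p) :
    (vv p m : ℝ) = (p:ℝ) - 2 + (if m = 0 then 1 else 0) := by
  have : Fact p.Prime := ⟨hp⟩
  have hcard : (Fintype.card (ZMod p) : ℝ) = p := by rw [ZMod.card]
  unfold vv
  have h1 : ((univ.filter (fun u : ZMod p => IsUnit u ∧ IsUnit (u + m))).card : ℝ) =
      ∑ u : ZMod p, (if u ≠ 0 ∧ u + m ≠ 0 then (1:ℝ) else 0) := by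
    rw [Finset.sum_boole]
    congr 2
    ext u
    simp only [mem_filter, mem_univ, true_and, isUnit_iff_ne_zero]
  rw [h1]
  by_cases hm : m = 0
  · rw [if_pos hm]
    have : ∀ u : ZMod p, (if u ≠ 0 ∧ u + m ≠ 0 then (1:ℝ) else 0) =
        1 - (if u = 0 then 1 else 0) := by
      intro u
      rw [hm]
      by_cases hu : u = 0
      · simp [hu]
      · simp [hu]
    rw [Finset.sum_congr rfl (fun n _ => this n), Finset.sum_sub_distrib,
      Finset.sum_ite_eq' univ (0 : ZMod p) (fun _ => (1:ℝ)), if_pos (mem_univ _),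
      Finset.sum_const, card_univ, nsmul_eq_mul, hcard]
    ring
  · rw [if_neg hm]
    have : ∀ u : ZMod p, (if u ≠ 0 ∧ u + m ≠ 0 then (1:ℝ) else 0) =
        1 - (if u = 0 then 1 else 0) - (if u = -m then 1 else 0) := by
      intro u
      by_cases hu : u = 0
      · have : (0 : ZMod p) ≠ -m := by
          intro h; apply hm; rw [eq_comm, neg_eq_zero] at h; exact h
        simp [hu, this]
      · by_cases hu2 : u = -m
        · rw [hu2]
          have : -m ≠ 0 := by rw [← hu2]; exact hu
          simp [this]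
        · have : u + m ≠ 0 := fun h => hu2 (eq_neg_of_add_eq_zero_left h)
          simp [hu, hu2, this]
    rw [Finset.sum_congr rfl (fun n _ => this n), Finset.sum_sub_distrib, Finset.sum_sub_distrib,
      Finset.sum_ite_eq' univ (0 : ZMod p) (fun _ => (1:ℝ)), if_pos (mem_univ _),
      Finset.sum_ite_eq' univ (-m : ZMod p) (fun _ => (1:ℝ)), if_pos (mem_univ _),
      Finset.sum_const, card_univ, nsmul_eq_mul, hcard]
    ring

lemma kap_prime {p : ℕ} (hp : p.Prime) [NeZero p] : kap p = 1 + 1 / ((p:ℝ) - 1) ^ 3 := by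
  have : Fact p.Prime := ⟨hp⟩
  have hcard : (Fintype.card (ZMod p) : ℝ) = p := by rw [ZMod.card]
  unfold kap
  have h1 : ∑ m : ZMod p, (vv p m : ℝ) ^ 2 = ((p:ℝ) - 1) * ((p:ℝ) ^ 2 - 3 * p + 3) := by
    have : ∀ m : ZMod p, (vv p m : ℝ) ^ 2 = ((p:ℝ) - 2) ^ 2 +
        (2 * p - 3) * (if m = 0 then 1 else 0) := by
      intro m
      rw [vv_prime hp m]
      split_ifs <;> ring
    rw [Finset.sum_congr rfl (fun n _ => this n), Finset.sum_add_distrib, ← Finset.mul_sum,
      Finset.sum_ite_eq' univ (0 : ZMod p) (fun _ => (1:ℝ)), if_pos (mem_univ _),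
      Finset.sum_const, card_univ, nsmul_eq_mul, hcard]
    ring
  rw [h1, Nat.totient_prime hp, Nat.cast_sub hp.one_lt.le, Nat.cast_one]
  have hp1 : (1:ℝ) < p := by exact_mod_cast hp.one_lt
  have h2 : (p:ℝ) - 1 ≠ 0 := by linarith
  field_simp
  ring

lemma kap_prod (P : Finset ℕ) (hP : ∀ p ∈ P, p.Prime) (hne : NeZero (∏ p ∈ P, p)) :
    kap (∏ p ∈ P, p) = ∏ p ∈ P, (1 + 1 / ((p:ℝ) - 1) ^ 3) := by
  classical
  induction P using Finset.induction_on with
  | empty =>
    rw [kap_eq]
    simp only [Finset.prod_empty, Nat.cast_one, one_mul, Nat.totient_one, one_pow, div_one]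
    have : V2 1 = 1 := by
      unfold V2 vv
      decide +revert
    exact_mod_cast this
  | insert q P hq ih =>
    have hP' : ∀ p ∈ P, p.Prime := fun p hp => hP p (mem_insert_of_mem hp)
    have hqp : q.Prime := hP q (mem_insert_self _ _)
    have hne0 : (∏ p ∈ P, p) ≠ 0 := by
      apply Finset.prod_ne_zero_iff.mpr
      intro p hp
      exact (hP' p hp).ne_zero
    have hne1 : NeZero (∏ p ∈ P, p) := ⟨hne0⟩
    have hne2 : NeZero q := ⟨hqp.ne_zero⟩
    have hcop : Nat.Coprime q (∏ p ∈ P, p) := by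
      apply Nat.Coprime.prod_right
      intro p hp
      rw [Nat.coprime_primes hqp (hP' p hp)]
      rintro rfl
      exact hq hp
    have hne3 : NeZero (q * ∏ p ∈ P, p) := ⟨mul_ne_zero hqp.ne_zero hne0⟩
    have e : kap (∏ p ∈ insert q P, p) = kap (q * ∏ p ∈ P, p) := by
      congr 1
      · exact Finset.prod_insert hq
    rw [e, kap_mul _ _ hcop, ih hP' hne1, kap_prime hqp, Finset.prod_insert hq]

/-- Some finite product already gives `kap W` close to the full constant. -/
lemma exists_kap (e : ℝ) (he : 0 < e) :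
    ∃ W : ℕ, ∃ _ : NeZero W, KK ≤ (1 + e) * kap W := by
  have hK := one_le_KK
  have hlt : KK / (1 + e) < KK := by
    rw [div_lt_iff₀ (by positivity)]
    nlinarith
  have h := multipliable_K.hasProd
  have hev := h.eventually (lt_mem_nhds hlt)
  obtain ⟨F, hF⟩ := hev.exists
  set P : Finset ℕ := F.image (fun p : Nat.Primes => (p : ℕ)) with hPdef
  have hP : ∀ p ∈ P, p.Prime := by
    intro p hp
    rw [hPdef, mem_image] at hp
    obtain ⟨q, _, rfl⟩ := hp
    exact q.2
  have hne0 : (∏ p ∈ P, p) ≠ 0 := by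
    apply Finset.prod_ne_zero_iff.mpr
    intro p hp
    exact (hP p hp).ne_zero
  refine ⟨∏ p ∈ P, p, ⟨hne0⟩, ?_⟩
  rw [kap_prod P hP ⟨hne0⟩]
  have e1 : ∏ p ∈ P, (1 + 1 / ((p:ℝ) - 1) ^ 3) = ∏ p ∈ F, (1 + 1 / (((p:ℕ):ℝ) - 1) ^ 3) := by
    rw [hPdef, Finset.prod_image]
    intro x _ y _ hxy
    exact Nat.Primes.coe_nat_injective hxy
  rw [e1]
  rw [div_lt_iff₀ (by positivity)] at hF
  linarith

/-- The average of the singular series over a box (Fejer weights) is at most the constant
`kap W` for a suitable modulus `W`. -/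
theorem singular_average_le (e : ℝ) (he : 0 < e) :
    ∃ W : ℕ, ∃ _ : NeZero W, ∃ H0 : ℕ, ∀ S : ℕ → ℕ → ℝ,
      (∀ a b : ℕ, 0 < a → 0 < b → a ≠ b → Tendsto (Spart a b) atTop (nhds (S a b))) →
      ∀ H J : ℕ, H0 ≤ H → H ≤ J →
        ∑ a ∈ Ico 1 H, ∑ b ∈ (Ico 1 J).filter (fun b => b ≠ a),
          ((H : ℝ) - a) * ((J : ℝ) - b) * S a b ≤
          (1 + e) * (kap W * ((H : ℝ) ^ 2 / 2) * ((J : ℝ) ^ 2 / 2)) := by
  have he1 : 0 < min e 1 / 3 := by positivity
  set e1 := min e 1 / 3 with he1def
  obtain ⟨W, hW, hKW⟩ := exists_kap e1 he1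
  obtain ⟨H1, hH1⟩ := box_SS_weighted_le e1 he1
  refine ⟨W, hW, H1 + 1, fun S hS H J hH hJ => ?_⟩
  have hHpos : (0:ℝ) < H := by
    have : 0 < H := by omega
    exact_mod_cast this
  have hJpos : (0:ℝ) < J := by
    have : 0 < J := by omega
    exact_mod_cast this
  have h1 := hH1 H J (by omega) (by omega)
  have e2 : ∑ a ∈ Ico 1 H, ∑ b ∈ (Ico 1 J).filter (fun b => b ≠ a),
      ((H : ℝ) - a) * ((J : ℝ) - b) * S a b ≤
      (H * J) * ParAvg.box H J (fun a b => (1 - a / (H:ℝ)) * (1 - b / (J:ℝ)) * SS a b) := by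
    unfold ParAvg.box
    rw [Finset.mul_sum]
    calc ∑ a ∈ Ico 1 H, ∑ b ∈ (Ico 1 J).filter (fun b => b ≠ a),
          ((H : ℝ) - a) * ((J : ℝ) - b) * S a b
        ≤ ∑ a ∈ Ico 1 H, (H * J) * ∑ b ∈ (Icc 1 J).erase a,
          (1 - a / (H:ℝ)) * (1 - b / (J:ℝ)) * SS a b := by
          apply Finset.sum_le_sum
          intro a ha
          rw [mem_Ico] at ha
          rw [Finset.mul_sum]
          have hsub : (Ico 1 J).filter (fun b => b ≠ a) ⊆ (Icc 1 J).erase a := by
            intro b hb
            rw [mem_filter, mem_Ico] at hb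
            rw [mem_erase, mem_Icc]
            exact ⟨hb.2, hb.1.1, hb.1.2.le⟩
          calc ∑ b ∈ (Ico 1 J).filter (fun b => b ≠ a), ((H : ℝ) - a) * ((J : ℝ) - b) * S a b
              = ∑ b ∈ (Ico 1 J).filter (fun b => b ≠ a),
                (H * J) * ((1 - a / (H:ℝ)) * (1 - b / (J:ℝ)) * SS a b) := by
                apply Finset.sum_congr rfl
                intro b hb
                rw [mem_filter, mem_Ico] at hb
                rw [tendsto_nhds_unique (hS a b ha.1 hb.1.1 (Ne.symm hb.2))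
                  (tendsto_Spart ha.1 hb.1.1 (Ne.symm hb.2))]
                field_simp
            _ ≤ _ := by
                apply Finset.sum_le_sum_of_subset_of_nonneg hsub
                intro b hb _
                rw [mem_erase, mem_Icc] at hb
                have ha2 : (a:ℝ) ≤ H := by exact_mod_cast ha.2.le
                have hb2 : (b:ℝ) ≤ J := by exact_mod_cast hb.2.2
                have s1 : 0 ≤ 1 - a / (H:ℝ) := by
                  rw [sub_nonneg, div_le_one hHpos]; exact ha2
                have s2 : 0 ≤ 1 - b / (J:ℝ) := by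
                  rw [sub_nonneg, div_le_one hJpos]; exact hb2
                have s3 := SS_nonneg ha.1 hb.2.1 (Ne.symm hb.1)
                positivity
      _ ≤ _ := by
          apply Finset.sum_le_sum_of_subset_of_nonneg
          · intro a ha
            rw [mem_Ico] at ha
            rw [mem_Icc]
            exact ⟨ha.1, ha.2.le⟩
          · intro a ha _
            rw [mem_Icc] at ha
            apply mul_nonneg (by positivity)
            apply Finset.sum_nonneg
            intro b hb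
            rw [mem_erase, mem_Icc] at hb
            have ha2 : (a:ℝ) ≤ H := by exact_mod_cast ha.2
            have hb2 : (b:ℝ) ≤ J := by exact_mod_cast hb.2.2
            have s1 : 0 ≤ 1 - a / (H:ℝ) := by
              rw [sub_nonneg, div_le_one hHpos]; exact ha2
            have s2 : 0 ≤ 1 - b / (J:ℝ) := by
              rw [sub_nonneg, div_le_one hJpos]; exact hb2
            have s3 := SS_nonneg ha.1 hb.2.1 (Ne.symm hb.1)
            positivity
  have hk := kap_pos W
  have hle : (1 + e1) * (1 + e1) ≤ 1 + e := by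
    have h2 : e1 ≤ 1 / 3 := by
      have := min_le_right e 1
      rw [he1def]; linarith
    have h3 : 3 * e1 ≤ e := by
      have := min_le_left e 1
      rw [he1def]; linarith
    nlinarith
  calc _ ≤ _ := e2
    _ ≤ (H * J) * ((1 + e1) * KK * ((H / 2) * (J / 2))) :=
        mul_le_mul_of_nonneg_left h1 (by positivity)
    _ ≤ (H * J) * ((1 + e1) * ((1 + e1) * kap W) * ((H / 2) * (J / 2))) := by
        apply mul_le_mul_of_nonneg_left _ (by positivity)
        apply mul_le_mul_of_nonneg_right _ (by positivity)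
        exact mul_le_mul_of_nonneg_left hKW (by positivity)
    _ = ((1 + e1) * (1 + e1)) * (kap W * ((H : ℝ) ^ 2 / 2) * ((J : ℝ) ^ 2 / 2)) := by ring
    _ ≤ _ := mul_le_mul_of_nonneg_right hle (by positivity)

end Pool.Agent.Lib.MP_092512_nt
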