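import Mathlib

/-!
# The window inequality and sums over differences
-/

open Finset

namespace Pool.Agent.Lib.MP_092512_nt

/-- The overlap `max (H - |n - n'|) 0` of two windows of length `H`. -/
def tri (H n n' : ℕ) : ℕ := H - (max n n' - min n n')

theorem card_window (N H n n' : ℕ) (hn : n ≤ N) :
    ((range (N + H)).filter
      (fun t => (n ≤ t ∧ t < n + H) ∧ (n' ≤ t ∧ t < n' + H))).card = tri H n n' := by
  have h : (range (N + H)).filter
      (fun t => (n ≤ t ∧ t < n + H) ∧ (n' ≤ t ∧ t < n' + H)) =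
      Ico (max n n') (min n n' + H) := by
    ext t
    simp only [mem_filter, mem_range, mem_Ico, max_le_iff]
    constructor
    · rintro ⟨_, ⟨h1, h2⟩, h3, h4⟩
      refine ⟨⟨h1, h3⟩, ?_⟩
      rcases le_total n n' with h | h
      · rw [min_eq_left h]; exact h2
      · rw [min_eq_right h]; exact h4
    · rintro ⟨⟨h1, h3⟩, h2⟩
      have ha : min n n' ≤ n := min_le_left _ _
      have hb : min n n' ≤ n' := min_le_right _ _
      exact ⟨by omega, ⟨h1, by omega⟩, h3, by omega⟩
  rw [h, Nat.card_Ico, tri]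
  omega

/-- Cauchy-Schwarz over windows of length `H`. -/
theorem window_cs (s : Finset ℕ) (N H : ℕ) (hs : ∀ n ∈ s, n ≤ N) :
    ((H : ℝ) * s.card) ^ 2 ≤ ((N : ℝ) + H) * ∑ n ∈ s, ∑ n' ∈ s, (tri H n n' : ℝ) := by
  classical
  set c : ℕ → ℝ := fun t => ∑ n ∈ s, if n ≤ t ∧ t < n + H then (1 : ℝ) else 0 with hc
  have h1 : ∑ t ∈ range (N + H), c t = H * s.card := by
    simp only [hc]
    rw [Finset.sum_comm]
    have : ∀ n ∈ s, ∑ t ∈ range (N + H), (if n ≤ t ∧ t < n + H then (1 : ℝ) else 0) = H := by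
      intro n hn
      rw [Finset.sum_boole]
      have e : (range (N + H)).filter (fun t => n ≤ t ∧ t < n + H) = Ico n (n + H) := by
        ext t
        have := hs n hn
        simp only [mem_filter, mem_range, mem_Ico]
        omega
      rw [e, Nat.card_Ico]
      simp
    rw [Finset.sum_congr rfl this, Finset.sum_const, nsmul_eq_mul]
    ring
  have h2 : ∑ t ∈ range (N + H), (c t) ^ 2 = ∑ n ∈ s, ∑ n' ∈ s, (tri H n n' : ℝ) := by
    have e1 : ∀ t, (c t) ^ 2 = ∑ n ∈ s, ∑ n' ∈ s,
        if (n ≤ t ∧ t < n + H) ∧ (n' ≤ t ∧ t < n' + H) then (1 : ℝ) else 0 := by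
      intro t
      rw [sq, hc]
      simp only
      rw [Finset.sum_mul_sum]
      refine Finset.sum_congr rfl fun n _ => Finset.sum_congr rfl fun n' _ => ?_
      split_ifs <;> simp_all
    simp only [e1]
    rw [Finset.sum_comm]
    refine Finset.sum_congr rfl fun n hn => ?_
    rw [Finset.sum_comm]
    refine Finset.sum_congr rfl fun n' hn' => ?_
    rw [Finset.sum_boole, card_window N H n n' (hs n hn)]
  have h3 := sq_sum_le_card_mul_sum_sq (s := range (N + H)) (f := c)
  rw [h1, h2, card_range] at h3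
  push_cast at h3
  exact h3

/-- Number of pairs at distance `a`. -/
def rr (s : Finset ℕ) (a : ℕ) : ℕ := (s.filter (fun n => n + a ∈ s)).card

theorem sum_upper (s : Finset ℕ) (H n : ℕ) (g : ℕ → ℝ) (hg : ∀ a, H ≤ a → g a = 0) :
    ∑ n' ∈ s with n < n', g (n' - n) =
      ∑ a ∈ Ico 1 H, if n + a ∈ s then g a else 0 := by
  classical
  rw [← Finset.sum_filter]
  have h1 : ∑ n' ∈ s with n < n', g (n' - n) =
      ∑ n' ∈ (s.filter (fun n' => n < n')).filter (fun n' => n' - n < H), g (n' - n) := by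
    rw [Finset.sum_filter (fun n' => n' - n < H)]
    refine Finset.sum_congr rfl fun n' _ => ?_
    split_ifs with h
    · rfl
    · exact hg _ (by omega)
  rw [h1]
  refine Finset.sum_bij' (fun n' _ => n' - n) (fun a _ => n + a) ?_ ?_ ?_ ?_ ?_
  · intro n' hn'
    simp only [mem_filter, mem_Ico] at hn' ⊢
    have : n + (n' - n) = n' := by omega
    rw [this]
    exact ⟨⟨by omega, by omega⟩, hn'.1.1⟩
  · intro a ha
    simp only [mem_filter, mem_Ico] at ha ⊢
    exact ⟨⟨ha.2, by omega⟩, by omega⟩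
  · intro n' hn'
    simp only [mem_filter] at hn'
    omega
  · intro a ha
    show n + a - n = a
    omega
  · intro n' hn'
    rfl

/-- A double sum over a function of the distance as a sum over differences. -/
theorem sum_dist (s : Finset ℕ) (H : ℕ) (g : ℕ → ℝ) (hg : ∀ a, H ≤ a → g a = 0) :
    ∑ n ∈ s, ∑ n' ∈ s, g (max n n' - min n n') =
      g 0 * s.card + 2 * ∑ a ∈ Ico 1 H, g a * rr s a := by
  classical
  have hU : ∑ n ∈ s, ∑ n' ∈ s with n < n', g (n' - n) = ∑ a ∈ Ico 1 H, g a * rr s a := by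
    have : ∀ n ∈ s, ∑ n' ∈ s with n < n', g (n' - n) =
        ∑ a ∈ Ico 1 H, if n + a ∈ s then g a else 0 := fun n _ => sum_upper s H n g hg
    rw [Finset.sum_congr rfl this, Finset.sum_comm]
    refine Finset.sum_congr rfl fun a _ => ?_
    rw [← Finset.sum_filter, Finset.sum_const, nsmul_eq_mul, rr]
    ring
  have hL : ∑ n ∈ s, ∑ n' ∈ s with n' < n, g (n - n') = ∑ a ∈ Ico 1 H, g a * rr s a := by
    rw [← hU]
    have e1 : ∀ n ∈ s, ∑ n' ∈ s with n' < n, g (n - n') =
        ∑ n' ∈ s, if n' < n then g (n - n') else 0 := fun n _ => Finset.sum_filter _ _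
    have e2 : ∀ n ∈ s, ∑ n' ∈ s with n < n', g (n' - n) =
        ∑ n' ∈ s, if n < n' then g (n' - n) else 0 := fun n _ => Finset.sum_filter _ _
    rw [Finset.sum_congr rfl e1, Finset.sum_congr rfl e2, Finset.sum_comm]
  have hsplit : ∀ n ∈ s, ∑ n' ∈ s, g (max n n' - min n n') =
      g 0 + ∑ n' ∈ s with n < n', g (n' - n) + ∑ n' ∈ s with n' < n, g (n - n') := by
    intro n hn
    have e : ∀ n' ∈ s, g (max n n' - min n n') =
        (if n = n' then g 0 else 0) + (if n < n' then g (n' - n) else 0) +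
          (if n' < n then g (n - n') else 0) := by
      intro n' _
      rcases lt_trichotomy n n' with h | h | h
      · rw [max_eq_right h.le, min_eq_left h.le, if_neg h.ne, if_pos h, if_neg (by omega)]
        ring
      · subst h
        simp
      · rw [max_eq_left h.le, min_eq_right h.le, if_neg (by omega), if_neg (by omega), if_pos h]
        ring
    rw [Finset.sum_congr rfl e, Finset.sum_add_distrib, Finset.sum_add_distrib,
      Finset.sum_ite_eq s n, if_pos hn, Finset.sum_filter, Finset.sum_filter]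
  rw [Finset.sum_congr rfl hsplit, Finset.sum_add_distrib, Finset.sum_add_distrib, hU, hL,
    Finset.sum_const, nsmul_eq_mul]
  ring

end Pool.Agent.Lib.MP_092512_nt
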